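import Pool.Agent.Lib.MP_ae5b4e_an_SV.BaseB
import Pool.Agent.Lib.MP_ae5b4e_an_NB2.Deep

/-!
# MP_ae5b4e_an, project SV: the base label on a strip, uniform bounds
-/

noncomputable section

namespace Pool.Agent.MP_ae5b4e_an_SV

open Complex Set Filter Topology Metric
open Pool.Agent.MP_ae5b4e_an_NBT
open Pool.Agent.MP_ae5b4e_an_NB2 (Sys Lab)
open Pool.Agent.MP_ae5b4e_an_NB2 (IsExt LReg mem_hdom_of_lreg)

variable {k : ℂ → ℂ} {F G : ℂ × ℂ → ℂ} {c h : ℝ} {Y : Sys}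

/-! ### Auxiliary lemmas -/

private lemma bc_tendsto (a t : ℂ) :
    Tendsto (fun p : ℂ × ℂ => (p.1 + a, p.2)) (𝓝 (t, 0)) (𝓝 (t + a, 0)) := by
  have : Continuous fun p : ℂ × ℂ => (p.1 + a, p.2) := by fun_prop
  exact this.tendsto (t, 0)

private lemma bc_im (t : ℂ) (n : ℤ) : (t + n).im = t.im := by simp

private lemma bc_im' (t : ℂ) (n : ℤ) : (t - n).im = t.im := by simp

private lemma bc_re' (t : ℂ) (n : ℤ) : (t - n).re = t.re - n := by simp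

private lemma bc_per {L₀ : ℂ × ℂ → ℂ} (hper : ∀ t ∈ St (-h) h,
    ∀ᶠ p in 𝓝 ((t, 0) : ℂ × ℂ), L₀ (p.1 + 1, p.2) = L₀ p + 1) (n : ℤ) :
    ∀ t ∈ St (-h) h, ∀ᶠ p in 𝓝 ((t, 0) : ℂ × ℂ), L₀ (p.1 + n, p.2) = L₀ p + n := by
  induction n using Int.induction_on with
  | zero =>
    intro t ht
    exact Eventually.of_forall fun p => by simp
  | succ n ih =>
    intro t ht
    have hm : t + ((n : ℤ) : ℂ) ∈ St (-h) h := by
      rw [mem_St, bc_im]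
      exact ht
    have h1 := (bc_tendsto ((n : ℤ) : ℂ) t).eventually (hper _ hm)
    filter_upwards [ih t ht, h1] with p hp1 hp2
    have e1 : p.1 + (((n : ℤ) + 1 : ℤ) : ℂ) = p.1 + ((n : ℤ) : ℂ) + 1 := by
      push_cast
      ring
    have hp2' : L₀ (p.1 + ((n : ℤ) : ℂ) + 1, p.2) = L₀ (p.1 + ((n : ℤ) : ℂ), p.2) + 1 := hp2
    rw [e1, hp2', hp1]
    push_cast
    ring
  | pred n ih =>
    intro t ht
    have hm : t + ((-(n : ℤ) - 1 : ℤ) : ℂ) ∈ St (-h) h := by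
      rw [mem_St, bc_im]
      exact ht
    have h1 := (bc_tendsto ((-(n : ℤ) - 1 : ℤ) : ℂ) t).eventually (hper _ hm)
    filter_upwards [ih t ht, h1] with p hp1 hp2
    have hp2' : L₀ (p.1 + ((-(n : ℤ) - 1 : ℤ) : ℂ) + 1, p.2) =
        L₀ (p.1 + ((-(n : ℤ) - 1 : ℤ) : ℂ), p.2) + 1 := hp2
    have e1 : p.1 + ((-(n : ℤ) - 1 : ℤ) : ℂ) + 1 = p.1 + ((-(n : ℤ) : ℤ) : ℂ) := by
      push_cast
      ring
    rw [e1, hp1] at hp2'
    push_cast at hp2' ⊢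
    linear_combination -hp2'

/-- the box -/
private def bcK (y : ℝ) : Set ℂ := Icc (-2) 2 ×ℂ Icc (-y) y

private lemma mem_bcK {y : ℝ} {t : ℂ} : t ∈ bcK y ↔ (-2 ≤ t.re ∧ t.re ≤ 2) ∧ -y ≤ t.im ∧ t.im ≤ y :=
  Iff.rfl

private lemma bc_slice {M₀ L₀ : ℂ × ℂ → ℂ} (hL : Lab Y h L₀) (hM : IsExt h L₀ M₀)
    {t : ℂ} (ht : t ∈ St (-h) h) : ∀ᶠ ζ in 𝓝 (0:ℂ), M₀ (t, ζ) = L₀ (t, ζ) := by
  have c0 : Tendsto (fun ζ : ℂ => (t, ζ)) (𝓝 0) (𝓝 (t, 0)) :=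
    (Continuous.prodMk_right t).tendsto 0
  exact c0.eventually (hM.eq t (hL.mem_hdom ht))

/-- periodicity of the maximal extension, one step -/
private lemma bc_one {M₀ L₀ : ℂ × ℂ → ℂ} (hL : Lab Y h L₀) (hM : IsExt h L₀ M₀)
    (hper : ∀ t ∈ St (-h) h, ∀ᶠ p in 𝓝 ((t, 0) : ℂ × ℂ), L₀ (p.1 + 1, p.2) = L₀ p + 1)
    {s η : ℂ} {R : ℝ} (hs : s ∈ St (-h) h) (h1 : LReg h L₀ R s)
    (h2 : LReg h L₀ R (s + 1)) (hη : ‖η‖ < R) : M₀ (s + 1, η) = M₀ (s, η) + 1 := by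
  have hR : 0 < R := (norm_nonneg _).trans_lt hη
  have hs1 : s + 1 ∈ St (-h) h := by
    rw [mem_St] at hs ⊢
    simpa using hs
  have a1 := (hM.diff_snd h2).analyticOnNhd isOpen_ball
  have a2 : AnalyticOnNhd ℂ (fun ζ => M₀ (s, ζ) + 1) (ball 0 R) :=
    ((hM.diff_snd h1).add_const 1).analyticOnNhd isOpen_ball
  have he : (fun ζ => M₀ (s + 1, ζ)) =ᶠ[𝓝 0] fun ζ => M₀ (s, ζ) + 1 := by
    have c0 : Tendsto (fun ζ : ℂ => (s, ζ)) (𝓝 0) (𝓝 (s, 0)) :=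
      (Continuous.prodMk_right s).tendsto 0
    filter_upwards [bc_slice hL hM hs, bc_slice hL hM hs1, c0.eventually (hper s hs)]
      with ζ e1 e2 e3
    rw [e1, e2]
    exact e3
  exact a1.eqOn_of_preconnected_of_eventuallyEq a2 (convex_ball _ _).isPreconnected
    (mem_ball_self hR) he (mem_ball_zero_iff.2 hη)

private lemma bcK_sub {y : ℝ} (hyh : y < h) {t : ℂ} (ht : t ∈ bcK y) : t ∈ St (-h) h := by
  rw [mem_bcK] at ht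
  exact ⟨by linarith [ht.2.1], by linarith [ht.2.2]⟩

private lemma bc_nat {M₀ L₀ : ℂ × ℂ → ℂ} (hL : Lab Y h L₀) (hM : IsExt h L₀ M₀)
    (hper : ∀ t ∈ St (-h) h, ∀ᶠ p in 𝓝 ((t, 0) : ℂ × ℂ), L₀ (p.1 + 1, p.2) = L₀ p + 1)
    {y R : ℝ} (hyh : y < h) (hreg : ∀ t ∈ bcK y, LReg h L₀ R t) {η : ℂ} (hη : ‖η‖ < R)
    (k : ℕ) : ∀ s ∈ bcK y, s + k ∈ bcK y → M₀ (s + k, η) = M₀ (s, η) + k := by
  induction k with
  | zero =>
    intro s _ _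
    simp
  | succ k ih =>
    intro s hs hk
    have hk' : s + k ∈ bcK y := by
      rw [mem_bcK] at hs hk ⊢
      have e1 : (s + ((k + 1 : ℕ) : ℂ)).re = s.re + k + 1 := by
        push_cast
        simp [add_assoc]
      have e2 : (s + ((k + 1 : ℕ) : ℂ)).im = s.im := by
        push_cast
        simp
      have e3 : (s + (k : ℂ)).re = s.re + k := by simp
      have e4 : (s + (k : ℂ)).im = s.im := by simp
      rw [e1, e2] at hk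
      rw [e3, e4]
      have : (0:ℝ) ≤ k := Nat.cast_nonneg k
      exact ⟨⟨by linarith [hs.1.1], by linarith [hk.1.2]⟩, hs.2⟩
    have e5 : s + ((k + 1 : ℕ) : ℂ) = s + k + 1 := by
      push_cast
      ring
    rw [e5] at hk ⊢
    rw [bc_one hL hM hper (bcK_sub hyh hk') (hreg _ hk') (hreg _ hk) hη, ih s hs hk']
    push_cast
    ring

/-- the periodic label -/
private def bcL (M₀ : ℂ × ℂ → ℂ) (p : ℂ × ℂ) : ℂ :=
  M₀ (p.1 - (⌊p.1.re⌋ : ℤ), p.2) + (⌊p.1.re⌋ : ℤ)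

private lemma bcL_eq {M₀ L₀ : ℂ × ℂ → ℂ} (hL : Lab Y h L₀) (hM : IsExt h L₀ M₀)
    (hper : ∀ t ∈ St (-h) h, ∀ᶠ p in 𝓝 ((t, 0) : ℂ × ℂ), L₀ (p.1 + 1, p.2) = L₀ p + 1)
    {y R : ℝ} (hyh : y < h) (hreg : ∀ t ∈ bcK y, LReg h L₀ R t) {t η : ℂ} (hη : ‖η‖ < R)
    (n : ℤ) (ht : t - n ∈ bcK y) : bcL M₀ (t, η) = M₀ (t - n, η) + n := by
  have hm : t - (⌊t.re⌋ : ℤ) ∈ bcK y := by
    rw [mem_bcK] at ht ⊢
    rw [bc_re', bc_im'] at ht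
    rw [bc_re', bc_im']
    have h1 := Int.floor_le t.re
    have h2 := Int.lt_floor_add_one t.re
    exact ⟨⟨by linarith, by linarith⟩, ht.2⟩
  show M₀ (t - (⌊t.re⌋ : ℤ), η) + (⌊t.re⌋ : ℤ) = _
  set m : ℤ := ⌊t.re⌋ with hmdef
  rcases le_total n m with h1 | h1
  · obtain ⟨k, hk⟩ := Int.le.dest h1
    have e1 : (m : ℂ) = n + k := by
      rw [← hk]
      push_cast
      ring
    have e2 : t - n = t - m + (k : ℂ) := by
      rw [e1]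
      ring
    have h2 := bc_nat hL hM hper hyh hreg hη k (t - m) hm (by rw [← e2]; exact ht)
    rw [e2, h2, e1]
    ring
  · obtain ⟨k, hk⟩ := Int.le.dest h1
    have e1 : (n : ℂ) = m + k := by
      rw [← hk]
      push_cast
      ring
    have e2 : t - m = t - n + (k : ℂ) := by
      rw [e1]
      ring
    have h2 := bc_nat hL hM hper hyh hreg hη k (t - n) ht (by rw [← e2]; exact hm)
    rw [e2, h2, e1]
    ring

private lemma bc_slG (hE : ConE k F c h G) {s : ℂ} (hs : |s.im| < c) : sl G 0 s = F (s, 0) := by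
  have hc := hE.pos
  have h1 : ((s, 0) : ℂ × ℂ) ∈ St (-c) c ×ˢ ball (0:ℂ) (c / 4) :=
    ⟨abs_lt.1 hs, mem_ball_self (by linarith)⟩
  rw [(sl_congr (hE.eqG _ h1)).self_of_nhds]
  exact sl_of_analyticAt (hE.an (s, 0) ⟨abs_lt.1 hs, mem_ball_self hc⟩)

/-- the properties of the periodic label which are used -/
private structure BcP (Y : Sys) (h y₁ y R C : ℝ) (L₀ M₀ : ℂ × ℂ → ℂ) : Prop where
  lab : Lab Y h L₀
  ext : IsExt h L₀ M₀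
  per : ∀ t ∈ St (-h) h, ∀ᶠ p in 𝓝 ((t, 0) : ℂ × ℂ), L₀ (p.1 + 1, p.2) = L₀ p + 1
  R_pos : 0 < R
  R_le : R ≤ 1
  C_pos : 0 < C
  y_pos : 0 < y₁
  y_lt : y₁ < y
  y_lth : y < h
  reg : ∀ t ∈ bcK y, LReg h L₀ R t
  quad : ∀ t ∈ bcK y, ∀ η, ‖η‖ < R → ‖M₀ (t, η) - t‖ ≤ C * ‖η‖ ^ 2
  lip : ∀ t ∈ bcK y, ∀ t' ∈ bcK y, ∀ η, ‖η‖ < R →
    ‖(M₀ (t, η) - t) - (M₀ (t', η) - t')‖ ≤ C * ‖η‖ ^ 2 * ‖t - t'‖

private lemma BcP.mem {y₁ y R C : ℝ} {L₀ M₀ : ℂ × ℂ → ℂ} (H : BcP Y h y₁ y R C L₀ M₀) {t u : ℂ}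
    (hu : u ∈ St (-y₁) y₁) (htu : |u.re - t.re| ≤ 1) : u - (⌊t.re⌋ : ℤ) ∈ bcK y := by
  rw [mem_bcK, bc_re', bc_im']
  have h1 := Int.floor_le t.re
  have h2 := Int.lt_floor_add_one t.re
  have h3 := abs_le.1 htu
  have h4 := H.y_lt
  rw [mem_St] at hu
  exact ⟨⟨by linarith, by linarith⟩, by linarith, by linarith⟩

private lemma BcP.mem' {y₁ y R C : ℝ} {L₀ M₀ : ℂ × ℂ → ℂ} (H : BcP Y h y₁ y R C L₀ M₀) {t : ℂ}
    (hu : t ∈ St (-y₁) y₁) : t - (⌊t.re⌋ : ℤ) ∈ bcK y :=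
  H.mem hu (by simp)

private lemma BcP.eq {y₁ y R C : ℝ} {L₀ M₀ : ℂ × ℂ → ℂ} (H : BcP Y h y₁ y R C L₀ M₀)
    {t η : ℂ} (hη : ‖η‖ < R) (n : ℤ) (ht : t - n ∈ bcK y) :
    bcL M₀ (t, η) = M₀ (t - n, η) + n :=
  bcL_eq H.lab H.ext H.per H.y_lth H.reg hη n ht

private lemma BcP.an {y₁ y R C : ℝ} {L₀ M₀ : ℂ × ℂ → ℂ} (H : BcP Y h y₁ y R C L₀ M₀)
    {t η : ℂ} (ht : t ∈ St (-y₁) y₁) (hη : ‖η‖ < R) : AnalyticAt ℂ (bcL M₀) (t, η) := by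
  have h1 : AnalyticAt ℂ M₀ (t - (⌊t.re⌋ : ℤ), η) :=
    H.ext.an _ (mem_hdom_of_lreg (H.reg _ (H.mem' ht)) hη)
  have h2 : AnalyticAt ℂ (fun p : ℂ × ℂ => M₀ (p.1 - (⌊t.re⌋ : ℤ), p.2) + (⌊t.re⌋ : ℤ)) (t, η) :=
    (AnalyticAt.fun_comp (g := M₀) (f := fun p : ℂ × ℂ => (p.1 - (⌊t.re⌋ : ℤ), p.2)) h1
      ((analyticAt_fst.sub analyticAt_const).prod analyticAt_snd)).add analyticAt_const
  refine h2.congr ?_
  have c1 : ∀ᶠ p : ℂ × ℂ in 𝓝 (t, η), p.1 ∈ St (-y₁) y₁ :=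
    continuous_fst.continuousAt.eventually ((isOpen_St _ _).mem_nhds ht)
  have c2 : ∀ᶠ p : ℂ × ℂ in 𝓝 (t, η), ‖p.2‖ < R :=
    continuous_snd.norm.continuousAt.eventually (gt_mem_nhds hη)
  have c3 : ∀ᶠ p : ℂ × ℂ in 𝓝 (t, η), |p.1.re - t.re| < 1 := by
    have h3 : ContinuousAt (fun p : ℂ × ℂ => |p.1.re - t.re|) (t, η) := by fun_prop
    exact h3.eventually (gt_mem_nhds (by simp))
  filter_upwards [c1, c2, c3] with p hp1 hp2 hp3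
  exact (H.eq hp2 _ (H.mem hp1 hp3.le)).symm

private lemma BcP.germ {y₁ y R C : ℝ} {L₀ M₀ : ℂ × ℂ → ℂ} (H : BcP Y h y₁ y R C L₀ M₀)
    {t : ℂ} (ht : t ∈ St (-y₁) y₁) : ∀ᶠ p in 𝓝 ((t, 0) : ℂ × ℂ), bcL M₀ p = L₀ p := by
  have htS : t ∈ St (-h) h := by
    rw [mem_St] at ht ⊢
    have h1 := H.y_lt
    have h2 := H.y_lth
    exact ⟨by linarith, by linarith⟩
  have htS' : t + ((-⌊t.re⌋ : ℤ) : ℂ) ∈ St (-h) h := by
    rw [mem_St, bc_im]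
    exact htS
  have c1 : ∀ᶠ p : ℂ × ℂ in 𝓝 (t, 0), p.1 ∈ St (-y₁) y₁ :=
    continuous_fst.continuousAt.eventually ((isOpen_St _ _).mem_nhds ht)
  have c2 : ∀ᶠ p : ℂ × ℂ in 𝓝 (t, 0), ‖p.2‖ < R := by
    have h3 : ContinuousAt (fun p : ℂ × ℂ => ‖p.2‖) (t, 0) := by fun_prop
    exact h3.eventually (gt_mem_nhds (by simpa using H.R_pos))
  have c3 : ∀ᶠ p : ℂ × ℂ in 𝓝 (t, 0), |p.1.re - t.re| < 1 := by
    have h3 : ContinuousAt (fun p : ℂ × ℂ => |p.1.re - t.re|) (t, 0) := by fun_prop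
    exact h3.eventually (gt_mem_nhds (by simp))
  have c4 := (bc_tendsto ((-⌊t.re⌋ : ℤ) : ℂ) t).eventually
    (H.ext.eq _ (H.lab.mem_hdom htS'))
  have c5 := bc_per H.per (-⌊t.re⌋) t htS
  filter_upwards [c1, c2, c3, c4, c5] with p hp1 hp2 hp3 hp4 hp5
  have h4 : bcL M₀ p = M₀ (p.1 - (⌊t.re⌋ : ℤ), p.2) + (⌊t.re⌋ : ℤ) :=
    H.eq hp2 _ (H.mem hp1 hp3.le)
  have h5 : p.1 + ((-⌊t.re⌋ : ℤ) : ℂ) = p.1 - (⌊t.re⌋ : ℤ) := by
    push_cast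
    ring
  rw [h5] at hp4 hp5
  rw [h4, hp4, hp5]
  push_cast
  ring

private lemma BcP.mem_h {y₁ y R C : ℝ} {L₀ M₀ : ℂ × ℂ → ℂ} (H : BcP Y h y₁ y R C L₀ M₀)
    {t η : ℂ} (ht : t ∈ St (-y₁) y₁) (hη : ‖η‖ < R) : bcL M₀ (t, η) ∈ St (-h) h := by
  have h1 := H.ext.maps (mem_hdom_of_lreg (H.reg _ (H.mem' ht)) hη)
  show M₀ (t - (⌊t.re⌋ : ℤ), η) + (⌊t.re⌋ : ℤ) ∈ St (-h) h
  rw [mem_St, bc_im]
  exact h1

private lemma BcP.close {y₁ y R C : ℝ} {L₀ M₀ : ℂ × ℂ → ℂ} (H : BcP Y h y₁ y R C L₀ M₀)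
    {t η : ℂ} (ht : t ∈ St (-y₁) y₁) (hη : ‖η‖ < R) : ‖bcL M₀ (t, η) - t‖ ≤ C * ‖η‖ ^ 2 := by
  have h1 := H.quad _ (H.mem' ht) η hη
  have e1 : bcL M₀ (t, η) - t = M₀ (t - (⌊t.re⌋ : ℤ), η) - (t - (⌊t.re⌋ : ℤ)) := by
    show M₀ (t - (⌊t.re⌋ : ℤ), η) + (⌊t.re⌋ : ℤ) - t = _
    ring
  rw [e1]
  exact h1

private lemma BcP.diff {y₁ y R C : ℝ} {L₀ M₀ : ℂ × ℂ → ℂ} (H : BcP Y h y₁ y R C L₀ M₀)
    {t s η : ℂ} (ht : t ∈ St (-y₁) y₁) (hs : s ∈ St (-y₁) y₁) (hη : ‖η‖ < R) :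
    ‖bcL M₀ (s, η) - bcL M₀ (t, η) - (s - t)‖ ≤ C * ‖η‖ ^ 2 * ‖s - t‖ := by
  have hC := H.C_pos
  have hder : ∀ x ∈ St (-y₁) y₁, DifferentiableAt ℂ (fun x => bcL M₀ (x, η) - x) x ∧
      ‖deriv (fun x => bcL M₀ (x, η) - x) x‖ ≤ C * ‖η‖ ^ 2 := by
    intro x hx
    constructor
    · have h1 : AnalyticAt ℂ (fun x => bcL M₀ (x, η)) x :=
        AnalyticAt.fun_comp (g := bcL M₀) (f := fun x : ℂ => (x, η)) (H.an hx hη)
          (analyticAt_id.prod analyticAt_const)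
      exact h1.differentiableAt.sub differentiableAt_id
    · refine norm_deriv_le_of_lip' (by positivity) ?_
      have c1 : ∀ᶠ x' : ℂ in 𝓝 x, x' ∈ St (-y₁) y₁ := (isOpen_St _ _).mem_nhds hx
      have c3 : ∀ᶠ x' : ℂ in 𝓝 x, |x'.re - x.re| < 1 := by
        have h3 : ContinuousAt (fun x' : ℂ => |x'.re - x.re|) x := by fun_prop
        exact h3.eventually (gt_mem_nhds (by simp))
      filter_upwards [c1, c3] with x' hx' hx''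
      have h1 := H.lip _ (H.mem hx' hx''.le) _ (H.mem' hx) η hη
      have h2 := H.eq hη _ (H.mem hx' hx''.le)
      have h3 := H.eq hη _ (H.mem' hx)
      rw [h2, h3]
      have e1 : M₀ (x' - (⌊x.re⌋ : ℤ), η) + (⌊x.re⌋ : ℤ) - x' -
          (M₀ (x - (⌊x.re⌋ : ℤ), η) + (⌊x.re⌋ : ℤ) - x) =
          M₀ (x' - (⌊x.re⌋ : ℤ), η) - (x' - (⌊x.re⌋ : ℤ)) -
          (M₀ (x - (⌊x.re⌋ : ℤ), η) - (x - (⌊x.re⌋ : ℤ))) := by ring
      have e2 : x' - x = x' - (⌊x.re⌋ : ℤ) - (x - (⌊x.re⌋ : ℤ)) := by ring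
      rw [e1, e2]
      exact h1
  have h6 := (convex_St (-y₁) y₁).norm_image_sub_le_of_norm_deriv_le
    (f := fun x => bcL M₀ (x, η) - x) (fun x hx => (hder x hx).1) (fun x hx => (hder x hx).2) ht hs
  have e1 : bcL M₀ (s, η) - bcL M₀ (t, η) - (s - t) =
      bcL M₀ (s, η) - s - (bcL M₀ (t, η) - t) := by ring
  rw [e1]
  exact h6

private lemma BcP.node {y₁ y R C : ℝ} {L₀ M₀ : ℂ × ℂ → ℂ} (H : BcP Y h y₁ y R C L₀ M₀)
    {t η : ℂ} (ht : t ∈ St (-y₁) y₁) (hη : ‖η‖ < R) (h1 : t + η ∈ St (-y₁) y₁)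
    (h2 : t - η ∈ St (-y₁) y₁) :
    Y.node (bcL M₀ (t, η)) (bcL M₀ (t + η, η)) (bcL M₀ (t - η, η)) := by
  have htS : t ∈ St (-h) h := by
    rw [mem_St] at ht ⊢
    have h1 := H.y_lt
    have h2 := H.y_lth
    exact ⟨by linarith, by linarith⟩
  set w : ℝ := y₁ - |t.im| with hw
  have hw0 : 0 < w := by
    have := abs_lt.2 ⟨ht.1, ht.2⟩
    linarith
  set U : Set ℂ := ball 0 R ∩ St (-w) w with hU
  have hUc : Convex ℝ U := (convex_ball _ _).inter (convex_St _ _)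
  have hmem : ∀ ζ ∈ U, ‖ζ‖ < R ∧ t + ζ ∈ St (-y₁) y₁ ∧ t - ζ ∈ St (-y₁) y₁ := by
    rintro ζ ⟨hζ1, hζ2⟩
    rw [mem_St] at hζ2
    have h3 := le_abs_self t.im
    have h4 := neg_abs_le t.im
    refine ⟨mem_ball_zero_iff.1 hζ1, ?_, ?_⟩
    · rw [mem_St, add_im]
      exact ⟨by linarith, by linarith⟩
    · rw [mem_St, sub_im]
      exact ⟨by linarith, by linarith⟩
  have h0U : (0:ℂ) ∈ U := ⟨mem_ball_self H.R_pos, by simpa [mem_St] using hw0⟩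
  have hηU : η ∈ U := by
    refine ⟨mem_ball_zero_iff.2 hη, ?_⟩
    rw [mem_St, add_im] at h1
    rw [mem_St, sub_im] at h2
    rw [mem_St]
    rcases abs_cases t.im with ⟨h3, -⟩ | ⟨h3, -⟩
    · exact ⟨by linarith, by linarith⟩
    · exact ⟨by linarith, by linarith⟩
  have a0 : AnalyticOnNhd ℂ (fun ζ => bcL M₀ (t, ζ)) U := fun ζ hζ =>
    AnalyticAt.fun_comp (g := bcL M₀) (f := fun ζ : ℂ => (t, ζ)) (H.an ht (hmem ζ hζ).1)
      (analyticAt_const.prod analyticAt_id)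
  have a1 : AnalyticOnNhd ℂ (fun ζ => bcL M₀ (t + ζ, ζ)) U := fun ζ hζ =>
    AnalyticAt.fun_comp (g := bcL M₀) (f := fun ζ : ℂ => (t + ζ, ζ))
      (H.an (hmem ζ hζ).2.1 (hmem ζ hζ).1)
      ((analyticAt_const.add analyticAt_id).prod analyticAt_id)
  have a2 : AnalyticOnNhd ℂ (fun ζ => bcL M₀ (t - ζ, ζ)) U := fun ζ hζ =>
    AnalyticAt.fun_comp (g := bcL M₀) (f := fun ζ : ℂ => (t - ζ, ζ))
      (H.an (hmem ζ hζ).2.2 (hmem ζ hζ).1)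
      ((analyticAt_const.sub analyticAt_id).prod analyticAt_id)
  have hS := isOpen_St (-h) h
  have hon := H.lab.on
  have hEan : AnalyticOnNhd ℂ (fun ζ => Y.c (bcL M₀ (t + ζ, ζ)) (bcL M₀ (t, ζ)) *
      Y.s (bcL M₀ (t - ζ, ζ)) (bcL M₀ (t, ζ)) + Y.c (bcL M₀ (t - ζ, ζ)) (bcL M₀ (t, ζ)) *
      Y.s (bcL M₀ (t + ζ, ζ)) (bcL M₀ (t, ζ))) U := by
    intro ζ hζ
    obtain ⟨m1, m2, m3⟩ := hmem ζ hζ
    have m0 := H.mem_h ht m1
    have m2' := H.mem_h m2 m1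
    have m3' := H.mem_h m3 m1
    exact ((Sys.an_c hon hS (a1 ζ hζ) (a0 ζ hζ) m2' m0).fun_mul
      (Sys.an_s hon hS (a2 ζ hζ) (a0 ζ hζ) m3' m0)).fun_add
      ((Sys.an_c hon hS (a2 ζ hζ) (a0 ζ hζ) m3' m0).fun_mul
      (Sys.an_s hon hS (a1 ζ hζ) (a0 ζ hζ) m2' m0))
  have hev : (fun ζ => Y.c (bcL M₀ (t + ζ, ζ)) (bcL M₀ (t, ζ)) *
      Y.s (bcL M₀ (t - ζ, ζ)) (bcL M₀ (t, ζ)) + Y.c (bcL M₀ (t - ζ, ζ)) (bcL M₀ (t, ζ)) *
      Y.s (bcL M₀ (t + ζ, ζ)) (bcL M₀ (t, ζ))) =ᶠ[𝓝 0] 0 := by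
    have e1 := H.germ ht
    have e2 := H.lab.node t htS
    have c0 : Tendsto (fun ζ : ℂ => (t, ζ)) (𝓝 0) (𝓝 (t, 0)) :=
      (Continuous.prodMk_right t).tendsto 0
    have c1 : Tendsto (fun ζ : ℂ => (t + ζ, ζ)) (𝓝 0) (𝓝 (t, 0)) := by
      have : Continuous fun ζ : ℂ => (t + ζ, ζ) := by fun_prop
      simpa using this.tendsto 0
    have c2 : Tendsto (fun ζ : ℂ => (t - ζ, ζ)) (𝓝 0) (𝓝 (t, 0)) := by
      have : Continuous fun ζ : ℂ => (t - ζ, ζ) := by fun_prop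
      simpa using this.tendsto 0
    filter_upwards [c0.eventually e1, c1.eventually e1, c2.eventually e1, c0.eventually e2]
      with ζ h3 h4 h5 h6
    rw [h3, h4, h5]
    exact h6
  exact hEan.eqOn_zero_of_preconnected_of_eventuallyEq_zero hUc.isPreconnected h0U hev hηU

theorem exists_baseL (hE : ConE k F c h G) (hLU : LU (sl G 0) (St (-h) h))
    (hY : SysOf (sl G 0) Y (St (-h) h)) {y₁ : ℝ} (hy : 0 < y₁) (hy₁ : y₁ < h) :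
    ∃ R M : ℝ, ∃ L : ℂ × ℂ → ℂ, BaseL Y h y₁ R M L ∧ R ≤ c / 4 ∧
      ∀ p ∈ St (-y₁) y₁ ×ˢ ball (0:ℂ) R, |p.1.im| < c / 2 →
        |(L p).im| < c ∧ F (L p, 0) = F p := by
  have hc : 0 < c := hE.pos
  obtain ⟨L₀, hL, hG, hper⟩ := exists_lab_lu hE hLU hY
  obtain ⟨M₀, hM⟩ := MP_ae5b4e_an_NB2.exists_isExt h L₀
  have hy12 : y₁ < (y₁ + h) / 2 := by linarith
  have hy2h : (y₁ + h) / 2 < h := by linarith
  have hKcomp : IsCompact (bcK ((y₁ + h) / 2)) := isCompact_Icc.reProdIm isCompact_Icc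
  have hKconv : Convex ℝ (bcK ((y₁ + h) / 2)) :=
    ((convex_Icc _ _).is_linear_preimage (f := re) ⟨fun _ _ => rfl, by simp⟩).inter
      ((convex_Icc _ _).is_linear_preimage (f := im) ⟨fun _ _ => rfl, by simp⟩)
  obtain ⟨R₀, hR₀, C, hC, hreg, hquad, hlip, -⟩ :=
    MP_ae5b4e_an_NB2.deep hL hM hKcomp hKconv fun t ht => bcK_sub hy2h ht
  set R : ℝ := min (min R₀ 1) (min (c / 4) (c / (2 * (C + 1)))) with hR
  have hRR₀ : R ≤ R₀ := (min_le_left _ _).trans (min_le_left _ _)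
  have hR1 : R ≤ 1 := (min_le_left _ _).trans (min_le_right _ _)
  have hRc : R ≤ c / 4 := (min_le_right _ _).trans (min_le_left _ _)
  have hRC : R ≤ c / (2 * (C + 1)) := (min_le_right _ _).trans (min_le_right _ _)
  have hRpos : 0 < R := lt_min (lt_min hR₀ one_pos) (lt_min (by linarith) (by positivity))
  have H : BcP Y h y₁ ((y₁ + h) / 2) R C L₀ M₀ :=
    { lab := hL, ext := hM, per := hper, R_pos := hRpos, R_le := hR1, C_pos := hC, y_pos := hy,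
      y_lt := hy12, y_lth := hy2h, reg := fun t ht => (hreg t ht).mono hRR₀,
      quad := fun t ht η hη => hquad t ht η (hη.trans_le hRR₀),
      lip := fun t ht t' ht' η hη => hlip t ht t' ht' η (hη.trans_le hRR₀) }
  refine ⟨R, C, bcL M₀, ?_, hRc, ?_⟩
  · refine ⟨hRpos, hC, hy, hy₁, ?_, ?_, ?_, ?_, ?_⟩
    · rintro ⟨t, η⟩ ⟨ht, hη⟩
      exact H.an ht (mem_ball_zero_iff.1 hη)
    · rintro ⟨t, η⟩ ⟨ht, hη⟩
      exact abs_lt.2 (H.mem_h ht (mem_ball_zero_iff.1 hη))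
    · rintro ⟨t, η⟩ ⟨ht, hη⟩
      exact H.close ht (mem_ball_zero_iff.1 hη)
    · rintro ⟨t, η⟩ ⟨ht, hη⟩ s hs
      exact H.diff ht hs (mem_ball_zero_iff.1 hη)
    · rintro ⟨t, η⟩ ⟨ht, hη⟩ h1 h2
      exact H.node ht (mem_ball_zero_iff.1 hη) h1 h2
  · have hbd : ∀ t ∈ St (-y₁) y₁, |t.im| < c / 2 → ∀ ζ : ℂ, ‖ζ‖ < R →
        |(bcL M₀ (t, ζ)).im| < c := by
      intro t ht htc ζ hζ
      have h1 := H.close ht hζ
      have h2 := abs_im_le_norm (bcL M₀ (t, ζ) - t)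
      rw [sub_im] at h2
      have h3 : C * ‖ζ‖ ^ 2 < c / 2 := by
        have h4 : ‖ζ‖ ^ 2 ≤ ‖ζ‖ := by
          have := norm_nonneg ζ
          nlinarith
        have h5 : (C + 1) * R ≤ c / 2 := by
          rw [le_div_iff₀ (by positivity)] at hRC
          linarith
        have h6 : 0 < (C + 1) := by linarith
        nlinarith [norm_nonneg ζ, mul_le_mul_of_nonneg_left h4 hC.le,
          mul_lt_mul_of_pos_left hζ h6]
      have h7 := abs_lt.1 htc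
      have h8 := abs_le.1 (h2.trans (h1.trans h3.le))
      rw [abs_lt]
      constructor
      · linarith
      · linarith
    rintro ⟨t, η⟩ ⟨ht, hη⟩ htc
    have ht' : t ∈ St (-y₁) y₁ := ht
    have htc' : |t.im| < c / 2 := htc
    have hη' : ‖η‖ < R := mem_ball_zero_iff.1 hη
    refine ⟨hbd t ht' htc' η hη', ?_⟩
    have htc2 : |t.im| < c := by linarith
    have htS : t ∈ St (-h) h := by
      rw [mem_St] at ht' ⊢
      exact ⟨by linarith, by linarith⟩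
    have htSc : t ∈ St (-c) c := abs_lt.1 htc2
    have a1 : AnalyticOnNhd ℂ (fun ζ => F (bcL M₀ (t, ζ), 0)) (ball 0 R) := by
      intro ζ hζ
      have h1 := hbd t ht' htc' ζ (mem_ball_zero_iff.1 hζ)
      have h2 : AnalyticAt ℂ (fun ζ => bcL M₀ (t, ζ)) ζ :=
        AnalyticAt.fun_comp (g := bcL M₀) (f := fun ζ : ℂ => (t, ζ))
          (H.an ht' (mem_ball_zero_iff.1 hζ)) (analyticAt_const.prod analyticAt_id)
      exact AnalyticAt.fun_comp (g := F) (f := fun ζ : ℂ => (bcL M₀ (t, ζ), (0:ℂ)))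
        (hE.an _ ⟨abs_lt.1 h1, mem_ball_self hc⟩) (h2.prod analyticAt_const)
    have a2 : AnalyticOnNhd ℂ (fun ζ => F (t, ζ)) (ball 0 R) := by
      intro ζ hζ
      have h1 : ζ ∈ ball (0:ℂ) c := ball_subset_ball (by linarith) hζ
      exact AnalyticAt.fun_comp (g := F) (f := fun ζ : ℂ => (t, ζ)) (hE.an _ ⟨htSc, h1⟩)
        (analyticAt_const.prod analyticAt_id)
    have hLan : AnalyticAt ℂ L₀ (t, 0) := hL.an t htS
    have h3 : ∀ᶠ p in 𝓝 ((t, 0) : ℂ × ℂ), |(L₀ p).im| < c := by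
      have h4 : ContinuousAt (fun p => |(L₀ p).im|) (t, 0) :=
        (continuous_abs.comp continuous_im).continuousAt.comp hLan.continuousAt
      refine h4.eventually (gt_mem_nhds ?_)
      show |(L₀ (t, 0)).im| < c
      rw [hL.zero t htS]
      exact htc2
    have h5 : EqM F (fun p => F (L₀ p, 0)) (t, 0) := by
      have h6 : EqM G F (t, 0) := hE.eqG _ ⟨htSc, mem_ball_self (by linarith)⟩
      refine (h6.symm.trans (hG t htS)).trans (EqM.of_eventuallyEq ?_)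
      filter_upwards [h3] with p hp
      exact bc_slG hE hp
    have h7 : F =ᶠ[𝓝 (t, 0)] fun p => F (L₀ p, 0) := by
      refine h5.eventuallyEq (hE.an _ ⟨htSc, mem_ball_self hc⟩) ?_
      refine AnalyticAt.fun_comp (g := F) (f := fun p : ℂ × ℂ => (L₀ p, (0:ℂ))) ?_
        (hLan.prod analyticAt_const)
      refine hE.an _ ⟨?_, mem_ball_self hc⟩
      show L₀ (t, 0) ∈ St (-c) c
      rw [hL.zero t htS]
      exact htSc
    have h8 : (fun ζ => F (bcL M₀ (t, ζ), 0)) =ᶠ[𝓝 0] fun ζ => F (t, ζ) := by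
      have c0 : Tendsto (fun ζ : ℂ => (t, ζ)) (𝓝 0) (𝓝 (t, 0)) :=
        (Continuous.prodMk_right t).tendsto 0
      filter_upwards [c0.eventually (H.germ ht'), c0.eventually h7] with ζ h9 h10
      rw [h9]
      exact h10.symm
    exact a1.eqOn_of_preconnected_of_eventuallyEq a2 (convex_ball _ _).isPreconnected
      (mem_ball_self hRpos) h8 hη

end Pool.Agent.MP_ae5b4e_an_SV
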