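import Pool.Agent.Lib.MP_ae5b4e_an_SV.Pt
import Pool.Agent.Lib.MP_ae5b4e_an_LU.DUniq

/-!
# MP_ae5b4e_an, project SV: the climb
-/

noncomputable section

namespace Pool.Agent.MP_ae5b4e_an_SV

open Complex Set Filter Topology Metric
open Pool.Agent.MP_ae5b4e_an_NBT
open Pool.Agent.MP_ae5b4e_an_NB2 (Sys Uni)

variable {Y : Sys} {h d y₁ R M ys : ℝ} {L : ℂ × ℂ → ℂ}

/-- the label on the layers -/
structure Lay (Y : Sys) (h d y₁ ys r₁ M : ℝ) (L : ℂ × ℂ → ℂ) (k : ℕ) (L' : ℂ × ℂ → ℂ) :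
    Prop where
  an : AnalyticOnNhd ℂ L' (W h y₁ ys r₁ k)
  maps : ∀ p ∈ W h y₁ ys r₁ k, |(L' p).im| < h
  base : ∀ p : ℂ × ℂ, p.1.im < h - ys → L' p = L p
  bd : ∀ p ∈ W h y₁ ys r₁ k, 0 < p.1.im → 1.99 ≤ sd h p → Bd h ys M L' p
  nd : ∀ p ∈ W h y₁ ys r₁ k, h - ys ≤ p.1.im → L' p ∈ ball (bp h d (p.1 - p.2)) d ∧
    Y.node (L' (p.1 - p.2, p.2)) (L' p) (L' (p.1 - 2 * p.2, p.2))

/-- the smallness conditions on `r₁` -/
structure Small (h d y₁ ys R M r₁ : ℝ) : Prop where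
  pos : 0 < r₁
  le : 4 * r₁ ≤ R
  ys_le : 10 * r₁ ≤ ys
  m : 3 * M * r₁ ^ 2 ≤ 10⁻¹ ^ 4
  l : 2 * M * r₁ + 4 * M * r₁ * (ys + 2 * r₁) ≤ 10⁻¹ ^ 3
  y : 10 * r₁ ≤ h - ys
  y₁ : h - ys + 10 * r₁ ≤ y₁

private lemma cl_e4 : (10⁻¹ : ℝ) ^ 4 = 1 / 10000 := by norm_num

private lemma cl_e6 : (10⁻¹ : ℝ) ^ 6 = 1 / 1000000 := by norm_num

private lemma cl_e3 : (10⁻¹ : ℝ) ^ 3 = 1 / 1000 := by norm_num

private lemma cl_cone {r₁ : ℝ} {η : ℂ} (hη : η ∈ Cone r₁) :
    0 < η.im ∧ η.im < r₁ ∧ |η.re| ≤ 10⁻¹ ^ 4 * η.im ∧ ‖η‖ ≤ 1.0001 * η.im ∧ η ≠ 0 := by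
  obtain ⟨h1, h2, h3⟩ := hη
  refine ⟨h1, h2, h3.le, ?_, ?_⟩
  · have h4 := Complex.norm_le_abs_re_add_abs_im η
    rw [abs_of_pos h1] at h4
    rw [cl_e4] at h3
    norm_num
    linarith
  · rintro rfl
    simp at h1

/-- the bound for the position, from `Bd` -/
private lemma cl_bl {r₁ : ℝ} (hM : 0 < M) (hr : Small h d y₁ ys R M r₁) {L' : ℂ × ℂ → ℂ}
    {q : ℂ × ℂ} (hq : q.2 ∈ Cone r₁) (hD : q.1.im < h) {s₀ : ℝ} (hs₀ : 1 ≤ s₀)
    (hs : s₀ ≤ sd h q) (hb : Bd h ys M L' q) :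
    ‖L' q - q.1‖ ≤ (0.001 + 0.3 / (s₀ - 0.13)) * q.2.im := by
  obtain ⟨h1, h2, -, -, -⟩ := cl_cone hq
  have hr0 := hr.pos
  have hys := hr.ys_le
  have hl := hr.l
  rw [cl_e3] at hl
  refine hb.l.trans ?_
  have hmx : max 0 (ys + 2 * q.2.im - (h - q.1.im)) ≤ ys + 2 * r₁ := by
    refine max_le (by linarith) (by linarith)
  have hmx0 : 0 ≤ max 0 (ys + 2 * q.2.im - (h - q.1.im)) := le_max_left _ _
  have hsq : q.2.im ^ 2 ≤ r₁ * q.2.im := by nlinarith
  have h3 : 2 * M * q.2.im ^ 2 ≤ 2 * M * r₁ * q.2.im := by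
    calc 2 * M * q.2.im ^ 2 ≤ 2 * M * (r₁ * q.2.im) :=
          mul_le_mul_of_nonneg_left hsq (by positivity)
      _ = 2 * M * r₁ * q.2.im := by ring
  have h4 : 4 * M * q.2.im ^ 2 * max 0 (ys + 2 * q.2.im - (h - q.1.im)) ≤
      4 * M * r₁ * (ys + 2 * r₁) * q.2.im := by
    calc 4 * M * q.2.im ^ 2 * max 0 (ys + 2 * q.2.im - (h - q.1.im)) ≤
          4 * M * (r₁ * q.2.im) * (ys + 2 * r₁) := by
          gcongr
      _ = 4 * M * r₁ * (ys + 2 * r₁) * q.2.im := by ring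
  have h5 : 0.3 * q.2.im / (sd h q - 0.13) ≤ 0.3 / (s₀ - 0.13) * q.2.im := by
    have h6 : (0 : ℝ) < s₀ - 0.13 := by norm_num at hs₀ ⊢; linarith
    rw [div_mul_eq_mul_div]
    have h7 : (0 : ℝ) ≤ 0.3 * q.2.im := by positivity
    exact div_le_div_of_nonneg_left h7 h6 (by linarith)
  have h6 : (2 * M * r₁ + 4 * M * r₁ * (ys + 2 * r₁)) * q.2.im ≤ 1 / 1000 * q.2.im :=
    mul_le_mul_of_nonneg_right hl h1.le
  have h7 : (0.001 : ℝ) = 1 / 1000 := by norm_num
  rw [h7, add_mul]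
  linarith

/-- the bound for the step, from `Bd` -/
private lemma cl_bm {r₁ : ℝ} (hM : 0 < M) (hr : Small h d y₁ ys R M r₁) {η : ℂ}
    (hq : η ∈ Cone r₁) {s : ℝ} (hs : 1.99 ≤ s) :
    3 * M * η.im ^ 2 + 0.27 / (s + 0.37) ^ 2 ≤ 0.05 := by
  obtain ⟨h1, h2, -, -, -⟩ := cl_cone hq
  have hr0 := hr.pos
  have hm := hr.m
  rw [cl_e4] at hm
  have h3 : 3 * M * η.im ^ 2 ≤ 3 * M * r₁ ^ 2 := by
    have : η.im ^ 2 ≤ r₁ ^ 2 := pow_le_pow_left₀ h1.le h2.le 2
    exact mul_le_mul_of_nonneg_left this (by positivity)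
  have h4 : (5.5 : ℝ) ≤ (s + 0.37) ^ 2 := by
    norm_num at hs ⊢
    nlinarith
  have h5 : 0.27 / (s + 0.37) ^ 2 ≤ 0.27 / 5.5 :=
    div_le_div_of_nonneg_left (by norm_num) (by norm_num) h4
  have h6 : (0.27 : ℝ) / 5.5 ≤ 0.0492 := by norm_num
  have h7 : (0.05 : ℝ) = 0.0492 + 0.0008 := by norm_num
  have h8 : (1 / 10000 : ℝ) ≤ 0.0008 := by norm_num
  linarith

/-- points of the new layer, and slightly below -/
private structure NPt (h ys r₁ : ℝ) (k : ℕ) (p : ℂ × ℂ) : Prop where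
  cone : p.2 ∈ Cone r₁
  lo : h - ys - r₁ < p.1.im
  hi : p.1.im < h - ys + (k + 1) * p.2.im
  top : p.1.im < h - 0.99 * p.2.im

private lemma cl_sd {p : ℂ × ℂ} (hp : 0 < p.2.im) : sd h (p.1 - p.2, p.2) = sd h p + 1 := by
  unfold sd
  simp only [sub_im]
  field_simp
  ring

private lemma cl_mem {r₁ : ℝ} (hr : Small h d y₁ ys R M r₁) {k : ℕ} {p : ℂ × ℂ}
    (hp : NPt h ys r₁ k p) : (p.1 - p.2, p.2) ∈ W h y₁ ys r₁ k ∧
      (p.1 - 2 * p.2, p.2) ∈ W h y₁ ys r₁ k := by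
  obtain ⟨h1, h2, -, -, -⟩ := cl_cone hp.cone
  have hr0 := hr.pos
  have hy := hr.y
  have hy1 := hr.y₁
  have hlo := hp.lo
  have hhi := hp.hi
  have htop := hp.top
  have h2im : (2 * p.2).im = 2 * p.2.im := by simp
  refine ⟨⟨hp.cone, ?_, ?_, ?_⟩, ⟨hp.cone, ?_, ?_, ?_⟩⟩
  · show -y₁ < (p.1 - p.2).im
    rw [sub_im]
    linarith
  · show (p.1 - p.2).im < h - ys + k * p.2.im
    rw [sub_im]
    linarith
  · show (p.1 - p.2).im < h - 0.99 * p.2.im
    rw [sub_im]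
    linarith
  · show -y₁ < (p.1 - 2 * p.2).im
    rw [sub_im, h2im]
    linarith
  · show (p.1 - 2 * p.2).im < h - ys + k * p.2.im
    rw [sub_im, h2im]
    linarith
  · show (p.1 - 2 * p.2).im < h - 0.99 * p.2.im
    rw [sub_im, h2im]
    linarith

private lemma cl_facts (hys : ys = 10⁻¹ ^ 6 * d) (hM : 0 < M) {r₁ : ℝ}
    (hr : Small h d y₁ ys R M r₁) {k : ℕ} {L' : ℂ × ℂ → ℂ} (hL : Lay Y h d y₁ ys r₁ M L k L')
    {p : ℂ × ℂ} (hp : NPt h ys r₁ k p) :
    1.99 ≤ sd h (p.1 - p.2, p.2) ∧ Bd h ys M L' (p.1 - p.2, p.2) ∧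
      h - (p.1 - p.2).im ≤ 2 * 10⁻¹ ^ 6 * d ∧
      ‖p.2 / (L' (p.1 - p.2, p.2) - L' (p.1 - 2 * p.2, p.2)) - 1‖ ≤ 0.05 ∧
      ‖L' (p.1 - p.2, p.2) - (p.1 - p.2)‖ ≤ 0.165 * p.2.im := by
  obtain ⟨h1, h2, -, -, -⟩ := cl_cone hp.cone
  have hr0 := hr.pos
  have hy := hr.y
  have hysr := hr.ys_le
  have hlo := hp.lo
  have htop := hp.top
  have hs : 1.99 ≤ sd h (p.1 - p.2, p.2) := by
    rw [cl_sd h1]
    have h3 : 0.99 ≤ sd h p := by
      unfold sd
      rw [le_div_iff₀ h1]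
      linarith
    norm_num at h3 ⊢
    linarith
  have hb : Bd h ys M L' (p.1 - p.2, p.2) := by
    refine hL.bd _ (cl_mem hr hp).1 ?_ hs
    show 0 < (p.1 - p.2).im
    rw [sub_im]
    linarith
  refine ⟨hs, hb, ?_, ?_, ?_⟩
  · rw [sub_im, mul_assoc, ← hys]
    linarith
  · have h3 := hb.m
    have h4 : (p.1 - p.2 - p.2, p.2) = (p.1 - 2 * p.2, p.2) := by
      congr 1
      ring
    simp only [h4] at h3
    exact h3.trans (cl_bm hM hr hp.cone hs)
  · have hD : (p.1 - p.2, p.2).1.im < h := by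
      show (p.1 - p.2).im < h
      rw [sub_im]
      have : (0.99 : ℝ) * p.2.im > 0 := by positivity
      linarith
    have h3 := cl_bl (q := (p.1 - p.2, p.2)) hM hr hp.cone hD (by norm_num) hs hb
    refine h3.trans ?_
    exact mul_le_mul_of_nonneg_right (by norm_num) h1.le

private lemma cl_bp_im (t : ℂ) : (bp h d t).im = h - d := by
  simp [bp]

/-- existence in the shifted discs -/
private lemma cl_exists (hU : ∀ w : ℂ, w.im = h - d → Uni Y w d) (hys : ys = 10⁻¹ ^ 6 * d)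
    (hM : 0 < M) {r₁ : ℝ} (hr : Small h d y₁ ys R M r₁) {k : ℕ} {L' : ℂ × ℂ → ℂ}
    (hL : Lay Y h d y₁ ys r₁ M L k L') {p : ℂ × ℂ} (hp : NPt h ys r₁ k p) {x : ℝ}
    (hx : |x| ≤ 0.005 * p.2.im) :
    L' (p.1 - p.2, p.2) ∈ ball (bp h d (p.1 - p.2 + x)) d ∧
      L' (p.1 - 2 * p.2, p.2) ∈ ball (bp h d (p.1 - p.2 + x)) d ∧
      L' (p.1 - 2 * p.2, p.2) ≠ L' (p.1 - p.2, p.2) ∧
      ∃ u ∈ ball (bp h d (p.1 - p.2 + x)) d,
        Y.node (L' (p.1 - p.2, p.2)) u (L' (p.1 - 2 * p.2, p.2)) := by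
  obtain ⟨hs, hb, hdep, hm, hl⟩ := cl_facts hys hM hr hL hp
  obtain ⟨h1, h2, h3, -, -⟩ := cl_cone hp.cone
  have him : (p.1 - p.2 + (x : ℂ)).im = (p.1 - p.2).im := by simp
  obtain ⟨a1, a2, a3, u, hu, hn, -⟩ := pt_step (p := (p.1 - p.2 + (x : ℂ), p.2))
    (l := L' (p.1 - p.2, p.2)) (v := L' (p.1 - 2 * p.2, p.2))
    (hU _ (cl_bp_im _)) h1 h3 (by
      unfold sd at hs ⊢
      simp only [him]
      exact hs) (by
      simp only [him]
      exact hdep) hm (by
      show ‖L' (p.1 - p.2, p.2) - (p.1 - p.2 + (x : ℂ))‖ ≤ 0.17 * p.2.im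
      have h4 : L' (p.1 - p.2, p.2) - (p.1 - p.2 + (x : ℂ)) =
          (L' (p.1 - p.2, p.2) - (p.1 - p.2)) - x := by ring
      rw [h4]
      refine (norm_sub_le _ _).trans ?_
      rw [Complex.norm_real, Real.norm_eq_abs]
      norm_num at hl hx ⊢
      linarith)
  exact ⟨a1, a2, a3, u, hu, hn⟩

/-- the solution in the disc is in the shifted discs -/
private lemma cl_shift (hU : ∀ w : ℂ, w.im = h - d → Uni Y w d) (hys : ys = 10⁻¹ ^ 6 * d)
    (hM : 0 < M) {r₁ : ℝ} (hr : Small h d y₁ ys R M r₁) {k : ℕ} {L' : ℂ × ℂ → ℂ}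
    (hL : Lay Y h d y₁ ys r₁ M L k L') {p : ℂ × ℂ} (hp : NPt h ys r₁ k p) {u₀ : ℂ}
    (hu₀ : u₀ ∈ ball (bp h d (p.1 - p.2)) d)
    (hn₀ : Y.node (L' (p.1 - p.2, p.2)) u₀ (L' (p.1 - 2 * p.2, p.2))) {x : ℝ}
    (hx : |x| ≤ 0.005 * p.2.im) : u₀ ∈ ball (bp h d (p.1 - p.2 + x)) d := by
  have hcont : Continuous (fun x : ℝ => bp h d (p.1 - p.2 + (x : ℂ))) := by
    unfold bp
    fun_prop
  have hopen : ∀ z : ℂ, IsOpen {x : ℝ | z ∈ ball (bp h d (p.1 - p.2 + (x : ℂ))) d} := by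
    intro z
    have h1 : {x : ℝ | z ∈ ball (bp h d (p.1 - p.2 + (x : ℂ))) d} =
        {x : ℝ | dist z (bp h d (p.1 - p.2 + (x : ℂ))) < d} := rfl
    rw [h1]
    exact isOpen_lt (continuous_const.dist hcont) continuous_const
  obtain ⟨h1, -, -, -, -⟩ := cl_cone hp.cone
  have hpre : IsPreconnected (Icc (-(0.005 * p.2.im)) (0.005 * p.2.im)) := isPreconnected_Icc
  have hsub : Icc (-(0.005 * p.2.im)) (0.005 * p.2.im) ⊆
      {x : ℝ | u₀ ∈ ball (bp h d (p.1 - p.2 + (x : ℂ))) d} := by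
    refine hpre.subset_of_closure_inter_subset (hopen u₀) ⟨0, ?_, ?_⟩ ?_
    · have : 0 ≤ 0.005 * p.2.im := by positivity
      exact ⟨by linarith, this⟩
    · show u₀ ∈ ball (bp h d (p.1 - p.2 + ((0 : ℝ) : ℂ))) d
      rw [ofReal_zero, add_zero]
      exact hu₀
    · rintro y ⟨hy1, hy2⟩
      obtain ⟨a1, a2, a3, u, hu, hn⟩ := cl_exists hU hys hM hr hL hp (abs_le.2 ⟨hy2.1, hy2.2⟩)
      have hnb : ∀ᶠ y' in 𝓝 y, L' (p.1 - p.2, p.2) ∈ ball (bp h d (p.1 - p.2 + (y' : ℝ))) d ∧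
          L' (p.1 - 2 * p.2, p.2) ∈ ball (bp h d (p.1 - p.2 + (y' : ℝ))) d ∧
          u ∈ ball (bp h d (p.1 - p.2 + (y' : ℝ))) d := by
        filter_upwards [(hopen _).mem_nhds a1, (hopen _).mem_nhds a2, (hopen _).mem_nhds hu]
          with y' b1 b2 b3 using ⟨b1, b2, b3⟩
      obtain ⟨y', hy'1, hy'2, hy'3, hy'4⟩ :=
        ((mem_closure_iff_frequently.1 hy1).and_eventually hnb).exists
      have h2 : u₀ = u := Pool.Agent.MP_ae5b4e_an_NB2.node_uniq (hU _ (cl_bp_im _)) hy'2 hy'1 hy'4 hy'3 a3 hn₀ hn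
      show u₀ ∈ ball (bp h d (p.1 - p.2 + (y : ℂ))) d
      rw [h2]
      exact hu
  exact hsub (abs_le.1 hx)

theorem lay_zero (hd : 0 < d) (hdh : d ≤ h) (hys : ys = 10⁻¹ ^ 6 * d) (hB : BaseL Y h y₁ R M L)
    {r₁ : ℝ} (hr : Small h d y₁ ys R M r₁) : Lay Y h d y₁ ys r₁ M L 0 L := by
  have hr0 := hr.pos
  have hle := hr.le
  have hysr := hr.ys_le
  have hy := hr.y
  have hy1 := hr.y₁
  have hm := hr.m
  rw [cl_e4] at hm
  have hM := hB.M_pos
  have hsub : ∀ p ∈ W h y₁ ys r₁ 0, p ∈ St (-y₁) y₁ ×ˢ ball (0:ℂ) R := by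
    rintro p ⟨h1, h2, h3, -⟩
    obtain ⟨c1, c2, c3, c4, -⟩ := cl_cone h1
    rw [Nat.cast_zero, zero_mul, add_zero] at h3
    refine ⟨⟨h2, by linarith⟩, ?_⟩
    rw [mem_ball_zero_iff]
    norm_num at c4
    linarith
  refine ⟨hB.an.mono hsub, fun p hp => hB.maps p (hsub p hp), fun p _ => rfl, ?_, ?_⟩
  · intro p hp hp0 hs
    have hpS := hsub p hp
    obtain ⟨h1, h2, h3, h4⟩ := hp
    obtain ⟨c1, c2, c3, c4, c5⟩ := cl_cone h1
    have hs' : p.1 - p.2 ∈ St (-y₁) y₁ := by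
      refine ⟨?_, ?_⟩
      · rw [sub_im]
        linarith
      · rw [sub_im]
        linarith [hpS.1.2]
    have hdiff := hB.diff p hpS (p.1 - p.2) hs'
    have e1 : p.1 - p.2 - p.1 = -p.2 := by ring
    rw [e1, norm_neg] at hdiff
    have hη0 : 0 < ‖p.2‖ := norm_pos_iff.2 c5
    have hη2 : ‖p.2‖ ^ 2 ≤ 1.001 * p.2.im ^ 2 := by
      have h5 : ‖p.2‖ ^ 2 ≤ (1.0001 * p.2.im) ^ 2 := pow_le_pow_left₀ hη0.le c4 2
      refine h5.trans ?_
      rw [mul_pow]
      exact mul_le_mul_of_nonneg_right (by norm_num) (by positivity)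
    have him2 : p.2.im ^ 2 ≤ r₁ ^ 2 := pow_le_pow_left₀ c1.le c2.le 2
    have hMη : M * ‖p.2‖ ^ 2 ≤ 1 / 20000 := by
      have h5 : M * ‖p.2‖ ^ 2 ≤ M * (1.001 * r₁ ^ 2) := by
        refine mul_le_mul_of_nonneg_left ?_ hM.le
        refine hη2.trans ?_
        exact mul_le_mul_of_nonneg_left him2 (by norm_num)
      norm_num at h5 hm ⊢
      linarith
    have hd1 : ‖(L p - L (p.1 - p.2, p.2)) - p.2‖ ≤ M * ‖p.2‖ ^ 2 * ‖p.2‖ := by
      have h5 : (L p - L (p.1 - p.2, p.2)) - p.2 = -(L (p.1 - p.2, p.2) - L p - -p.2) := by ring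
      rw [h5, norm_neg]
      exact hdiff
    have hΔn : (1 - 1 / 20000) * ‖p.2‖ ≤ ‖L p - L (p.1 - p.2, p.2)‖ := by
      have h5 : ‖p.2‖ ≤ ‖L p - L (p.1 - p.2, p.2)‖ + ‖(L p - L (p.1 - p.2, p.2)) - p.2‖ := by
        have h6 := norm_sub_le (L p - L (p.1 - p.2, p.2)) ((L p - L (p.1 - p.2, p.2)) - p.2)
        rwa [sub_sub_cancel] at h6
      have h6 : M * ‖p.2‖ ^ 2 * ‖p.2‖ ≤ 1 / 20000 * ‖p.2‖ :=
        mul_le_mul_of_nonneg_right hMη hη0.le
      linarith
    have hΔ0 : 0 < ‖L p - L (p.1 - p.2, p.2)‖ := lt_of_lt_of_le (by positivity) hΔn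
    have hMim : 0 ≤ M * p.2.im ^ 2 := by positivity
    have h13 : (1.99 : ℝ) ≤ sd h p := hs
    constructor
    · have h5 : p.2 / (L p - L (p.1 - p.2, p.2)) - 1 =
          -((L p - L (p.1 - p.2, p.2)) - p.2) / (L p - L (p.1 - p.2, p.2)) := by
        have h6 : L p - L (p.1 - p.2, p.2) ≠ 0 := norm_pos_iff.1 hΔ0
        field_simp
        ring
      have h7 : ‖p.2 / (L p - L (p.1 - p.2, p.2)) - 1‖ ≤ 3 * M * p.2.im ^ 2 := by
        rw [h5, norm_div, norm_neg, div_le_iff₀ hΔ0]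
        refine hd1.trans ?_
        have h8 : M * ‖p.2‖ ^ 2 ≤ 1.001 * (M * p.2.im ^ 2) := by
          calc M * ‖p.2‖ ^ 2 ≤ M * (1.001 * p.2.im ^ 2) :=
                mul_le_mul_of_nonneg_left hη2 hM.le
            _ = 1.001 * (M * p.2.im ^ 2) := by ring
        calc M * ‖p.2‖ ^ 2 * ‖p.2‖ ≤ 1.001 * (M * p.2.im ^ 2) * ‖p.2‖ :=
              mul_le_mul_of_nonneg_right h8 hη0.le
          _ ≤ 3 * M * p.2.im ^ 2 * ((1 - 1 / 20000) * ‖p.2‖) := by
              have h9 : 0 ≤ M * p.2.im ^ 2 * ‖p.2‖ := by positivity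
              norm_num
              linarith
          _ ≤ 3 * M * p.2.im ^ 2 * ‖L p - L (p.1 - p.2, p.2)‖ :=
              mul_le_mul_of_nonneg_left hΔn (by positivity)
      have h8 : 0 ≤ 0.27 / (sd h p + 0.37) ^ 2 := by positivity
      linarith
    · have h5 := hB.close p hpS
      have h6 : M * ‖p.2‖ ^ 2 ≤ 2 * M * p.2.im ^ 2 := by
        calc M * ‖p.2‖ ^ 2 ≤ M * (1.001 * p.2.im ^ 2) := mul_le_mul_of_nonneg_left hη2 hM.le
          _ ≤ M * (2 * p.2.im ^ 2) := by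
              refine mul_le_mul_of_nonneg_left ?_ hM.le
              exact mul_le_mul_of_nonneg_right (by norm_num) (by positivity)
          _ = 2 * M * p.2.im ^ 2 := by ring
      have h7 : 0 ≤ 4 * M * p.2.im ^ 2 * max 0 (ys + 2 * p.2.im - (h - p.1.im)) :=
        mul_nonneg (by positivity) (le_max_left _ _)
      have h8 : 0 ≤ 0.3 * p.2.im / (sd h p - 0.13) := by
        refine div_nonneg (by positivity) ?_
        norm_num at h13 ⊢
        linarith
      linarith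
  · intro p hp hlo
    exfalso
    have h3 := hp.2.2.1
    rw [Nat.cast_zero, zero_mul, add_zero] at h3
    linarith

theorem lay_succ (hd : 0 < d) (hdh : d ≤ h) (hY : Y.On (St (-h) h))
    (hU : ∀ w : ℂ, w.im = h - d → Uni Y w d) (hys : ys = 10⁻¹ ^ 6 * d) (hB : BaseL Y h y₁ R M L)
    {r₁ : ℝ} (hr : Small h d y₁ ys R M r₁) {k : ℕ} {L' : ℂ × ℂ → ℂ}
    (hL : Lay Y h d y₁ ys r₁ M L k L') : ∃ L'' : ℂ × ℂ → ℂ, Lay Y h d y₁ ys r₁ M L (k + 1) L'' := by
  classical
  have hM := hB.M_pos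
  have hr0 := hr.pos
  have hle := hr.le
  have hysr := hr.ys_le
  have hy := hr.y
  have hy1 := hr.y₁
  have hml := hr.l
  rw [cl_e3] at hml
  have hys0 : 0 < ys := by linarith
  have hysd : ys ≤ 10⁻¹ ^ 6 * d := hys.le
  rw [cl_e6] at hysd
  -- the root
  have hPex : ∀ p, NPt h ys r₁ k p → ∃ u, u ∈ ball (bp h d (p.1 - p.2)) d ∧
      Y.node (L' (p.1 - p.2, p.2)) u (L' (p.1 - 2 * p.2, p.2)) := by
    intro p hp
    obtain ⟨c1, -, -, -, -⟩ := cl_cone hp.cone
    obtain ⟨a1, a2, a3, u, hu, hn⟩ := cl_exists hU hys hM hr hL hp (x := 0) (by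
      rw [abs_zero]
      positivity)
    rw [ofReal_zero, add_zero] at hu
    exact ⟨u, hu, hn⟩
  choose! root hroot using hPex
  let L'' : ℂ × ℂ → ℂ := fun p => if p ∈ W h y₁ ys r₁ k ∨ p.1.im < h - ys then L' p else root p
  have hLW : ∀ p, p ∈ W h y₁ ys r₁ k → L'' p = L' p := fun p hp => if_pos (Or.inl hp)
  have hLb : ∀ p : ℂ × ℂ, p.1.im < h - ys → L'' p = L' p := fun p hp => if_pos (Or.inr hp)
  have hsubW : ∀ p ∈ W h y₁ ys r₁ (k + 1), p.1.im < h - ys → p ∈ W h y₁ ys r₁ k := by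
    rintro p ⟨h1, h2, h3, h4⟩ hlo
    obtain ⟨c1, -, -, -, -⟩ := cl_cone h1
    have : 0 ≤ (k : ℝ) * p.2.im := by positivity
    exact ⟨h1, h2, by linarith, h4⟩
  have hN : ∀ p ∈ W h y₁ ys r₁ (k + 1), h - ys ≤ p.1.im → NPt h ys r₁ k p := by
    rintro p ⟨h1, h2, h3, h4⟩ hlo
    push_cast at h3
    exact ⟨h1, by linarith, h3, h4⟩
  have key : ∀ p, NPt h ys r₁ k p → L'' p ∈ ball (bp h d (p.1 - p.2)) d ∧
      Y.node (L' (p.1 - p.2, p.2)) (L'' p) (L' (p.1 - 2 * p.2, p.2)) := by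
    intro p hp
    obtain ⟨c1, c2, c3, c4, c5⟩ := cl_cone hp.cone
    have hplo := hp.lo
    by_cases hlo : h - ys ≤ p.1.im
    · by_cases hW : p ∈ W h y₁ ys r₁ k
      · rw [hLW p hW]
        exact hL.nd p hW hlo
      · have h1 : L'' p = root p := if_neg (by
          rintro (h2 | h2)
          · exact hW h2
          · linarith)
        rw [h1]
        exact hroot p hp
    · rw [not_le] at hlo
      have h2im : (2 * p.2).im = 2 * p.2.im := by simp
      have hq1 : (p.1 - p.2, p.2) ∈ St (-y₁) y₁ ×ˢ ball (0:ℂ) R := by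
        refine ⟨⟨?_, ?_⟩, ?_⟩
        · show -y₁ < (p.1 - p.2).im
          rw [sub_im]
          linarith
        · show (p.1 - p.2).im < y₁
          rw [sub_im]
          linarith
        · rw [mem_ball_zero_iff]
          norm_num at c4
          show ‖p.2‖ < R
          linarith
      have hpp : p ∈ St (-y₁) y₁ ×ˢ ball (0:ℂ) R := by
        refine ⟨⟨?_, ?_⟩, hq1.2⟩
        · linarith
        · linarith
      have hq2 : p.1 - p.2 - p.2 ∈ St (-y₁) y₁ := by
        refine ⟨?_, ?_⟩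
        · rw [sub_im, sub_im]
          linarith
        · rw [sub_im, sub_im]
          linarith
      have e1 : L'' p = L p := (hLb p hlo).trans (hL.base p hlo)
      have e2 : L' (p.1 - p.2, p.2) = L (p.1 - p.2, p.2) := hL.base _ (by
        show (p.1 - p.2).im < h - ys
        rw [sub_im]
        linarith)
      have e3 : L' (p.1 - 2 * p.2, p.2) = L (p.1 - 2 * p.2, p.2) := hL.base _ (by
        show (p.1 - 2 * p.2).im < h - ys
        rw [sub_im, h2im]
        linarith)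
      rw [e1, e2, e3]
      constructor
      · rw [mem_ball, dist_eq_norm]
        have h1 := hB.close p hpp
        have h3 : L p - bp h d (p.1 - p.2) = (L p - p.1) + ((p.2.re : ℂ) +
            ((d - (h - p.1.im) : ℝ) : ℂ) * I) := by
          have h4 : p.1 = (p.1.re : ℂ) + (p.1.im : ℂ) * I := (re_add_im p.1).symm
          unfold bp
          rw [sub_re]
          push_cast
          linear_combination (1 : ℂ) * h4
        have h5 : ‖(p.2.re : ℂ) + ((d - (h - p.1.im) : ℝ) : ℂ) * I‖ ≤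
            |p.2.re| + |d - (h - p.1.im)| := by
          refine (norm_add_le _ _).trans ?_
          rw [norm_mul, norm_I, mul_one, Complex.norm_real, Complex.norm_real, Real.norm_eq_abs,
            Real.norm_eq_abs]
        have h6 : |d - (h - p.1.im)| = d - (h - p.1.im) := by
          refine abs_of_pos ?_
          have : ys + r₁ < d := by linarith
          linarith
        have h7 : ‖p.2‖ ^ 2 ≤ 1.001 * r₁ ^ 2 := by
          have h8 : ‖p.2‖ ^ 2 ≤ (1.0001 * p.2.im) ^ 2 := pow_le_pow_left₀ (norm_nonneg _) c4 2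
          have h9 : p.2.im ^ 2 ≤ r₁ ^ 2 := pow_le_pow_left₀ c1.le c2.le 2
          refine h8.trans ?_
          rw [mul_pow]
          have h10 : (0 : ℝ) ≤ r₁ ^ 2 := by positivity
          norm_num
          linarith
        have h8 : M * ‖p.2‖ ^ 2 ≤ r₁ := by
          have h9 : M * ‖p.2‖ ^ 2 ≤ M * (1.001 * r₁ ^ 2) := mul_le_mul_of_nonneg_left h7 hM.le
          have h10 : 0 ≤ 4 * M * r₁ * (ys + 2 * r₁) := by positivity
          have h11 : 2 * M * r₁ ≤ 1 / 1000 := by linarith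
          have h12 : M * (1.001 * r₁ ^ 2) = 1.001 / 2 * (2 * M * r₁) * r₁ := by ring
          have h13 : 1.001 / 2 * (2 * M * r₁) * r₁ ≤ 1 * r₁ := by
            refine mul_le_mul_of_nonneg_right ?_ hr0.le
            norm_num
            linarith
          linarith
        rw [cl_e4] at c3
        rw [h3]
        refine (norm_add_le _ _).trans_lt ?_
        linarith
      · have h1 := hB.node (p.1 - p.2, p.2) hq1 (by
          show p.1 - p.2 + p.2 ∈ _
          rw [sub_add_cancel]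
          exact hpp.1) hq2
        have h3 : ((p.1 - p.2, p.2).1 + (p.1 - p.2, p.2).2, (p.1 - p.2, p.2).2) = p := by
          show (p.1 - p.2 + p.2, p.2) = p
          rw [sub_add_cancel]
        have h4 : ((p.1 - p.2, p.2).1 - (p.1 - p.2, p.2).2, (p.1 - p.2, p.2).2) =
            (p.1 - 2 * p.2, p.2) := by
          show (p.1 - p.2 - p.2, p.2) = (p.1 - 2 * p.2, p.2)
          congr 1
          ring
        rw [h3, h4] at h1
        exact h1
  refine ⟨L'', ?_, ?_, ?_, ?_, ?_⟩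
  · intro p₀ hp₀
    by_cases hlo : p₀.1.im < h - ys
    · have hW0 : p₀ ∈ St (-y₁) y₁ ×ˢ ball (0:ℂ) R := by
        obtain ⟨c1, c2, c3, c4, -⟩ := cl_cone hp₀.1
        refine ⟨⟨hp₀.2.1, by linarith⟩, ?_⟩
        rw [mem_ball_zero_iff]
        norm_num at c4
        linarith
      refine (hB.an p₀ hW0).congr ?_
      have ho : IsOpen {p : ℂ × ℂ | p.1.im < h - ys} :=
        isOpen_lt (continuous_im.comp continuous_fst) continuous_const
      filter_upwards [ho.mem_nhds hlo] with p hp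
      exact ((hLb p hp).trans (hL.base p hp)).symm
    · rw [not_lt] at hlo
      have hN0 := hN p₀ hp₀ hlo
      obtain ⟨c1, -, -, -, -⟩ := cl_cone hN0.cone
      set O : Set (ℂ × ℂ) := {p | NPt h ys r₁ k p ∧
        |(p₀.1 - p₀.2).re - (p.1 - p.2).re| < 0.005 * p.2.im} with hOdef
      have hO : IsOpen O := by
        have h1 : O = {p : ℂ × ℂ | (0 < p.2.im ∧ p.2.im < r₁ ∧ |p.2.re| < 10⁻¹ ^ 4 * p.2.im) ∧
            h - ys - r₁ < p.1.im ∧ p.1.im < h - ys + (k + 1) * p.2.im ∧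
            p.1.im < h - 0.99 * p.2.im ∧
            |(p₀.1 - p₀.2).re - (p.1 - p.2).re| < 0.005 * p.2.im} := by
          ext p
          constructor
          · rintro ⟨⟨a1, a2, a3, a4⟩, a5⟩
            exact ⟨a1, a2, a3, a4, a5⟩
          · rintro ⟨a1, a2, a3, a4, a5⟩
            exact ⟨⟨a1, a2, a3, a4⟩, a5⟩
        rw [h1]
        have i1 : Continuous (fun p : ℂ × ℂ => p.1.im) := by fun_prop
        have i2 : Continuous (fun p : ℂ × ℂ => p.2.im) := by fun_prop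
        have i3 : Continuous (fun p : ℂ × ℂ => |p.2.re|) := by fun_prop
        have i4 : Continuous (fun p : ℂ × ℂ => |(p₀.1 - p₀.2).re - (p.1 - p.2).re|) := by
          fun_prop
        refine IsOpen.and (IsOpen.and (isOpen_lt continuous_const i2)
          (IsOpen.and (isOpen_lt i2 continuous_const)
          (isOpen_lt i3 (continuous_const.mul i2)))) ?_
        refine IsOpen.and (isOpen_lt continuous_const i1) ?_
        refine IsOpen.and (isOpen_lt i1 (continuous_const.add (continuous_const.mul i2))) ?_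
        refine IsOpen.and (isOpen_lt i1 (continuous_const.sub (continuous_const.mul i2))) ?_
        exact isOpen_lt i4 (continuous_const.mul i2)
      have hp₀O : p₀ ∈ O := by
        refine ⟨hN0, ?_⟩
        rw [sub_self, abs_zero]
        positivity
      have hx : ∀ p ∈ O, |((p₀.1 - p₀.2).re - (p.1 - p.2).re)| ≤ 0.005 * p.2.im :=
        fun p hp => hp.2.le
      have hbp : ∀ p : ℂ × ℂ, bp h d (p.1 - p.2 +
          (((p₀.1 - p₀.2).re - (p.1 - p.2).re : ℝ) : ℂ)) = bp h d (p₀.1 - p₀.2) := by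
        intro p
        unfold bp
        rw [add_re, ofReal_re, add_sub_cancel]
      have han1 : AnalyticOnNhd ℂ (fun p : ℂ × ℂ => L' (p.1 - p.2, p.2)) O := by
        intro p hp
        have h1 : AnalyticAt ℂ (fun p : ℂ × ℂ => (p.1 - p.2, p.2)) p :=
          (analyticAt_fst.fun_sub analyticAt_snd).prod analyticAt_snd
        exact AnalyticAt.fun_comp (g := L') (f := fun p : ℂ × ℂ => (p.1 - p.2, p.2))
          (hL.an _ (cl_mem hr hp.1).1) h1
      have han2 : AnalyticOnNhd ℂ (fun p : ℂ × ℂ => L' (p.1 - 2 * p.2, p.2)) O := by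
        intro p hp
        have h1 : AnalyticAt ℂ (fun p : ℂ × ℂ => (p.1 - 2 * p.2, p.2)) p :=
          (analyticAt_fst.fun_sub (analyticAt_const.fun_mul analyticAt_snd)).prod analyticAt_snd
        exact AnalyticAt.fun_comp (g := L') (f := fun p : ℂ × ℂ => (p.1 - 2 * p.2, p.2))
          (hL.an _ (cl_mem hr hp.1).2) h1
      refine Pool.Agent.MP_ae5b4e_an_NB2.node_analytic (hU _ (cl_bp_im (p₀.1 - p₀.2))) hO han1
        han2 ?_ ?_ ?_ ?_ ?_ p₀ hp₀O
      · intro p hp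
        have h1 := (cl_exists hU hys hM hr hL hp.1 (hx p hp)).1
        rw [hbp] at h1
        exact h1
      · intro p hp
        have h1 := (cl_exists hU hys hM hr hL hp.1 (hx p hp)).2.1
        rw [hbp] at h1
        exact h1
      · intro p hp
        have h2 := key p hp.1
        have h1 := cl_shift hU hys hM hr hL hp.1 h2.1 h2.2 (hx p hp)
        rw [hbp] at h1
        exact h1
      · intro p hp
        exact (cl_exists hU hys hM hr hL hp.1 (hx p hp)).2.2.1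
      · intro p hp
        exact (key p hp.1).2
  · intro p hp
    by_cases hlo : p.1.im < h - ys
    · have h1 := hsubW p hp hlo
      rw [hLW p h1]
      exact hL.maps p h1
    · rw [not_lt] at hlo
      have h1 := (key p (hN p hp hlo)).1
      rw [mem_ball, dist_eq_norm] at h1
      have h2 := (abs_im_le_norm (L'' p - bp h d (p.1 - p.2))).trans_lt h1
      rw [sub_im, cl_bp_im, abs_lt] at h2
      rw [abs_lt]
      constructor <;> linarith
  · intro p hp
    exact (hLb p hp).trans (hL.base p hp)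
  · intro p hp hp0 hs
    obtain ⟨c1, c2, c3, c4, c5⟩ := cl_cone hp.1
    by_cases hW : p ∈ W h y₁ ys r₁ k
    · have h1 := hL.bd p hW hp0 hs
      have h2 : (p.1 - p.2, p.2) ∈ W h y₁ ys r₁ k := by
        obtain ⟨a1, a2, a3, a4⟩ := hW
        refine ⟨a1, ?_, ?_, ?_⟩
        · show -y₁ < (p.1 - p.2).im
          rw [sub_im]
          linarith
        · show (p.1 - p.2).im < h - ys + k * p.2.im
          rw [sub_im]
          linarith
        · show (p.1 - p.2).im < h - 0.99 * p.2.im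
          rw [sub_im]
          linarith
      constructor
      · rw [hLW p hW, hLW _ h2]
        exact h1.m
      · rw [hLW p hW]
        exact h1.l
    · have hlo : h - ys ≤ p.1.im := by
        by_contra hcon
        rw [not_le] at hcon
        exact hW (hsubW p hp hcon)
      have hNp := hN p hp hlo
      obtain ⟨hs1, hb, hdep, hm, hl⟩ := cl_facts hys hM hr hL hNp
      obtain ⟨hq1, hq2⟩ := cl_mem hr hNp
      have hsd := cl_sd (h := h) (p := p) c1
      have hs3 : 2.99 ≤ sd h (p.1 - p.2, p.2) := by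
        rw [hsd]
        norm_num at hs ⊢
        linarith
      have hqh : (p.1 - p.2).im < h := by
        have h3 := hNp.top
        rw [sub_im]
        have : (0.99 : ℝ) * p.2.im > 0 := by positivity
        linarith
      have hl13 : ‖L' (p.1 - p.2, p.2) - (p.1 - p.2)‖ ≤ 0.13 * p.2.im := by
        have h3 := cl_bl (q := (p.1 - p.2, p.2)) hM hr hNp.cone hqh (by norm_num) hs3 hb
        refine h3.trans ?_
        exact mul_le_mul_of_nonneg_right (by norm_num) c1.le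
      obtain ⟨a1, a2, a3, u, hu, hn, hdiff⟩ := pt_step (p := (p.1 - p.2, p.2))
        (l := L' (p.1 - p.2, p.2)) (v := L' (p.1 - 2 * p.2, p.2)) (hU _ (cl_bp_im _)) c1 c3 hs1
        hdep hm (by
          show ‖L' (p.1 - p.2, p.2) - (p.1 - p.2)‖ ≤ 0.17 * p.2.im
          refine hl.trans ?_
          exact mul_le_mul_of_nonneg_right (by norm_num) c1.le)
      have hkey := key p hNp
      have hue : L'' p = u := Pool.Agent.MP_ae5b4e_an_NB2.node_uniq (hU _ (cl_bp_im _)) a1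
        hkey.1 hu a2 a3 hkey.2 hn
      have hd2 : ‖p.2 / (u - L' (p.1 - p.2, p.2)) -
          p.2 / (L' (p.1 - p.2, p.2) - L' (p.1 - 2 * p.2, p.2))‖ ≤
          0.52 / (sd h p + 1 - 0.13) ^ 3 := by
        have h3 := hdiff hs3 hl13
        rw [hsd] at h3
        exact h3
      have hm0 := hb.m
      have h4 : (p.1 - p.2 - p.2, p.2) = (p.1 - 2 * p.2, p.2) := by
        congr 1
        ring
      simp only [h4, hsd] at hm0
      have hmu := pt_mu (s := sd h p + 1) (by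
        norm_num at hs ⊢
        linarith)
      rw [add_sub_cancel_right] at hmu
      have hmfin : ‖p.2 / (L'' p - L'' (p.1 - p.2, p.2)) - 1‖ ≤
          3 * M * p.2.im ^ 2 + 0.27 / (sd h p + 0.37) ^ 2 := by
        rw [hue, hLW _ hq1]
        have h5 : p.2 / (u - L' (p.1 - p.2, p.2)) - 1 = (p.2 / (u - L' (p.1 - p.2, p.2)) -
            p.2 / (L' (p.1 - p.2, p.2) - L' (p.1 - 2 * p.2, p.2))) +
            (p.2 / (L' (p.1 - p.2, p.2) - L' (p.1 - 2 * p.2, p.2)) - 1) := by ring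
        rw [h5]
        refine (norm_add_le _ _).trans ?_
        linarith
      refine ⟨hmfin, ?_⟩
      have hmsm := hmfin.trans (cl_bm hM hr hNp.cone hs)
      set m : ℂ := p.2 / (L'' p - L'' (p.1 - p.2, p.2)) with hmdef
      have hmn : 0.95 ≤ ‖m‖ := by
        have h5 : ‖(1 : ℂ)‖ ≤ ‖m‖ + ‖m - 1‖ := by
          have h6 := norm_sub_le m (m - 1)
          rwa [sub_sub_cancel] at h6
        rw [norm_one] at h5
        norm_num at h5 hmsm ⊢
        linarith
      have hm00 : m ≠ 0 := by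
        intro h0
        rw [h0, norm_zero] at hmn
        norm_num at hmn
      have hul : L'' p - L'' (p.1 - p.2, p.2) = p.2 / m := by
        rw [hmdef, div_div_cancel₀ c5]
      have hLq : L'' (p.1 - p.2, p.2) = L' (p.1 - p.2, p.2) := hLW _ hq1
      have h5 : L'' p - p.1 = (L' (p.1 - p.2, p.2) - (p.1 - p.2)) + p.2 * ((1 - m) / m) := by
        have h6 : L'' p = L' (p.1 - p.2, p.2) + p.2 / m := by
          rw [← hul, hLq]
          ring
        rw [h6]
        field_simp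
        ring
      set μ : ℝ := 3 * M * p.2.im ^ 2 + 0.27 / (sd h p + 0.37) ^ 2 with hμ
      have hμ0 : 0 ≤ μ := by positivity
      have h6 : ‖p.2 * ((1 - m) / m)‖ ≤ p.2.im * (1.06 * μ) := by
        rw [norm_mul, norm_div, norm_sub_rev]
        have h7 : ‖m - 1‖ / ‖m‖ ≤ μ / 0.95 :=
          div_le_div₀ hμ0 hmfin (by norm_num) hmn
        calc ‖p.2‖ * (‖m - 1‖ / ‖m‖) ≤ 1.0001 * p.2.im * (μ / 0.95) := by
              gcongr
          _ ≤ p.2.im * (1.06 * μ) := by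
              have h8 : 0 ≤ p.2.im * μ := by positivity
              norm_num
              linarith
      have hbl := hb.l
      have him : (p.1 - p.2, p.2).1.im = p.1.im - p.2.im := by
        show (p.1 - p.2).im = _
        rw [sub_im]
      rw [hsd, him] at hbl
      have hDys : h - p.1.im ≤ ys := by linarith
      have hmax1 : max 0 (ys + 2 * p.2.im - (h - (p.1.im - p.2.im))) =
          ys + p.2.im - (h - p.1.im) := by
        rw [max_eq_right]
        · ring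
        · linarith
      have hmax2 : max 0 (ys + 2 * p.2.im - (h - p.1.im)) =
          (ys + p.2.im - (h - p.1.im)) + p.2.im := by
        rw [max_eq_right]
        · ring
        · linarith
      rw [hmax2]
      have hbl' : ‖L' (p.1 - p.2, p.2) - (p.1 - p.2)‖ ≤ 2 * M * p.2.im ^ 2 +
          4 * M * p.2.im ^ 2 * (ys + p.2.im - (h - p.1.im)) +
          0.3 * p.2.im / (sd h p + 1 - 0.13) := by
        rw [← hmax1]
        exact hbl
      have hlam := mul_le_mul_of_nonneg_left (pt_lam (s := sd h p) hs) c1.le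
      have e1 : p.2.im * (0.3 / (sd h p + 1 - 0.13) + 1.07 * (0.27 / (sd h p + 0.37) ^ 2)) =
          0.3 * p.2.im / (sd h p + 1 - 0.13) + p.2.im * (1.07 * (0.27 / (sd h p + 0.37) ^ 2)) := by
        ring
      have e2 : p.2.im * (0.3 / (sd h p - 0.13)) = 0.3 * p.2.im / (sd h p - 0.13) := by ring
      rw [e1, e2] at hlam
      have h7 : p.2.im * (1.06 * μ) ≤ 4 * M * p.2.im ^ 2 * p.2.im +
          p.2.im * (1.07 * (0.27 / (sd h p + 0.37) ^ 2)) := by
        have h8 : 0 ≤ M * p.2.im ^ 2 * p.2.im := by positivity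
        have h9 : 0 ≤ p.2.im * (0.27 / (sd h p + 0.37) ^ 2) := by positivity
        have h10 : p.2.im * (1.06 * μ) = 3.18 * (M * p.2.im ^ 2 * p.2.im) +
            1.06 * (p.2.im * (0.27 / (sd h p + 0.37) ^ 2)) := by
          rw [hμ]
          ring
        have h11 : 4 * M * p.2.im ^ 2 * p.2.im +
            p.2.im * (1.07 * (0.27 / (sd h p + 0.37) ^ 2)) = 4 * (M * p.2.im ^ 2 * p.2.im) +
            1.07 * (p.2.im * (0.27 / (sd h p + 0.37) ^ 2)) := by ring
        rw [h10, h11]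
        norm_num at h8 h9 ⊢
        linarith
      rw [h5]
      refine (norm_add_le _ _).trans ?_
      have h12 : 4 * M * p.2.im ^ 2 * ((ys + p.2.im - (h - p.1.im)) + p.2.im) =
          4 * M * p.2.im ^ 2 * (ys + p.2.im - (h - p.1.im)) + 4 * M * p.2.im ^ 2 * p.2.im := by
        ring
      rw [h12]
      linarith
  · intro p hp hlo
    have hNp := hN p hp hlo
    obtain ⟨hq1, hq2⟩ := cl_mem hr hNp
    rw [hLW _ hq1, hLW _ hq2]
    exact key p hNp

/-- **the climb** -/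
theorem climb (hd : 0 < d) (hdh : d ≤ h) (hY : Y.On (St (-h) h))
    (hU : ∀ w : ℂ, w.im = h - d → Uni Y w d) (hys : ys = 10⁻¹ ^ 6 * d) (hy : y₁ = h - ys / 2)
    (hB : BaseL Y h y₁ R M L) :
    ∃ r₁ > 0, ∀ r : ℝ, 0 < r → r < r₁ → ∃ δ > 0, δ < r ∧ ∃ L' : ℂ × ℂ → ℂ,
      AnalyticOnNhd ℂ L' (St (-y₁) (h - 0.995 * r) ×ˢ ball (r * I) δ) ∧
      (∀ p ∈ St (-y₁) (h - 0.995 * r) ×ˢ ball ((r:ℂ) * I) δ, |(L' p).im| < h) ∧
      ∀ p : ℂ × ℂ, p.1.im < h - ys → L' p = L p := by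
  have hys0 : 0 < ys := by
    rw [hys]
    positivity
  have hM := hB.M_pos
  have hR := hB.R_pos
  have hysd : ys ≤ 10⁻¹ ^ 6 * d := hys.le
  rw [cl_e6] at hysd
  -- the radius
  obtain ⟨r₁, hr⟩ : ∃ r₁, Small h d y₁ ys R M r₁ := by
    have hA : 0 < 1000 * (2 * M + 4 * M * (ys + 2)) := by positivity
    have hA' : 0 < 30000 * M := by positivity
    refine ⟨min 1 (min (R / 4) (min (ys / 20) (min (30000 * M)⁻¹
      (1000 * (2 * M + 4 * M * (ys + 2)))⁻¹))), ?_⟩
    set r := min 1 (min (R / 4) (min (ys / 20) (min (30000 * M)⁻¹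
      (1000 * (2 * M + 4 * M * (ys + 2)))⁻¹))) with hrdef
    have hr0 : 0 < r := by
      rw [hrdef]
      refine lt_min one_pos (lt_min (by positivity) (lt_min (by positivity)
        (lt_min (by positivity) (by positivity))))
    have b1 : r ≤ 1 := min_le_left _ _
    have b2 : r ≤ R / 4 := (min_le_right _ _).trans (min_le_left _ _)
    have b3 : r ≤ ys / 20 := (min_le_right _ _).trans ((min_le_right _ _).trans (min_le_left _ _))
    have b4 : r ≤ (30000 * M)⁻¹ := (min_le_right _ _).trans ((min_le_right _ _).trans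
      ((min_le_right _ _).trans (min_le_left _ _)))
    have b5 : r ≤ (1000 * (2 * M + 4 * M * (ys + 2)))⁻¹ := (min_le_right _ _).trans
      ((min_le_right _ _).trans ((min_le_right _ _).trans (min_le_right _ _)))
    have b4' : r * (30000 * M) ≤ 1 := by
      have := mul_le_mul_of_nonneg_right b4 hA'.le
      rwa [inv_mul_cancel₀ hA'.ne'] at this
    have b5' : r * (1000 * (2 * M + 4 * M * (ys + 2))) ≤ 1 := by
      have := mul_le_mul_of_nonneg_right b5 hA.le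
      rwa [inv_mul_cancel₀ hA.ne'] at this
    refine ⟨hr0, by linarith, by linarith, ?_, ?_, by linarith, by linarith⟩
    · rw [cl_e4]
      have h1 : r ^ 2 ≤ r := by nlinarith
      have h2 : 3 * M * r ^ 2 ≤ 3 * M * r := mul_le_mul_of_nonneg_left h1 (by positivity)
      linarith
    · rw [cl_e3]
      have h1 : 4 * M * r * (ys + 2 * r) ≤ 4 * M * r * (ys + 2) :=
        mul_le_mul_of_nonneg_left (by linarith) (by positivity)
      linarith
  have hr0 := hr.pos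
  have hlay : ∀ k : ℕ, ∃ L', Lay Y h d y₁ ys r₁ M L k L' := by
    intro k
    induction k with
    | zero => exact ⟨L, lay_zero hd hdh hys hB hr⟩
    | succ k ih =>
      obtain ⟨L', hL'⟩ := ih
      exact lay_succ hd hdh hY hU hys hB hr hL'
  refine ⟨r₁ / 2, by positivity, fun r hr1 hr2 => ⟨1 / 100000 * r, by positivity, by linarith, ?_⟩⟩
  obtain ⟨k, hk⟩ := exists_nat_ge (2 * ys / r)
  rw [div_le_iff₀ hr1] at hk
  obtain ⟨L', hL⟩ := hlay k
  have hsub : St (-y₁) (h - 0.995 * r) ×ˢ ball ((r:ℂ) * I) (1 / 100000 * r) ⊆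
      W h y₁ ys r₁ k := by
    rintro p ⟨⟨h1, h2⟩, h3⟩
    rw [mem_ball, dist_eq_norm] at h3
    have h4 := (abs_re_le_norm (p.2 - (r:ℂ) * I)).trans_lt h3
    have h5 := (abs_im_le_norm (p.2 - (r:ℂ) * I)).trans_lt h3
    have e1 : (p.2 - (r:ℂ) * I).re = p.2.re := by simp
    have e2 : (p.2 - (r:ℂ) * I).im = p.2.im - r := by simp
    rw [e1] at h4
    rw [e2, abs_lt] at h5
    have h6 : 0 < p.2.im := by linarith
    have hkk : (0 : ℝ) ≤ k := Nat.cast_nonneg k
    refine ⟨⟨h6, by linarith, ?_⟩, h1, ?_, ?_⟩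
    · rw [cl_e4]
      linarith
    · have h7 : (k : ℝ) * r ≤ 2 * (k * p.2.im) := by nlinarith
      have h8 : (0.995 : ℝ) * r > 0 := by positivity
      linarith
    · norm_num at h2 ⊢
      linarith
  exact ⟨L', hL.an.mono hsub, fun p hp => hL.maps p (hsub hp), hL.base⟩

end Pool.Agent.MP_ae5b4e_an_SV
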