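import Pool.Agent.Lib.MP_ae5b4e_an_SV.Defs
import Pool.Agent.Lib.MP_ae5b4e_an_NBT.Climb
import Pool.Agent.Lib.MP_ae5b4e_an_NBT.DomS

/-!
# MP_ae5b4e_an, project SV: `K` extends as far as the label
-/

noncomputable section

namespace Pool.Agent.MP_ae5b4e_an_SV

open Complex Set Filter Topology Metric
open Pool.Agent.MP_ae5b4e_an_NBT

variable {k : ℂ → ℂ} {F G : ℂ × ℂ → ℂ} {c h : ℝ}

/-- the identity theorem -/
private theorem extK_id {g : ℂ → ℂ} {V : Set ℂ} (hV : IsPreconnected V)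
    (hg : MeromorphicOn g V) {t₀ t : ℂ} (h0 : t₀ ∈ V) (ht : t ∈ V)
    (h : ∀ᶠ s in 𝓝[≠] t₀, g s = 0) : ∀ᶠ s in 𝓝[≠] t, g s = 0 := by
  rw [← meromorphicOrderAt_eq_top_iff] at h ⊢
  by_contra hc
  exact hg.meromorphicOrderAt_ne_top_of_isPreconnected hV ht h0 hc h

/-- the function `K` near the base strip -/
private theorem extK_K (hE : ConE k F c h G) {p : ℂ × ℂ}
    (hp : p ∈ St (-(c / 2)) (c / 2) ×ˢ ball (0:ℂ) (c / 4)) :
    AnalyticAt ℂ (fun q => k (F q)) p ∧ EqM (KF F) (fun q => k (F q)) p := by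
  have hc := hE.pos
  obtain ⟨⟨hp1, hp2⟩, hp3⟩ := hp
  have hpc : p ∈ St (-c) c ×ˢ ball (0:ℂ) c :=
    ⟨⟨by linarith, by linarith⟩, ball_subset_ball (by linarith) hp3⟩
  refine ⟨AnalyticAt.fun_comp (hE.reg p hpc) (hE.an p hpc), ?_⟩
  have h1 : Den (fun q : ℂ × ℂ => q.2) p := by
    refine ⟨analyticAt_snd, fun h2 => ?_⟩
    have h3 : Tendsto (fun x : ℂ => (p.1, p.2 + x)) (𝓝 0) (𝓝 p) := by
      have : Continuous (fun x : ℂ => (p.1, p.2 + x)) := by fun_prop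
      simpa using this.tendsto 0
    have h4 := h3.eventually h2
    have h5 : ∀ᶠ x : ℂ in 𝓝[≠] 0, p.2 + x = 0 := nhdsWithin_le_nhds h4
    obtain ⟨x, hx, hx0⟩ := (h5.and self_mem_nhdsWithin).exists
    have h6 := h4.self_of_nhds
    simp only [add_zero] at h6
    rw [h6, zero_add] at hx
    exact hx0 hx
  refine ⟨_, h1, ?_⟩
  have hopen : IsOpen (St (-(c / 2)) (c / 2) ×ˢ ball (0:ℂ) (c / 4)) :=
    (isOpen_St _ _).prod isOpen_ball
  filter_upwards [hopen.mem_nhds ⟨⟨hp1, hp2⟩, hp3⟩] with q hq hq0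
  obtain ⟨⟨hq1, hq2⟩, hq3⟩ := hq
  have hq4 : ‖q.2‖ < c / 4 := by simpa using hq3
  have hq5 : |q.2.im| < c / 4 := lt_of_le_of_lt (abs_im_le_norm _) hq4
  obtain ⟨hq6, hq7⟩ := abs_lt.1 hq5
  have hqc : q ∈ St (-c) c ×ˢ ball (0:ℂ) c :=
    ⟨⟨by linarith, by linarith⟩, ball_subset_ball (by linarith) hq3⟩
  exact hE.fe q hqc hq0 ⟨by rw [add_im]; linarith, by rw [add_im]; linarith⟩
    ⟨by rw [sub_im]; linarith, by rw [sub_im]; linarith⟩

private theorem extK_KG (hE : ConE k F c h G) {p : ℂ × ℂ}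
    (hp : p ∈ St (-(c / 2)) (c / 2) ×ˢ ball (0:ℂ) (c / 4)) :
    EqM (KF G) (fun q => k (F q)) p := by
  have hc := hE.pos
  refine EqM.trans ?_ (extK_K hE hp).2
  obtain ⟨⟨hp1, hp2⟩, hp3⟩ := hp
  have hq4 : ‖p.2‖ < c / 4 := by simpa using hp3
  have hq5 : |p.2.im| < c / 4 := lt_of_le_of_lt (abs_im_le_norm _) hq4
  obtain ⟨hq6, hq7⟩ := abs_lt.1 hq5
  have h0 : EqM G F p := hE.eqG p ⟨⟨by linarith, by linarith⟩, hp3⟩
  have h1 : EqM (fun q : ℂ × ℂ => G (q.1 + q.2, q.2)) (fun q => F (q.1 + q.2, q.2)) p :=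
    EqM.shift (h := fun x => x) differentiable_id
      (hE.eqG _ ⟨⟨by rw [add_im]; linarith, by rw [add_im]; linarith⟩, hp3⟩)
  have h2 : EqM (fun q : ℂ × ℂ => G (q.1 - q.2, q.2)) (fun q => F (q.1 - q.2, q.2)) p := by
    have h3 := EqM.shift (f := G) (g := F) (h := fun x => -x) (p := p) differentiable_id.neg
      (hE.eqG _ ⟨⟨by rw [add_im, neg_im]; linarith, by rw [add_im, neg_im]; linarith⟩, hp3⟩)
    simpa only [sub_eq_add_neg] using h3
  exact EqM.map₂ (fun x y => x + y) (EqM.map₂ (fun x y => (x - y)⁻¹) h1 h0)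
    (EqM.map₂ (fun x y => (x - y)⁻¹) h2 h0)

/-- the slice of `K` on the strip of half height `c` -/
private theorem extK_slice (hE : ConE k F c h G) {z : ℂ} (hz : |z.im| < c) :
    ∀ᶠ s in 𝓝[≠] z, sl (KF G) 0 s = k (F (s, 0)) := by
  have hc := hE.pos
  have hV : IsPreconnected {t : ℂ | |t.im| < c} := by
    have h1 : {t : ℂ | |t.im| < c} = St (-c) c := by
      ext z
      simp [St, abs_lt]
    rw [h1]
    exact (convex_St (-c) c).isPreconnected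
  have hb4 : (0:ℂ) ∈ ball (0:ℂ) (c / 4) := mem_ball_self (by positivity)
  have hb : (0:ℂ) ∈ ball (0:ℂ) c := mem_ball_self hc
  have hm : MeromorphicOn (fun s => sl (KF G) 0 s - k (F (s, 0))) {t : ℂ | |t.im| < c} := by
    intro s hs
    have hs' : |s.im| < c := hs
    have h1 := mem_DK_zero hE (hs'.trans hE.hc)
    have h3 : MeromorphicAt (sl (KF G) 0) s :=
      SlAt.meromorphicAt (t := s) (ρ := 0) (slAt_K hE h1)
    have hp : ((s, 0) : ℂ × ℂ) ∈ St (-c) c ×ˢ ball (0:ℂ) c := ⟨abs_lt.1 hs', hb⟩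
    have h4 : AnalyticAt ℂ (fun q : ℂ × ℂ => k (F q)) (s, 0) :=
      AnalyticAt.fun_comp (hE.reg _ hp) (hE.an _ hp)
    have h5 : AnalyticAt ℂ (fun x : ℂ => k (F (x, 0))) s :=
      AnalyticAt.fun_comp (g := fun q : ℂ × ℂ => k (F q)) (f := fun x : ℂ => (x, (0:ℂ))) h4
        (analyticAt_id.prod analyticAt_const)
    exact h3.sub h5.meromorphicAt
  have h0 : ∀ᶠ s in 𝓝[≠] (0:ℂ), sl (KF G) 0 s - k (F (s, 0)) = 0 := by
    have hS : St (-(c / 2)) (c / 2) ∈ 𝓝 (0:ℂ) :=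
      (isOpen_St _ _).mem_nhds ⟨by simpa using hc, by simpa using hc⟩
    refine nhdsWithin_le_nhds ?_
    filter_upwards [hS] with s hs
    have h8 : sl (KF G) 0 s = k (F (s, 0)) :=
      nfM_eq (extK_K hE (p := (s, 0)) ⟨hs, hb4⟩).1 (extK_KG hE (p := (s, 0)) ⟨hs, hb4⟩)
    rw [h8, sub_self]
  have h1 := extK_id hV hm (t₀ := 0) (t := z) (by simpa using hc) hz h0
  filter_upwards [h1] with s hs
  exact sub_eq_zero.1 hs

theorem extK_of_label (hE : ConE k F c h G) {ρ : ℂ} {δ y : ℝ} (hδ : 0 < δ)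
    (hb : ball ρ δ ⊆ ball 0 (c / 4)) (hy : c / 2 ≤ y) {L : ℂ × ℂ → ℂ}
    (hL : AnalyticOnNhd ℂ L (St (-(c / 2)) y ×ˢ ball ρ δ))
    (hLS : ∀ p ∈ St (-(c / 2)) y ×ˢ ball ρ δ, |(L p).im| < h)
    (hbase : ∀ p ∈ St (-(c / 2)) (c / 2) ×ˢ ball ρ δ, |(L p).im| < c ∧ F (L p, 0) = F p) :
    ExtM (KF F) (c / 2) (c / 4) y ρ := by
  have hc := hE.pos
  have hopen : IsOpen (St (-(c / 2)) (c / 2) ×ˢ ball ρ δ) := (isOpen_St _ _).prod isOpen_ball
  have hsub : St (-(c / 2)) (c / 2) ×ˢ ball ρ δ ⊆ St (-(c / 2)) y ×ˢ ball ρ δ := by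
    rintro p ⟨⟨h1, h2⟩, h3⟩
    exact ⟨⟨h1, h2.trans_le hy⟩, h3⟩
  -- `L` is not locally constant
  have hnc0 : ∀ p ∈ St (-(c / 2)) (c / 2) ×ˢ ball ρ δ, ∀ x : ℂ,
      ¬ ∀ᶠ q in 𝓝 p, L q = x := by
    intro p hp x hx
    have h1 : ∀ᶠ q in 𝓝 p, F q = F (x, 0) := by
      filter_upwards [hx, hopen.mem_nhds hp] with q h2 h3
      rw [← (hbase q h3).2, h2]
    have hpc : p ∈ St (-c) c ×ˢ ball (0:ℂ) c := by
      refine ⟨⟨?_, ?_⟩, ball_subset_ball (by linarith) (hb hp.2)⟩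
      · have := hp.1.1
        linarith
      · have := hp.1.2
        linarith
    have h2 : Tendsto (fun s : ℂ => (s, p.2)) (𝓝 p.1) (𝓝 p) := by
      have : Continuous (fun s : ℂ => (s, p.2)) := by fun_prop
      exact this.tendsto p.1
    have h3 : (fun s => F (s, p.2)) =ᶠ[𝓝 p.1] fun _ => F (x, 0) := h2.eventually h1
    apply hE.dt p hpc
    rw [h3.deriv_eq, deriv_const]
  have hconn : IsPreconnected (St (-(c / 2)) y ×ˢ ball ρ δ) :=
    ((convex_St _ _).prod (convex_ball _ _)).isPreconnected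
  have hmem0 : ((0:ℂ), ρ) ∈ St (-(c / 2)) (c / 2) ×ˢ ball ρ δ :=
    ⟨⟨by simpa using hc, by simpa using hc⟩, mem_ball_self hδ⟩
  have hnc : ∀ p ∈ St (-(c / 2)) y ×ˢ ball ρ δ, ∀ x : ℂ, ¬ ∀ᶠ q in 𝓝 p, L q = x := by
    intro p hp x hx
    have h1 : EqOn L (fun _ => x) (St (-(c / 2)) y ×ˢ ball ρ δ) :=
      hL.eqOn_of_preconnected_of_eventuallyEq analyticOnNhd_const hconn hp hx
    refine hnc0 _ hmem0 x ?_
    filter_upwards [hopen.mem_nhds hmem0] with q hq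
    exact h1 (hsub hq)
  -- the denominators
  have hden : ∀ p ∈ St (-(c / 2)) y ×ˢ ball ρ δ, ∀ n : ℕ,
      Den (fun q => (L q - L p) ^ n) p := by
    intro p hp n
    refine ⟨((hL p hp).sub analyticAt_const).pow n, fun h1 => hnc p hp (L p) ?_⟩
    filter_upwards [h1] with q hq
    have h2 : L q - L p = 0 := by
      rcases Nat.eq_zero_or_pos n with hn | hn
      · rw [hn, pow_zero] at hq
        exact absurd hq one_ne_zero
      · exact (pow_eq_zero_iff (by omega)).1 hq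
    exact sub_eq_zero.1 h2
  refine ⟨δ, hδ, hb, fun p => sl (KF G) 0 (L p), ?_, ?_⟩
  · intro p hp
    have h1 := mem_DK_zero hE (hLS p hp)
    have h3 : MeromorphicAt (sl (KF G) 0) (L p) :=
      SlAt.meromorphicAt (t := L p) (ρ := 0) (slAt_K hE h1)
    obtain ⟨n, hn⟩ := h3
    refine ⟨fun q => (L q - L p) ^ n • sl (KF G) 0 (L q), fun q => (L q - L p) ^ n, ?_,
      hden p hp n, ?_⟩
    · exact AnalyticAt.fun_comp (g := fun z => (z - L p) ^ n • sl (KF G) 0 z) (f := L) hn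
        (hL p hp)
    · refine Eventually.of_forall fun q hq => ?_
      show sl (KF G) 0 (L q) = (L q - L p) ^ n • sl (KF G) 0 (L q) / (L q - L p) ^ n
      rw [smul_eq_mul, mul_comm, mul_div_assoc, div_self hq, mul_one]
  · intro p hp
    rw [min_eq_left hy] at hp
    have hp4 : p ∈ St (-(c / 2)) (c / 2) ×ˢ ball (0:ℂ) (c / 4) := ⟨hp.1, hb hp.2⟩
    refine EqM.trans ?_ (extK_K hE hp4).2.symm
    have h1 := hden p (hsub hp) 1
    refine ⟨_, h1, ?_⟩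
    have h2 := extK_slice hE (hbase p hp).1
    rw [eventually_nhdsWithin_iff] at h2
    have h3 := ((hL p (hsub hp)).continuousAt).eventually h2
    filter_upwards [h3, hopen.mem_nhds hp] with q h4 h5 h6
    have h7 : L q ∈ ({L p}ᶜ : Set ℂ) := by
      intro h8
      apply h6
      rw [mem_singleton_iff.1 h8, sub_self, pow_one]
    rw [h4 h7, (hbase q h5).2]

end Pool.Agent.MP_ae5b4e_an_SV
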