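import Mathlib
import Pool.Agent.Lib.MP_ae5b4e_an_NBT.SupD
import Pool.Agent.Lib.MP_ae5b4e_an_LL.Gain

/-!
# MP_ae5b4e_an, project SV: the half disc lemma

A superharmonic function which is at least `c r` at the points `± i r` is positive at `0`.
-/

noncomputable section

namespace Pool.Agent.MP_ae5b4e_an_SV

open Complex Set Filter Topology Metric
open Pool.Agent.MP_ae5b4e_an_NBT
open Pool.Agent.Lib.MP_ae5b4e_an_LL
open InnerProductSpace

/-- the product of the imaginary part and the argument -/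
private theorem im_mul_arg_ge {z : ℂ} (hz : 0 < z.re) : z.im ^ 2 / ‖z‖ ≤ z.im * z.arg := by
  have hn : 0 < ‖z‖ := by
    apply norm_pos_iff.2
    intro h
    rw [h] at hz
    simp at hz
  have hs : Real.sin z.arg = z.im / ‖z‖ := Complex.sin_arg z
  have h1 : |z.arg| < Real.pi / 2 := Complex.abs_arg_lt_pi_div_two_iff.2 (Or.inl hz)
  rcases le_total 0 z.im with h | h
  · have h2 : 0 ≤ z.arg := Complex.arg_nonneg_iff.2 h
    have h3 : Real.sin z.arg ≤ z.arg := Real.sin_le h2
    rw [hs] at h3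
    calc z.im ^ 2 / ‖z‖ = z.im * (z.im / ‖z‖) := by ring
      _ ≤ z.im * z.arg := mul_le_mul_of_nonneg_left h3 h
  · have h2 : z.arg ≤ 0 := by
      by_contra hcon
      push Not at hcon
      have h4 := Complex.arg_nonneg_iff.1 hcon.le
      have h5 : z.im = 0 := le_antisymm h h4
      have h6 : z.arg = 0 := by
        rw [Complex.arg_eq_zero_iff]
        exact ⟨hz.le, h5⟩
      linarith
    have h3 : Real.sin (-z.arg) ≤ -z.arg := Real.sin_le (by linarith)
    rw [Real.sin_neg, hs] at h3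
    have h4 : -z.im * (-(z.im / ‖z‖)) ≤ -z.im * (-z.arg) :=
      mul_le_mul_of_nonneg_left h3 (by linarith)
    calc z.im ^ 2 / ‖z‖ = -z.im * (-(z.im / ‖z‖)) := by ring
      _ ≤ -z.im * (-z.arg) := h4
      _ = z.im * z.arg := by ring

private theorem right_half {v : ℂ → ℝ} {R A c r₁ B ρ : ℝ} (hr₁ : 0 < r₁) (h1R : r₁ < R)
    (hc : 0 < c) (hA : 0 ≤ A) (hB : B * r₁ ^ 2 = A + c * r₁) (hv : SubH v (ball 0 R))
    (hvA : ∀ z ∈ ball (0:ℂ) R, v z ≤ A)
    (hi : ∀ ζ : ℂ, ζ.re = 0 → ζ ≠ 0 → ‖ζ‖ ≤ r₁ → v ζ ≤ -(c * ‖ζ‖)) (hρ : 0 < ρ) (hρ1 : ρ < r₁)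
    (hρB : B * ρ ≤ c / Real.pi)
    (hK : c + 2 * B * r₁ ≤ 2 * c / Real.pi * (Real.log r₁ - Real.log ρ)) :
    ∀ z : ℂ, 0 < z.re → ‖z‖ = ρ → v z ≤ -(ρ * (c / Real.pi)) := by
  have hpi := Real.pi_pos
  have hB0 : 0 < B := by
    have h1 : 0 < B * r₁ ^ 2 := by rw [hB]; positivity
    exact pos_of_mul_pos_left h1 (by positivity)
  set V : ℂ → ℝ := fun η => 2 * c / Real.pi * tlog r₁ η +
    B * (2 * r₁ * η.re - (η ^ 2).re) with hV
  have hsq : ∀ η : ℂ, (η ^ 2).re = η.re ^ 2 - η.im ^ 2 := by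
    intro η
    rw [pow_two, mul_re]
    ring
  have hnsq : ∀ η : ℂ, η.re ^ 2 + η.im ^ 2 = ‖η‖ ^ 2 := by
    intro η
    rw [← Complex.normSq_eq_norm_sq, Complex.normSq_apply]
    ring
  have hVh : HarmonicOnNhd V (RHD r₁) := by
    have e : V = ((2 * c / Real.pi) • tlog r₁ +
        (fun η : ℂ => ((B : ℂ) * (2 * r₁ * η - η ^ 2)).re)) := by
      funext η
      simp only [hV, Pi.add_apply, Pi.smul_apply, smul_eq_mul]
      congr 1
      rw [re_ofReal_mul, sub_re]
      congr 2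
      have : (2 * (r₁ : ℂ) * η) = ((2 * r₁ : ℝ) : ℂ) * η := by push_cast; ring
      rw [this, re_ofReal_mul]
    rw [e]
    refine HarmonicOnNhd.add ?_ ?_
    · exact HarmonicOnNhd.const_smul fun z hz => tlog_harmonic hz.1
    · intro z _
      apply AnalyticAt.harmonicAt_re
      fun_prop
  have hT : ∀ η ∈ RHD r₁, 2 * c / Real.pi * (η.re * (Real.log ‖η‖ - Real.log r₁)) - c * ‖η‖ ≤
      2 * c / Real.pi * tlog r₁ η := by
    intro η hη
    have h1 := mul_le_mul_of_nonneg_left (tlog_bounds (R := r₁) hη.1).1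
      (show 0 ≤ 2 * c / Real.pi by positivity)
    have h2 : 2 * c / Real.pi * (η.re * (Real.log ‖η‖ - Real.log r₁) - Real.pi / 2 * ‖η‖) =
        2 * c / Real.pi * (η.re * (Real.log ‖η‖ - Real.log r₁)) - c * ‖η‖ := by
      field_simp
    linarith
  have hnorm : ∀ η ∈ RHD r₁, 0 < ‖η‖ := fun η hη => by
    apply norm_pos_iff.2
    intro h
    have := hη.1
    rw [h] at this
    simp at this
  have hQ : ∀ η ∈ RHD r₁, 0 ≤ B * (2 * r₁ * η.re - (η ^ 2).re) := by
    intro η hη
    apply mul_nonneg hB0.le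
    rw [hsq]
    have h1 : η.re ≤ r₁ := (le_abs_self _).trans ((Complex.abs_re_le_norm η).trans hη.2.le)
    have h2 := hη.1
    nlinarith [sq_nonneg η.im, mul_nonneg h2.le (sub_nonneg.2 h1)]
  have hV1 : ∀ η ∈ RHD r₁, 2 * c / Real.pi * (η.re * (Real.log ‖η‖ - Real.log r₁)) - c * ‖η‖ ≤
      V η := by
    intro η hη
    have h1 := hT η hη
    have h2 := hQ η hη
    simp only [hV]
    linarith
  have hVlow : ∀ η ∈ RHD r₁, -(2 * c * r₁) ≤ V η := by
    intro η hη
    refine le_trans ?_ (hV1 η hη)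
    have h1 := mul_log_ge (hnorm η hη) hr₁
    have hn := hη.2
    have h2 : Real.log ‖η‖ - Real.log r₁ ≤ 0 := by
      have := Real.log_le_log (hnorm η hη) hn.le
      linarith
    have h3 : ‖η‖ * (Real.log ‖η‖ - Real.log r₁) ≤ η.re * (Real.log ‖η‖ - Real.log r₁) := by
      apply mul_le_mul_of_nonpos_right _ h2
      exact (le_abs_self _).trans (Complex.abs_re_le_norm η)
    have h4 : -r₁ ≤ η.re * (Real.log ‖η‖ - Real.log r₁) := by
      have := (hnorm η hη).le
      linarith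
    have h5 : 2 * c / Real.pi * (-r₁) ≤ 2 * c / Real.pi * (η.re * (Real.log ‖η‖ - Real.log r₁)) :=
      mul_le_mul_of_nonneg_left h4 (by positivity)
    have h6 : 2 * c / Real.pi ≤ c := by
      rw [div_le_iff₀ hpi]
      nlinarith [Real.pi_gt_three]
    have h7 : -(c * r₁) ≤ 2 * c / Real.pi * (-r₁) := by nlinarith
    have h8 : c * ‖η‖ ≤ c * r₁ := mul_le_mul_of_nonneg_left hn.le hc.le
    linarith
  -- the key limit
  have hk : ∀ ζ : ℂ, ζ ≠ 0 → (ζ.re = 0 ∨ ‖ζ‖ = r₁) → Tendsto (fun η : ℂ => 2 * c / Real.pi *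
      (η.re * (Real.log ‖η‖ - Real.log r₁)) - c * ‖η‖) (𝓝 ζ) (𝓝 (-(c * ‖ζ‖))) := by
    intro ζ hζ h
    have h1 : ContinuousAt (fun η : ℂ => 2 * c / Real.pi *
        (η.re * (Real.log ‖η‖ - Real.log r₁)) - c * ‖η‖) ζ := by
      have h2 : ContinuousAt (fun η : ℂ => Real.log ‖η‖) ζ :=
        ContinuousAt.log continuous_norm.continuousAt (norm_ne_zero_iff.2 hζ)
      have h3 : ContinuousAt (fun η : ℂ => η.re) ζ := Complex.continuous_re.continuousAt
      exact ((continuousAt_const.mul (h3.mul (h2.sub continuousAt_const))).sub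
        (continuousAt_const.mul continuous_norm.continuousAt))
    have h2 : 2 * c / Real.pi * (ζ.re * (Real.log ‖ζ‖ - Real.log r₁)) - c * ‖ζ‖ =
        -(c * ‖ζ‖) := by
      rcases h with h | h
      · rw [h]; ring
      · rw [h]; ring
    rw [← h2]
    exact h1
  have hballs : RHD r₁ ⊆ ball (0 : ℂ) R := fun z hz =>
    mem_ball_zero_iff.2 (lt_trans hz.2 h1R)
  have key := (hv.mono hballs).le_harmonic_diff
    (isOpen_RHD r₁) (isBounded_RHD r₁) hVh (B := A + 2 * c * r₁)
    (fun z hz => by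
      have h1 := hvA z (hballs hz)
      have h2 := hVlow z hz
      linarith)
    (E := {0, Complex.I * r₁, -(Complex.I * r₁)})
    (by simp) (fun ζ hζ hζE ε hε => by
      simp only [mem_insert_iff, mem_singleton_iff, not_or] at hζE
      obtain ⟨e1, e4, e5⟩ := hζE
      rcases frontier_RHD hζ with h | h | h | h
      · -- the imaginary axis
        have hlim := hk ζ e1 (Or.inl h.1)
        have h4 : ∀ᶠ η in 𝓝 ζ, -(c * ‖ζ‖) - ε / 4 < 2 * c / Real.pi *
            (η.re * (Real.log ‖η‖ - Real.log r₁)) - c * ‖η‖ :=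
          hlim (Ioi_mem_nhds (by linarith))
        have h5 := hi ζ h.1 e1 h.2.le
        have h6 := hv.usc ζ (mem_ball_zero_iff.2 (lt_trans h.2 h1R)) (-(c * ‖ζ‖) + ε / 4) (by
          show v ζ < _
          linarith)
        have h7 := h6.filter_mono (nhdsWithin_mono ζ hballs)
        filter_upwards [h4.filter_mono nhdsWithin_le_nhds, h7, self_mem_nhdsWithin]
          with η g1 g2 g3
        have g4 := hV1 η g3
        have g5 : v η < -(c * ‖ζ‖) + ε / 4 := g2
        linarith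
      · -- the arc
        have hlim := hk ζ e1 (Or.inr h.2)
        have h4 : ∀ᶠ η in 𝓝 ζ, -(c * ‖ζ‖) - ε / 4 < 2 * c / Real.pi *
              (η.re * (Real.log ‖η‖ - Real.log r₁)) - c * ‖η‖ :=
            hlim (Ioi_mem_nhds (by linarith))
        have h2 : Tendsto (fun η : ℂ => B * (2 * r₁ * η.re - (η ^ 2).re)) (𝓝 ζ)
            (𝓝 (B * (2 * r₁ * ζ.re - (ζ ^ 2).re))) := by
          have : Continuous (fun η : ℂ => B * (2 * r₁ * η.re - (η ^ 2).re)) := by fun_prop
          exact this.tendsto ζ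
        have h3 : A + c * r₁ ≤ B * (2 * r₁ * ζ.re - (ζ ^ 2).re) := by
          rw [← hB]
          apply mul_le_mul_of_nonneg_left _ hB0.le
          rw [hsq]
          have h6 := hnsq ζ
          rw [h.2] at h6
          have h7 : ζ.re ≤ r₁ := by
            rw [← h.2]
            exact (le_abs_self _).trans (Complex.abs_re_le_norm ζ)
          nlinarith [mul_nonneg h.1.le (sub_nonneg.2 h7)]
        have h5 : ∀ᶠ η in 𝓝 ζ, A + c * r₁ - ε / 4 < B * (2 * r₁ * η.re - (η ^ 2).re) :=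
          h2 (Ioi_mem_nhds (by linarith))
        filter_upwards [h4.filter_mono nhdsWithin_le_nhds, h5.filter_mono nhdsWithin_le_nhds,
          self_mem_nhdsWithin] with η g1 g2 g3
        have g4 := hT η g3
        have g6 := hvA η (hballs g3)
        rw [h.2] at g1
        simp only [hV]
        linarith
      · exact absurd h e4
      · exact absurd h e5)
  intro z hz hzn
  have hzR : z ∈ RHD r₁ := ⟨hz, by rw [hzn]; exact hρ1⟩
  refine (key z hzR).trans ?_
  have h1 : tlog r₁ z = z.re * (Real.log ‖z‖ - Real.log r₁) - z.im * z.arg := by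
    simp [tlog, Complex.mul_re, Complex.log_re, Complex.log_im]
  have h2 := im_mul_arg_ge hz
  rw [hzn] at h1 h2
  have h3 : z.re ≤ ρ := by
    rw [← hzn]
    exact (le_abs_self _).trans (Complex.abs_re_le_norm z)
  have h4 : z.re ^ 2 / ρ ≤ z.re := by
    rw [div_le_iff₀ hρ]
    nlinarith
  have h5 := hnsq z
  rw [hzn] at h5
  have h6 : z.re ^ 2 / ρ + z.im ^ 2 / ρ = ρ := by
    rw [← add_div, h5]
    field_simp
  have h7 : -(z ^ 2).re ≤ ρ ^ 2 := by
    rw [hsq]
    nlinarith [sq_nonneg z.re]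
  have h8 : 2 * c / Real.pi ≤ c := by
    rw [div_le_iff₀ hpi]
    nlinarith [Real.pi_gt_three]
  -- the main estimate
  have h9 : z.re * (c + 2 * B * r₁) ≤ z.re * (2 * c / Real.pi * (Real.log r₁ - Real.log ρ)) :=
    mul_le_mul_of_nonneg_left hK hz.le
  have h10 : 2 * c / Real.pi * z.re ≤ c * z.re := mul_le_mul_of_nonneg_right h8 hz.le
  have h11 : 2 * c / Real.pi * ρ ≤ 2 * c / Real.pi * (z.re + z.im * z.arg) := by
    apply mul_le_mul_of_nonneg_left _ (by positivity)
    linarith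
  have h12 : B * (2 * r₁ * z.re - (z ^ 2).re) ≤ 2 * B * r₁ * z.re + B * ρ ^ 2 := by
    nlinarith [mul_le_mul_of_nonneg_left h7 hB0.le]
  have h13 : B * ρ ^ 2 ≤ ρ * (c / Real.pi) := by
    nlinarith [mul_le_mul_of_nonneg_left hρB hρ.le]
  have h14 : 2 * c / Real.pi * ρ = 2 * (ρ * (c / Real.pi)) := by ring
  simp only [hV]
  rw [h1]
  have h15 : 2 * c / Real.pi * (z.re * (Real.log ρ - Real.log r₁) - z.im * z.arg) =
      -(z.re * (2 * c / Real.pi * (Real.log r₁ - Real.log ρ))) -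
        2 * c / Real.pi * (z.im * z.arg) := by ring
  rw [h15]
  linarith

theorem half_disc {w : ℂ → ℝ} {R A c r₁ : ℝ} (hr₁ : 0 < r₁) (h1R : r₁ < R) (hc : 0 < c)
    (hw : SupH w (ball 0 R)) (hb : ∀ z ∈ ball (0:ℂ) R, -A ≤ w z)
    (hi : ∀ r : ℝ, 0 < r → r ≤ r₁ → c * r ≤ w (r * I) ∧ c * r ≤ w (-(r * I))) (h0 : 0 ≤ w 0) :
    0 < w 0 := by
  have hpi := Real.pi_pos
  set A' : ℝ := max A 0 with hA'
  have hA'0 : 0 ≤ A' := le_max_right _ _
  set B : ℝ := (A' + c * r₁) / r₁ ^ 2 with hBdef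
  have hB : B * r₁ ^ 2 = A' + c * r₁ := by
    rw [hBdef]; field_simp
  have hB0 : 0 < B := by rw [hBdef]; positivity
  set ρ : ℝ := min (c / Real.pi / B) (r₁ * Real.exp (-((c + 2 * B * r₁) / (2 * c / Real.pi))))
    with hρdef
  have hρ : 0 < ρ := lt_min (by positivity) (by positivity)
  have hρ1 : ρ < r₁ := by
    refine lt_of_le_of_lt (min_le_right _ _) ?_
    have h1 : Real.exp (-((c + 2 * B * r₁) / (2 * c / Real.pi))) < 1 := by
      rw [Real.exp_lt_one_iff, neg_lt_zero]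
      positivity
    nlinarith
  have hρB : B * ρ ≤ c / Real.pi := by
    have h1 : ρ ≤ c / Real.pi / B := min_le_left _ _
    rw [le_div_iff₀ hB0] at h1
    linarith
  have hK : c + 2 * B * r₁ ≤ 2 * c / Real.pi * (Real.log r₁ - Real.log ρ) := by
    have h1 : ρ ≤ r₁ * Real.exp (-((c + 2 * B * r₁) / (2 * c / Real.pi))) := min_le_right _ _
    have h2 := Real.log_le_log hρ h1
    rw [Real.log_mul hr₁.ne' (Real.exp_ne_zero _), Real.log_exp] at h2
    have h3 : (c + 2 * B * r₁) / (2 * c / Real.pi) ≤ Real.log r₁ - Real.log ρ := by linarith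
    rw [div_le_iff₀ (by positivity)] at h3
    linarith
  have hax : ∀ ζ : ℂ, ζ.re = 0 → ζ ≠ 0 → ‖ζ‖ ≤ r₁ → c * ‖ζ‖ ≤ w ζ := by
    intro ζ hre hne hle
    have hζ : ζ = (ζ.im : ℂ) * I := by
      apply Complex.ext <;> simp [hre]
    have hζn : ‖ζ‖ = |ζ.im| := by
      conv_lhs => rw [hζ]
      rw [norm_mul, Complex.norm_I, mul_one, Complex.norm_real, Real.norm_eq_abs]
    have himne : ζ.im ≠ 0 := by
      intro h
      apply hne
      rw [hζ, h]
      simp
    rcases lt_or_gt_of_ne himne with h | h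
    · rw [hζn, abs_of_neg h] at hle ⊢
      have h1 := (hi (-ζ.im) (by linarith) hle).2
      have h2 : -(((-ζ.im : ℝ) : ℂ) * I) = ζ := by
        conv_rhs => rw [hζ]
        push_cast
        ring
      rwa [h2] at h1
    · rw [hζn, abs_of_pos h] at hle ⊢
      have h1 := (hi ζ.im h hle).1
      rwa [← hζ] at h1
  have hs : SubH (fun z => -w z) (ball 0 R) := subH_neg_of_supH isOpen_ball hw
  have hbA : ∀ z ∈ ball (0:ℂ) R, -w z ≤ A' := fun z hz => by
    have h1 := hb z hz
    have h2 : A ≤ A' := le_max_left _ _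
    linarith
  have hp := right_half hr₁ h1R hc hA'0 hB hs hbA (fun ζ h1 h2 h3 => by
    have := hax ζ h1 h2 h3
    linarith) hρ hρ1 hρB hK
  have hsn : SubH (fun z => -w (-z)) (ball 0 R) :=
    hs.comp (φ := fun z => -z) isOpen_ball isOpen_ball
      (fun z _ => (analyticAt_id (𝕜 := ℂ)).neg) (fun z hz => by
        rw [mem_ball_zero_iff] at hz ⊢
        rwa [norm_neg])
  have hm := right_half (v := fun z => -w (-z)) hr₁ h1R hc hA'0 hB hsn (fun z hz => by
      apply hbA (-z)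
      rw [mem_ball_zero_iff] at hz ⊢
      rwa [norm_neg]) (fun ζ h1 h2 h3 => by
      have := hax (-ζ) (by rw [Complex.neg_re, h1, neg_zero]) (neg_ne_zero.2 h2)
        (by rwa [norm_neg])
      rw [norm_neg] at this
      linarith) hρ hρ1 hρB hK
  have hcirc : ∀ z ∈ sphere (0 : ℂ) ρ, ρ * (c / Real.pi) ≤ w z := by
    intro z hz
    rw [mem_sphere_zero_iff_norm] at hz
    rcases lt_trichotomy z.re 0 with h | h | h
    · have := hm (-z) (by simpa using h) (by rw [norm_neg]; exact hz)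
      simp only [neg_neg] at this
      linarith
    · have h1 := hax z h (by
        intro h2
        rw [h2, norm_zero] at hz
        linarith) (by rw [hz]; exact hρ1.le)
      rw [hz] at h1
      have h2 : c / Real.pi ≤ c := by
        rw [div_le_iff₀ hpi]
        nlinarith [Real.pi_gt_three]
      nlinarith [mul_le_mul_of_nonneg_left h2 hρ.le]
    · have := hp z h hz
      linarith
  have hmean := hw.mean 0 ρ hρ (closedBall_subset_ball (lt_trans hρ1 h1R))
    (fun _ => ρ * (c / Real.pi)) continuous_const hcirc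
  rw [Real.circleAverage_const] at hmean
  have : 0 < ρ * (c / Real.pi) := by positivity
  linarith

end Pool.Agent.MP_ae5b4e_an_SV
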