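import Pool.Agent.Lib.MP_ae5b4e_an_SV.Defs
import Pool.Agent.Lib.MP_ae5b4e_an_NB2.SysLU

/-!
# MP_ae5b4e_an, project SV: the fundamental system of a locally univalent function on a strip
-/

noncomputable section

namespace Pool.Agent.MP_ae5b4e_an_SV

open Complex Set Filter Topology Metric
open Pool.Agent.MP_ae5b4e_an_NBT
open Pool.Agent.MP_ae5b4e_an_NB2 (Sys exists_sys_of_lu)

theorem sysOf_seq {f : ℂ → ℂ} {Y : Sys} {S : Set ℂ} (hY : SysOf f Y S) {u v : ℂ} (hu : u ∈ S)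
    (hv : v ∈ S) : Y.s u v = 0 ↔ SEq f u v := by
  have wu := hY.on.wr u hu
  have wv := hY.on.wr v hv
  unfold Sys.s SEq
  rcases hY.val u hu with ⟨u1, u2, u3⟩ | ⟨u1, u2, u3⟩ <;>
    rcases hY.val v hv with ⟨v1, v2, v3⟩ | ⟨v1, v2, v3⟩
  · rw [u3, v3, div_eq_div_iff u1 v1]
    constructor
    · intro h
      exact ⟨by linear_combination h, fun _ => v2, fun _ => u2⟩
    · rintro ⟨h, -⟩
      linear_combination h
  · constructor
    · intro h
      exfalso
      rw [v1] at h wv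
      have h1 : Y.y2 v * Y.y1 u = 0 := by linear_combination -h
      rcases mul_eq_zero.1 h1 with h2 | h2
      · rw [h2] at wv
        simp at wv
      · exact u1 h2
    · rintro ⟨-, h⟩
      exact absurd (h.1 u2) v2
  · constructor
    · intro h
      exfalso
      rw [u1] at h wu
      have h1 : Y.y2 u * Y.y1 v = 0 := by linear_combination h
      rcases mul_eq_zero.1 h1 with h2 | h2
      · rw [h2] at wu
        simp at wu
      · exact v1 h2
    · rintro ⟨-, h⟩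
      exact absurd (h.2 v2) u2
  · constructor
    · intro _
      exact ⟨by rw [u3, v3], fun h => absurd h u2, fun h => absurd h v2⟩
    · intro _
      rw [u1, v1]
      ring

theorem exists_sysOf {f : ℂ → ℂ} {h : ℝ} (hh : 0 < h) (hf : LU f (St (-h) h)) :
    ∃ Y : Sys, SysOf f Y (St (-h) h) := by
  obtain ⟨Y, hY, hv⟩ := exists_sys_of_lu (by linarith : -h < h) hf
  refine ⟨Y, hY, fun z hz => ?_⟩
  have hS := isOpen_St (-h) h
  have c1 : ContinuousAt Y.y1 z := (hY.d1 z hz).continuousAt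
  have c2 : ContinuousAt Y.y2 z := (hY.d2 z hz).continuousAt
  by_cases h1 : Y.y1 z = 0
  · refine Or.inr ⟨h1, fun ha => ?_, (hv z hz).2 h1⟩
    have hw := hY.wr z hz
    have h2 : Y.y1' z ≠ 0 := by
      intro h2
      rw [h1, h2] at hw
      simp at hw
    have h3 : ∀ᶠ w in 𝓝[≠] z, Y.y1 w ≠ 0 := (hY.d1 z hz).eventually_ne h2
    have h4 : ∀ᶠ w in 𝓝[≠] z, w ∈ St (-h) h :=
      mem_nhdsWithin_of_mem_nhds (hS.mem_nhds hz)
    have t1 : Tendsto (fun w => f w * Y.y1 w) (𝓝[≠] z) (𝓝 (f z * Y.y1 z)) :=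
      (ha.continuousAt.mul c1).tendsto.mono_left nhdsWithin_le_nhds
    have t2 : Tendsto (fun w => f w * Y.y1 w) (𝓝[≠] z) (𝓝 (Y.y2 z)) := by
      refine (c2.tendsto.mono_left nhdsWithin_le_nhds).congr' ?_
      filter_upwards [h3, h4] with w hw hw'
      rw [(hv w hw').1 hw, div_mul_cancel₀ _ hw]
    have h5 := tendsto_nhds_unique t1 t2
    rw [h1, mul_zero] at h5
    rw [h1, ← h5] at hw
    simp at hw
  · refine Or.inl ⟨h1, ?_, (hv z hz).1 h1⟩
    have h3 : ∀ᶠ w in 𝓝 z, Y.y1 w ≠ 0 := c1.eventually_ne h1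
    have h4 : ∀ᶠ w in 𝓝 z, w ∈ St (-h) h := hS.mem_nhds hz
    have h5 : AnalyticAt ℂ (fun w => Y.y2 w / Y.y1 w) z :=
      (Sys.an_y2 hY hS z hz).fun_div (Sys.an_y1 hY hS z hz) h1
    refine h5.congr ?_
    filter_upwards [h3, h4] with w hw hw'
    exact ((hv w hw').1 hw).symm

end Pool.Agent.MP_ae5b4e_an_SV
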