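import Pool.Agent.Lib.MP_ae5b4e_an_NBT.SupB
import Pool.Agent.Lib.MP_ae5b4e_an_SV.HD
import Pool.Agent.Lib.MP_ae5b4e_an_SV.SysX
import Pool.Agent.Lib.MP_ae5b4e_an_SV.BaseC
import Pool.Agent.Lib.MP_ae5b4e_an_SV.Clim
import Pool.Agent.Lib.MP_ae5b4e_an_SV.ExtK

/-!
# MP_ae5b4e_an, project SV: Theorem V

If `F (·, 0)` is injective on the discs of one radius which touch the upper boundary line of the
strip, then the height is not maximal.
-/

noncomputable section

namespace Pool.Agent.MP_ae5b4e_an_SV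

open Complex Set Filter Topology Metric
open Pool.Agent.MP_ae5b4e_an_NBT

variable {k : ℂ → ℂ} {F G : ℂ × ℂ → ℂ} {c h : ℝ}

private def negE : (ℂ × ℂ) ≃ₜ (ℂ × ℂ) where
  toFun p := (p.1, -p.2)
  invFun p := (p.1, -p.2)
  left_inv p := by simp
  right_inv p := by simp
  continuous_toFun := by fun_prop
  continuous_invFun := by fun_prop

private lemma analyticAt_negE (p : ℂ × ℂ) : AnalyticAt ℂ negE p := by
  change AnalyticAt ℂ (fun p : ℂ × ℂ => (p.1, -p.2)) p
  exact AnalyticAt.prod analyticAt_fst analyticAt_snd.neg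

theorem extM_neg (hC : Con k F c) {y : ℝ} {ρ : ℂ} (h : ExtM F c (c / 4) y ρ) :
    ExtM F c (c / 4) y (-ρ) := by
  obtain ⟨δ, hδ, hb, G, hG, hE⟩ := h
  have hc : 0 < c := hC.pos
  have hneg : ∀ z : ℂ, z ∈ ball (-ρ) δ → -z ∈ ball ρ δ := by
    intro z hz
    rw [mem_ball, dist_eq_norm] at hz ⊢
    have : -z - ρ = -(z - -ρ) := by ring
    rwa [this, norm_neg]
  have hb' : ball (-ρ) δ ⊆ ball 0 (c / 4) := by
    intro z hz
    have h1 := hb (hneg z hz)
    rwa [mem_ball_zero_iff, norm_neg, ← mem_ball_zero_iff] at h1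
  refine ⟨δ, hδ, hb', fun p => G (negE p), ?_, ?_⟩
  · intro p hp
    exact MerAt.comp negE (analyticAt_negE p) (hG (negE p) ⟨hp.1, hneg p.2 hp.2⟩)
  · intro p hp
    have h1 : EqM (fun q => G (negE q)) (fun q => F (negE q)) p :=
      EqM.comp negE (analyticAt_negE p) (hE (negE p) ⟨hp.1, hneg p.2 hp.2⟩)
    refine h1.trans (EqM.of_eventuallyEq ?_)
    have h2 : p ∈ St (-c) c ×ˢ ball (0:ℂ) c := by
      refine ⟨⟨hp.1.1, hp.1.2.trans_le (min_le_left _ _)⟩, ?_⟩
      exact ball_subset_ball (by linarith) (hb' hp.2)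
    filter_upwards [((isOpen_St _ _).prod isOpen_ball).mem_nhds h2] with q hq
    exact hC.even q hq

/-- **Theorem V** -/
theorem thmV (hE : ConE k F c h G) (hLU : LU (sl G 0) (St (-h) h)) {d : ℝ} (hd : 0 < d)
    (hdh : d ≤ h) (hinj : ∀ w : ℂ, w.im = h - d → ∀ u ∈ ball w d, ∀ v ∈ ball w d,
      SEq (sl G 0) u v → u = v) : ∃ y > h, ExtM F c (c / 4) y 0 := by
  have hc : 0 < c := hE.pos
  have hch : c < h := hE.hc
  have hh : 0 < h := hc.trans hch
  obtain ⟨Y, hYS⟩ := exists_sysOf hh hLU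
  have hsub : ∀ w : ℂ, w.im = h - d → ball w d ⊆ St (-h) h := by
    intro w hw z hz
    rw [mem_ball, dist_eq_norm] at hz
    have h1 : |(z - w).im| < d := (abs_im_le_norm _).trans_lt hz
    rw [sub_im, hw, abs_lt] at h1
    exact ⟨by linarith [h1.1], by linarith [h1.2]⟩
  have hU : ∀ w : ℂ, w.im = h - d → Pool.Agent.MP_ae5b4e_an_NB2.Uni Y w d := by
    intro w hw
    have hs := hsub w hw
    refine ⟨hd, ⟨fun z hz => hYS.on.d1 z (hs hz), fun z hz => hYS.on.d1' z (hs hz),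
      fun z hz => hYS.on.d2 z (hs hz), fun z hz => hYS.on.d2' z (hs hz),
      fun z hz => hYS.on.wr z (hs hz)⟩, ?_⟩
    intro u hu v hv huv
    exact hinj w hw u hu v hv ((sysOf_seq hYS (hs hu) (hs hv)).1 huv)
  obtain ⟨ys, hys⟩ : ∃ ys : ℝ, ys = 10⁻¹ ^ 6 * d := ⟨_, rfl⟩
  obtain ⟨y₁, hy₁⟩ : ∃ y₁ : ℝ, y₁ = h - ys / 2 := ⟨_, rfl⟩
  have hys0 : 0 < ys := by rw [hys]; positivity
  have hys1 : ys ≤ h / 1000000 := by
    rw [hys]
    norm_num
    linarith
  obtain ⟨R, M, L, hB, hRc, hbase⟩ := exists_baseL hE hLU hYS (y₁ := y₁) (by rw [hy₁]; linarith)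
    (by rw [hy₁]; linarith)
  have hR : 0 < R := hB.R_pos
  obtain ⟨r₁, hr₁, hcl⟩ := climb hd hdh hYS.on hU hys hy₁ hB
  have hF : Mer F (St (-c) c ×ˢ ball 0 (c / 4)) := by
    refine Mer.of_analytic (hE.an.mono ?_)
    exact Set.prod_mono le_rfl (ball_subset_ball (by linarith))
  have hext : ∀ r : ℝ, 0 < r → r < r₁ → r < c / 8 → r ≤ R / 2 → ∀ y' < h + 0.005 * r,
      ExtM F c (c / 4) y' (r * I) := by
    intro r hr0 hr1 hr2 hr3 y' hy'
    obtain ⟨δ, hδ, hδr, L', hL1, hL2, hL3⟩ := hcl r hr0 hr1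
    have hb : ∀ z ∈ ball ((r:ℂ) * I) δ, ‖z‖ < 2 * r := by
      intro z hz
      rw [mem_ball, dist_eq_norm] at hz
      have h1 : ‖z‖ ≤ ‖z - r * I‖ + ‖(r:ℂ) * I‖ := by
        have := norm_add_le (z - r * I) (r * I)
        rwa [sub_add_cancel] at this
      have h2 : ‖(r:ℂ) * I‖ = r := by
        rw [norm_mul, Complex.norm_real, Complex.norm_I, mul_one, Real.norm_eq_abs,
          abs_of_pos hr0]
      linarith
    have hK : ExtM (KF F) (c / 2) (c / 4) (h - 0.995 * r) (r * I) := by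
      have hsubS : St (-(c / 2)) (h - 0.995 * r) ×ˢ ball ((r:ℂ) * I) δ ⊆
          St (-y₁) (h - 0.995 * r) ×ˢ ball ((r:ℂ) * I) δ := by
        refine Set.prod_mono ?_ le_rfl
        intro t ht
        exact ⟨by linarith [ht.1], ht.2⟩
      refine extK_of_label hE (L := L') hδ ?_ ?_ (hL1.mono hsubS) (fun p hp => hL2 p (hsubS hp)) ?_
      · intro z hz
        rw [mem_ball_zero_iff]
        linarith [hb z hz]
      · linarith
      · intro p hp
        have h1 : -(c / 2) < p.1.im := hp.1.1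
        have h2 : p.1.im < c / 2 := hp.1.2
        rw [hL3 p (by linarith)]
        refine hbase p ⟨⟨by linarith, by linarith⟩, ?_⟩ (abs_lt.2 ⟨by linarith, h2⟩)
        rw [mem_ball_zero_iff]
        linarith [hb p.2 hp.2]
    have him : ((r:ℂ) * I).im = r := by simp
    refine extM_of_KF hc le_rfl hF (by rw [him]; exact hr0.ne') hK ?_
    rw [him, abs_of_pos hr0]
    linarith
  -- the height
  have hcY : c ≤ h + 1 := by linarith
  have hH : SupH (hgt F c (c / 4) (h + 1)) (ball 0 (c / 4)) := supH_hgt hc hF hcY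
  have hconst : SupH (fun _ : ℂ => -h) (ball 0 (c / 4)) :=
    supH_of_harmonic isOpen_ball (InnerProductSpace.harmonicOnNhd_const (-h))
  have hw := hH.add hconst
  have hle : ∀ (ρ : ℂ) (x : ℝ), x ≤ h + 1 → (∀ y' < x, ExtM F c (c / 4) y' ρ) →
      x ≤ hgt F c (c / 4) (h + 1) ρ := by
    intro ρ x hx hall
    by_contra hcon
    push Not at hcon
    obtain ⟨y', h1, h2⟩ := exists_between hcon
    exact absurd (le_hgt_of_extM (hall y' h2) (h2.le.trans hx)) (not_le.2 h1)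
  obtain ⟨r₂, hr₂⟩ : ∃ r₂ : ℝ, r₂ = min (min (r₁ / 2) (c / 16)) (min (R / 2) 1) := ⟨_, rfl⟩
  have hr₂0 : 0 < r₂ := by
    rw [hr₂]
    exact lt_min (lt_min (by linarith) (by linarith)) (lt_min (by linarith) one_pos)
  have e1 : r₂ ≤ r₁ / 2 := by rw [hr₂]; exact (min_le_left _ _).trans (min_le_left _ _)
  have e2 : r₂ ≤ c / 16 := by rw [hr₂]; exact (min_le_left _ _).trans (min_le_right _ _)
  have e3 : r₂ ≤ R / 2 := by rw [hr₂]; exact (min_le_right _ _).trans (min_le_left _ _)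
  have e4 : r₂ ≤ 1 := by rw [hr₂]; exact (min_le_right _ _).trans (min_le_right _ _)
  have h0 := half_disc (w := fun z => hgt F c (c / 4) (h + 1) z + -h) (R := c / 4) (A := h - c)
    (c := 0.005) (r₁ := r₂) hr₂0 (by linarith) (by norm_num) hw (by
      intro z hz
      have := le_hgt hF hcY hz
      show -(h - c) ≤ hgt F c (c / 4) (h + 1) z + -h
      linarith) (by
      intro r hr0 hr1
      have h1 := hext r hr0 (by linarith) (by linarith) (by linarith)
      have h2 := hle (r * I) (h + 0.005 * r) (by linarith) h1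
      have h3 := hle (-(r * I)) (h + 0.005 * r) (by linarith)
        (fun y' hy' => extM_neg hE.toCon (h1 y' hy'))
      constructor
      · show 0.005 * r ≤ hgt F c (c / 4) (h + 1) (r * I) + -h
        linarith
      · show 0.005 * r ≤ hgt F c (c / 4) (h + 1) (-(r * I)) + -h
        linarith) (by
      have h4 := hle 0 h (by linarith) (fun y' hy' => hE.ext y' hy')
      show 0 ≤ hgt F c (c / 4) (h + 1) 0 + -h
      linarith)
  have h5 : h < hgt F c (c / 4) (h + 1) 0 := by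
    have h6 : 0 < hgt F c (c / 4) (h + 1) 0 + -h := h0
    linarith
  obtain ⟨y, hy1, hy2⟩ := exists_between h5
  exact ⟨y, hy1, extM_of_lt (mem_ball_self (by linarith)) hy2⟩

end Pool.Agent.MP_ae5b4e_an_SV
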