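import Mathlib
import Pool.Agent.Lib.MP_ae5b4e_an_NB2.Sys
import Pool.Agent.Lib.MP_ae5b4e_an_NBT.Reg1
import Pool.Agent.Lib.MP_ae5b4e_an_LU.Defs

/-!
# MP_ae5b4e_an, project SV: definitions

`Y` is a fundamental system of `y'' + Q y = 0` with `y₂ / y₁ = f`.
-/

noncomputable section

namespace Pool.Agent.MP_ae5b4e_an_SV

open Complex Set Filter Topology Metric
open Pool.Agent.MP_ae5b4e_an_NBT
open Pool.Agent.MP_ae5b4e_an_NB2 (Sys)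
open scoped ComplexConjugate

/-- equality in the sphere of the values of a meromorphic function in normal form (`0` at poles) -/
def SEq (f : ℂ → ℂ) (u v : ℂ) : Prop := f u = f v ∧ (AnalyticAt ℂ f u ↔ AnalyticAt ℂ f v)

/-- `y₂ / y₁ = f` on `S`, the zeros of `y₁` are the poles of `f` -/
structure SysOf (f : ℂ → ℂ) (Y : Sys) (S : Set ℂ) : Prop where
  on : Y.On S
  val : ∀ z ∈ S, (Y.y1 z ≠ 0 ∧ AnalyticAt ℂ f z ∧ f z = Y.y2 z / Y.y1 z) ∨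
    (Y.y1 z = 0 ∧ ¬ AnalyticAt ℂ f z ∧ f z = 0)

/-- the base point of the disc of radius `d` which touches the line `Im = h` above `t` -/
def bp (h d : ℝ) (t : ℂ) : ℂ := (t.re : ℂ) + ((h - d : ℝ) : ℂ) * I

/-- nearly vertical parameters -/
def Cone (r₁ : ℝ) : Set ℂ := {η | 0 < η.im ∧ η.im < r₁ ∧ |η.re| < 10⁻¹ ^ 4 * η.im}

/-- the depth in units of `Im η` -/
def sd (h : ℝ) (p : ℂ × ℂ) : ℝ := (h - p.1.im) / p.2.im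

/-- the region of the `k`-th layer -/
def W (h y₁ ys r₁ : ℝ) (k : ℕ) : Set (ℂ × ℂ) :=
  {p | p.2 ∈ Cone r₁ ∧ -y₁ < p.1.im ∧ p.1.im < h - ys + k * p.2.im ∧
    p.1.im < h - 0.99 * p.2.im}

/-- the base label: analytic on the strip of half height `y₁`, with bounds -/
structure BaseL (Y : Sys) (h y₁ R M : ℝ) (L : ℂ × ℂ → ℂ) : Prop where
  R_pos : 0 < R
  M_pos : 0 < M
  y_pos : 0 < y₁
  y_lt : y₁ < h
  an : AnalyticOnNhd ℂ L (St (-y₁) y₁ ×ˢ ball 0 R)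
  maps : ∀ p ∈ St (-y₁) y₁ ×ˢ ball (0:ℂ) R, |(L p).im| < h
  close : ∀ p ∈ St (-y₁) y₁ ×ˢ ball (0:ℂ) R, ‖L p - p.1‖ ≤ M * ‖p.2‖ ^ 2
  diff : ∀ p ∈ St (-y₁) y₁ ×ˢ ball (0:ℂ) R, ∀ s ∈ St (-y₁) y₁,
    ‖L (s, p.2) - L p - (s - p.1)‖ ≤ M * ‖p.2‖ ^ 2 * ‖s - p.1‖
  node : ∀ p ∈ St (-y₁) y₁ ×ˢ ball (0:ℂ) R, p.1 + p.2 ∈ St (-y₁) y₁ → p.1 - p.2 ∈ St (-y₁) y₁ →
    Y.node (L p) (L (p.1 + p.2, p.2)) (L (p.1 - p.2, p.2))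

/-- the bounds for the label `L` at the point `p`, `1.99 ≤ sd h p` -/
structure Bd (h ys M : ℝ) (L : ℂ × ℂ → ℂ) (p : ℂ × ℂ) : Prop where
  m : ‖p.2 / (L p - L (p.1 - p.2, p.2)) - 1‖ ≤ 3 * M * p.2.im ^ 2 + 0.27 / (sd h p + 0.37) ^ 2
  l : ‖L p - p.1‖ ≤ 2 * M * p.2.im ^ 2 + 4 * M * p.2.im ^ 2 * max 0 (ys + 2 * p.2.im - (h - p.1.im)) +
    0.3 * p.2.im / (sd h p - 0.13)

end Pool.Agent.MP_ae5b4e_an_SV
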