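import Pool.Agent.Lib.MP_ae5b4e_an_SV.Defs
import Pool.Agent.Lib.MP_ae5b4e_an_NBT.Crit

/-!
# MP_ae5b4e_an, project SV: the germ of the label at a point of the line `ρ = 0`
-/

noncomputable section

namespace Pool.Agent.MP_ae5b4e_an_SV

open Complex Set Filter Topology Metric
open Pool.Agent.MP_ae5b4e_an_NBT
open Pool.Agent.MP_ae5b4e_an_NB2 (Sys)

variable {k : ℂ → ℂ} {F G : ℂ × ℂ → ℂ} {c h : ℝ} {Y : Sys}

/-! ### Slices and the limit of the functional equation -/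

private lemma ba_tends0 (t : ℂ) : Tendsto (fun s : ℂ => ((s, 0) : ℂ × ℂ)) (𝓝 t) (𝓝 (t, 0)) :=
  (Continuous.prodMk continuous_id continuous_const).tendsto' _ _ rfl

private lemma ba_an_slice {C : ℂ × ℂ → ℂ} {t : ℂ} (h : AnalyticAt ℂ C (t, 0)) :
    AnalyticAt ℂ (fun s => C (s, 0)) t :=
  AnalyticAt.fun_comp (g := C) (f := fun s : ℂ => ((s, 0) : ℂ × ℂ)) h
    (analyticAt_id.prod analyticAt_const)

/-- slice in the finite chart -/
private lemma ba_slA {f C : ℂ × ℂ → ℂ} {t : ℂ} (hC : AnalyticAt ℂ C (t, 0))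
    (h : EqM f C (t, 0)) : ∀ᶠ s in 𝓝 t, sl f 0 s = C (s, 0) := by
  filter_upwards [(ba_tends0 t).eventually hC.eventually_analyticAt,
    (ba_tends0 t).eventually h.eventually] with s h1 h2
  exact nfM_eq h1 h2

/-- slice in the chart at infinity -/
private lemma ba_slB {f C : ℂ × ℂ → ℂ} {t : ℂ} (hC : AnalyticAt ℂ C (t, 0))
    (hd : deriv (fun s => C (s, 0)) t ≠ 0)
    (h : EqM (fun q => (f q)⁻¹) C (t, 0)) : ∀ᶠ s in 𝓝 t, sl f 0 s = (C (s, 0))⁻¹ := by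
  filter_upwards [(ba_tends0 t).eventually hC.eventually_analyticAt,
    (ba_tends0 t).eventually h.eventually,
    (ba_an_slice hC).deriv.continuousAt.eventually_ne hd] with s h1 h2 h3
  by_cases h0 : C (s, 0) = 0
  · -- no analytic germ
    rw [h0, inv_zero]
    have hno : ¬ ∃ D : ℂ × ℂ → ℂ, AnalyticAt ℂ D (s, 0) ∧ EqM f D (s, 0) := by
      rintro ⟨D, hD, hfD⟩
      have hden : Den C (s, 0) := by
        refine ⟨h1, fun hz => h3 ?_⟩
        have hz' : (fun x => C (x, 0)) =ᶠ[𝓝 s] fun _ => 0 := (ba_tends0 s).eventually hz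
        rw [hz'.deriv_eq]
        simp
      have hprod : EqM (fun q => D q * C q) (fun _ => 1) (s, 0) := by
        obtain ⟨B1, hB1, e1⟩ := hfD
        obtain ⟨B2, hB2, e2⟩ := h2
        refine ⟨_, (hB1.mul hB2).mul hden, ?_⟩
        filter_upwards [e1, e2] with q q1 q2 q0
        have c1 := left_ne_zero_of_mul (left_ne_zero_of_mul q0)
        have c2 := right_ne_zero_of_mul (left_ne_zero_of_mul q0)
        have c3 := right_ne_zero_of_mul q0
        have d1 := q1 c1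
        have d2 : (f q)⁻¹ = C q := q2 c2
        have d3 : f q ≠ 0 := by
          intro hf
          rw [hf, inv_zero] at d2
          exact c3 d2.symm
        rw [← d1, ← d2]
        exact mul_inv_cancel₀ d3
      have hev := (EqM.eventuallyEq (hD.mul h1) analyticAt_const hprod).self_of_nhds
      have hev' : D (s, 0) * C (s, 0) = 1 := hev
      rw [h0, mul_zero] at hev'
      exact zero_ne_one hev'
    unfold sl nfM
    rw [dif_neg hno]
  · have h4 : EqM f (fun q => (C q)⁻¹) (s, 0) := by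
      have h5 := h2.map fun x => x⁻¹
      simpa using h5
    exact nfM_eq (h1.inv h0) h4

private lemma ba_sep {C : ℂ × ℂ → ℂ} {t : ℂ} (hC : AnalyticAt ℂ C (t, 0))
    (hd : deriv (fun s => C (s, 0)) t ≠ 0) :
    ∀ᶠ p in 𝓝 ((t, 0) : ℂ × ℂ), p.2 ≠ 0 → C (p.1 + p.2, p.2) - C p ≠ 0 := by
  have h1 : HasStrictFDerivAt C (fderiv ℂ C (t, 0)) (t, 0) := hC.hasStrictFDerivAt
  have hA : fderiv ℂ C (t, 0) (1, 0) ≠ 0 := by
    rw [← (MP_ae5b4e_an_MERO.GoodOfFamily.hasStrictDerivAt_fst hC).hasDerivAt.deriv]; exact hd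
  set A := fderiv ℂ C (t, 0) with hAdef
  have h3 := h1.isLittleO.def (c := ‖A (1, 0)‖ / 2) (by positivity)
  have h4 : Tendsto (fun p : ℂ × ℂ => (((p.1 + p.2, p.2) : ℂ × ℂ), p)) (𝓝 (t, 0))
      (𝓝 (((t, 0) : ℂ × ℂ), ((t, 0) : ℂ × ℂ))) := by
    have : Continuous (fun p : ℂ × ℂ => (((p.1 + p.2, p.2) : ℂ × ℂ), p)) := by fun_prop
    exact this.tendsto' _ _ (by simp)
  filter_upwards [h4.eventually h3] with p hp h0 hz
  have e : ((p.1 + p.2, p.2) : ℂ × ℂ) - p = (p.2, 0) := by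
    ext <;> simp
  rw [e, hz, zero_sub, norm_neg] at hp
  have e2 : A (p.2, 0) = p.2 * A (1, 0) := by
    have : ((p.2, 0) : ℂ × ℂ) = p.2 • ((1, 0) : ℂ × ℂ) := by simp
    rw [this, map_smul, smul_eq_mul]
  have e3 : ‖((p.2, 0) : ℂ × ℂ)‖ = ‖p.2‖ := by
    simp [Prod.norm_def]
  rw [e2, e3, norm_mul] at hp
  have hp0 : 0 < ‖p.2‖ := norm_pos_iff.2 h0
  have hA0 : 0 < ‖A (1, 0)‖ := norm_pos_iff.2 hA
  nlinarith [mul_pos hp0 hA0]

private lemma ba_sep' {C : ℂ × ℂ → ℂ} {t : ℂ} (hC : AnalyticAt ℂ C (t, 0))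
    (hd : deriv (fun s => C (s, 0)) t ≠ 0) :
    ∀ᶠ p in 𝓝 ((t, 0) : ℂ × ℂ), p.2 ≠ 0 → C (p.1 - p.2, p.2) - C p ≠ 0 := by
  have h4 : Tendsto (fun p : ℂ × ℂ => ((p.1 - p.2, p.2) : ℂ × ℂ)) (𝓝 (t, 0))
      (𝓝 ((t, 0) : ℂ × ℂ)) := by
    have : Continuous (fun p : ℂ × ℂ => ((p.1 - p.2, p.2) : ℂ × ℂ)) := by fun_prop
    exact this.tendsto' _ _ (by simp)
  filter_upwards [h4.eventually (ba_sep hC hd)] with p hp h0
  have h1 := hp h0
  simp only [sub_add_cancel] at h1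
  intro h2
  apply h1
  have h3 : C p - C (p.1 - p.2, p.2) = 0 := by
    rw [← neg_sub, h2, neg_zero]
  exact h3

private lemma ba_line_deriv {F : ℂ × ℂ → ℂ} {x v : ℂ × ℂ} (hF : AnalyticAt ℂ F x) :
    ∀ᶠ ρ in 𝓝 (0:ℂ), HasDerivAt (fun ρ : ℂ => F (x + ρ • v)) (fderiv ℂ F (x + ρ • v) v) ρ := by
  have hc : Tendsto (fun ρ : ℂ => x + ρ • v) (𝓝 0) (𝓝 x) := by
    have : Continuous fun ρ : ℂ => x + ρ • v := by fun_prop
    simpa using this.tendsto 0
  filter_upwards [hc.eventually hF.eventually_analyticAt] with ρ hρ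
  have h1 : HasDerivAt (fun ρ : ℂ => x + ρ • v) v ρ := by
    simpa using ((hasDerivAt_id ρ).smul_const v).const_add x
  exact hρ.differentiableAt.hasFDerivAt.comp_hasDerivAt ρ h1

private lemma ba_line_deriv2 {F : ℂ × ℂ → ℂ} {x v : ℂ × ℂ} (hF : AnalyticAt ℂ F x) :
    HasDerivAt (fun ρ : ℂ => fderiv ℂ F (x + ρ • v) v) (fderiv ℂ (fderiv ℂ F) x v v) 0 := by
  have h1 : HasDerivAt (fun ρ : ℂ => x + ρ • v) v 0 := by
    simpa using ((hasDerivAt_id (0:ℂ)).smul_const v).const_add x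
  have h2 : HasFDerivAt (fderiv ℂ F) (fderiv ℂ (fderiv ℂ F) x) (x + (0:ℂ) • v) := by
    simpa using hF.fderiv.differentiableAt.hasFDerivAt
  have h3 : HasDerivAt (fun ρ : ℂ => fderiv ℂ F (x + ρ • v)) (fderiv ℂ (fderiv ℂ F) x v) 0 :=
    h2.comp_hasDerivAt (0:ℂ) h1
  simpa using h3.clm_apply (hasDerivAt_const (0:ℂ) v)

private lemma ba_line_analytic {F : ℂ × ℂ → ℂ} {x v : ℂ × ℂ} (hF : AnalyticAt ℂ F x) :
    AnalyticAt ℂ (fun ρ : ℂ => F (x + ρ • v)) 0 := by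
  have h1 : AnalyticAt ℂ (fun ρ : ℂ => x + ρ • v) 0 :=
    analyticAt_const.add (analyticAt_id.smul analyticAt_const)
  exact AnalyticAt.fun_comp (by simpa using hF) h1

/-- second order Taylor formula -/
private lemma ba_tend2 {Φ : ℂ → ℂ} (h : AnalyticAt ℂ Φ 0) (h0 : Φ 0 = 0) (h1 : deriv Φ 0 = 0) :
    Tendsto (fun ρ => Φ ρ / ρ ^ 2) (𝓝[≠] 0) (𝓝 (deriv (deriv Φ) 0 / 2)) := by
  have hO := (h.hasFPowerSeriesAt).isBigO_sub_partialSum_pow 3
  have hs : ∀ ρ : ℂ, (FormalMultilinearSeries.ofScalars ℂ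
      (fun n => iteratedDeriv n Φ 0 / n.factorial)).partialSum 3 ρ =
      ρ ^ 2 * (deriv (deriv Φ) 0 / 2) := by
    intro ρ
    simp [FormalMultilinearSeries.partialSum, Finset.sum_range_succ,
      FormalMultilinearSeries.ofScalars, h0, h1, iteratedDeriv_succ, iteratedDeriv_zero]
    ring
  simp only [hs, zero_add] at hO
  have h2 : Tendsto (fun ρ : ℂ => Φ ρ / ρ ^ 2 - deriv (deriv Φ) 0 / 2) (𝓝[≠] 0) (𝓝 0) := by
    have h3 : (fun ρ : ℂ => Φ ρ / ρ ^ 2 - deriv (deriv Φ) 0 / 2) =O[𝓝[≠] 0] fun ρ => ρ := by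
      obtain ⟨c, hc⟩ := hO.bound
      refine Asymptotics.IsBigO.of_bound c ?_
      filter_upwards [hc.filter_mono nhdsWithin_le_nhds, self_mem_nhdsWithin] with ρ hρ hρ0
      have hρ0' : ρ ≠ 0 := hρ0
      have e : Φ ρ / ρ ^ 2 - deriv (deriv Φ) 0 / 2 =
          (Φ ρ - ρ ^ 2 * (deriv (deriv Φ) 0 / 2)) / ρ ^ 2 := by field_simp
      rw [e, norm_div, norm_pow, div_le_iff₀ (by positivity)]
      calc _ ≤ c * ‖‖ρ‖ ^ 3‖ := hρ
        _ = c * ‖ρ‖ * ‖ρ‖ ^ 2 := by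
          rw [norm_pow, norm_norm]
          ring
    exact h3.trans_tendsto (tendsto_id.mono_left nhdsWithin_le_nhds)
  simpa using h2.add_const (deriv (deriv Φ) 0 / 2)

/-- the functional equation implies the differential equation of the limit curve -/
private lemma ba_ode {k : ℂ → ℂ} {F : ℂ × ℂ → ℂ} {t : ℂ} (hF : AnalyticAt ℂ F (t, 0))
    (hd : deriv (fun s => F (s, 0)) t ≠ 0) (hk : AnalyticAt ℂ k (F (t, 0)))
    (hfe : ∀ᶠ p in 𝓝 ((t, 0) : ℂ × ℂ), p.2 ≠ 0 →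
      (F (p.1 + p.2, p.2) - F p)⁻¹ + (F (p.1 - p.2, p.2) - F p)⁻¹ = k (F p)) :
    k (F (t, 0)) = -deriv (deriv fun s => F (s, 0)) t / deriv (fun s => F (s, 0)) t ^ 2 := by
  set f : ℂ → ℂ := fun s => F (s, 0) with hfdef
  set x : ℂ × ℂ := (t, 0) with hx
  set φ : ℂ × ℂ → ℂ → ℂ := fun v ρ => F (x + ρ • v) with hφ
  have hφan : ∀ v, AnalyticAt ℂ (φ v) 0 := fun v => ba_line_analytic hF
  have hφ1 : ∀ v, deriv (φ v) =ᶠ[𝓝 0] fun ρ => fderiv ℂ F (x + ρ • v) v := fun v => by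
    filter_upwards [ba_line_deriv (v := v) hF] with ρ hρ using hρ.deriv
  have hφ0 : ∀ v, φ v 0 = F x := fun v => by simp [hφ]
  have hφ1' : ∀ v, deriv (φ v) 0 = fderiv ℂ F x v := fun v => by
    rw [(hφ1 v).self_of_nhds]
    simp
  have hφ2 : ∀ v, deriv (deriv (φ v)) 0 = fderiv ℂ (fderiv ℂ F) x v v := fun v => by
    rw [(hφ1 v).deriv_eq]
    exact (ba_line_deriv2 hF).deriv
  have hφd : ∀ v, DifferentiableAt ℂ (φ v) 0 := fun v => (hφan v).differentiableAt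
  -- `f` is `φ (1, 0)`, translated
  have hfφ : ∀ s, f (t + s) = φ (1, 0) s := fun s => by simp [hφ, hfdef, hx]
  have hf1 : deriv f t = fderiv ℂ F x (1, 0) := by
    rw [← hφ1' (1, 0)]
    have : φ (1, 0) = fun s => f (t + s) := by
      funext s
      exact (hfφ s).symm
    rw [this, deriv_comp_const_add, add_zero]
  have hf2 : deriv (deriv f) t = fderiv ℂ (fderiv ℂ F) x (1, 0) (1, 0) := by
    rw [← hφ2 (1, 0)]
    have : φ (1, 0) = fun s => f (t + s) := by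
      funext s
      exact (hfφ s).symm
    have h2 : deriv (φ (1, 0)) = fun s => deriv f (t + s) := by
      funext s
      rw [this, deriv_comp_const_add]
    rw [h2, deriv_comp_const_add, add_zero]
  -- the second difference
  set Φ : ℂ → ℂ := fun ρ => φ (1, 1) ρ + φ (-1, 1) ρ - 2 * φ (0, 1) ρ with hΦ
  have hΦan : AnalyticAt ℂ Φ 0 :=
    ((hφan _).add (hφan _)).sub (analyticAt_const.mul (hφan _))
  have hev : deriv Φ =ᶠ[𝓝 0] fun ρ =>
      deriv (φ (1, 1)) ρ + deriv (φ (-1, 1)) ρ - 2 * deriv (φ (0, 1)) ρ := by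
    filter_upwards [(hφan (1, 1)).eventually_analyticAt, (hφan (-1, 1)).eventually_analyticAt,
      (hφan (0, 1)).eventually_analyticAt] with ρ h1 h2 h3
    exact (((h1.differentiableAt.hasDerivAt.add h2.differentiableAt.hasDerivAt)).sub
      (h3.differentiableAt.hasDerivAt.const_mul 2)).deriv
  have eab : ((1:ℂ), (1:ℂ)) = (1, 0) + (0, 1) := by simp
  have eab' : ((-1:ℂ), (1:ℂ)) = -(1, 0) + (0, 1) := by simp
  have hΦ0 : Φ 0 = 0 := by
    simp only [hΦ, hφ0]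
    ring
  have hΦ1 : deriv Φ 0 = 0 := by
    rw [hev.self_of_nhds]
    simp only [hφ1', eab, eab', map_add, map_neg]
    ring
  have hΦ2 : deriv (deriv Φ) 0 = 2 * deriv (deriv f) t := by
    rw [hev.deriv_eq]
    have h1 : HasDerivAt (fun ρ => deriv (φ (1, 1)) ρ + deriv (φ (-1, 1)) ρ -
        2 * deriv (φ (0, 1)) ρ) (deriv (deriv (φ (1, 1))) 0 + deriv (deriv (φ (-1, 1))) 0 -
        2 * deriv (deriv (φ (0, 1))) 0) 0 :=
      (((hφan _).deriv.differentiableAt.hasDerivAt).add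
        ((hφan _).deriv.differentiableAt.hasDerivAt)).sub
        ((hφan _).deriv.differentiableAt.hasDerivAt.const_mul 2)
    rw [h1.deriv, hf2]
    simp only [hφ2, eab, eab', map_add, map_neg, _root_.add_apply,
      _root_.neg_apply]
    ring
  have hlim1 := ba_tend2 hΦan hΦ0 hΦ1
  rw [hΦ2] at hlim1
  -- first differences
  have hP : Tendsto (fun ρ : ℂ => ρ⁻¹ * (φ (1, 1) ρ - φ (0, 1) ρ)) (𝓝[≠] 0)
      (𝓝 (deriv f t)) := by
    have h1 : HasDerivAt (fun ρ => φ (1, 1) ρ - φ (0, 1) ρ)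
        (deriv (φ (1, 1)) 0 - deriv (φ (0, 1)) 0) 0 :=
      (hφd _).hasDerivAt.sub (hφd _).hasDerivAt
    rw [hasDerivAt_iff_tendsto_slope_zero] at h1
    have e : deriv (φ (1, 1)) 0 - deriv (φ (0, 1)) 0 = deriv f t := by
      rw [hφ1', hφ1', hf1, eab, map_add]
      ring
    rw [e] at h1
    simpa [hφ0] using h1
  have hM : Tendsto (fun ρ : ℂ => ρ⁻¹ * (φ (-1, 1) ρ - φ (0, 1) ρ)) (𝓝[≠] 0)
      (𝓝 (-deriv f t)) := by
    have h1 : HasDerivAt (fun ρ => φ (-1, 1) ρ - φ (0, 1) ρ)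
        (deriv (φ (-1, 1)) 0 - deriv (φ (0, 1)) 0) 0 :=
      (hφd _).hasDerivAt.sub (hφd _).hasDerivAt
    rw [hasDerivAt_iff_tendsto_slope_zero] at h1
    have e : deriv (φ (-1, 1)) 0 - deriv (φ (0, 1)) 0 = -deriv f t := by
      rw [hφ1', hφ1', hf1, eab', map_add, map_neg]
      ring
    rw [e] at h1
    simpa [hφ0] using h1
  have hK : Tendsto (fun ρ : ℂ => k (φ (0, 1) ρ)) (𝓝[≠] 0) (𝓝 (k (F x))) := by
    have h1 : ContinuousAt (fun ρ : ℂ => k (φ (0, 1) ρ)) 0 := by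
      refine ContinuousAt.comp (g := k) (f := φ (0, 1)) ?_ (hφan _).continuousAt
      rw [hφ0]
      exact hk.continuousAt
    have h2 := h1.tendsto
    rw [hφ0] at h2
    exact h2.mono_left nhdsWithin_le_nhds
  -- the functional equation
  have hcp : Tendsto (fun ρ : ℂ => ((t, ρ) : ℂ × ℂ)) (𝓝 0) (𝓝 (t, 0)) := by
    have : Continuous fun ρ : ℂ => ((t, ρ) : ℂ × ℂ) := by fun_prop
    exact this.tendsto 0
  have heq : (fun ρ => Φ ρ / ρ ^ 2) =ᶠ[𝓝[≠] 0] fun ρ => k (φ (0, 1) ρ) *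
      (ρ⁻¹ * (φ (1, 1) ρ - φ (0, 1) ρ)) * (ρ⁻¹ * (φ (-1, 1) ρ - φ (0, 1) ρ)) := by
    filter_upwards [self_mem_nhdsWithin, mem_nhdsWithin_of_mem_nhds (hcp.eventually hfe),
      hP.eventually_ne hd, hM.eventually_ne (neg_ne_zero.2 hd)]
      with ρ h1 h2 h3 h4
    have hρ : ρ ≠ 0 := h1
    have e1 : φ (1, 1) ρ = F (t + ρ, ρ) := by simp [hφ, hx]
    have e2 : φ (-1, 1) ρ = F (t - ρ, ρ) := by simp [hφ, hx, sub_eq_add_neg]
    have e3 : φ (0, 1) ρ = F (t, ρ) := by simp [hφ, hx]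
    have hfe : (F (t + ρ, ρ) - F (t, ρ))⁻¹ + (F (t - ρ, ρ) - F (t, ρ))⁻¹ = k (F (t, ρ)) := h2 hρ
    rw [e1, e3] at h3
    rw [e2, e3] at h4
    have hp : F (t + ρ, ρ) - F (t, ρ) ≠ 0 := right_ne_zero_of_mul h3
    have hm : F (t - ρ, ρ) - F (t, ρ) ≠ 0 := right_ne_zero_of_mul h4
    simp only [hΦ]
    rw [e1, e2, e3, ← hfe]
    field_simp
    ring
  have hlim2 : Tendsto (fun ρ => Φ ρ / ρ ^ 2) (𝓝[≠] 0)
      (𝓝 (k (F x) * deriv f t * (-deriv f t))) :=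
    ((hK.mul hP).mul hM).congr' heq.symm
  have h1 := tendsto_nhds_unique hlim1 hlim2
  have h2 : deriv (deriv f) t = k (F x) * deriv f t * (-deriv f t) := by
    rw [← h1]
    ring
  rw [h2]
  field_simp

/-! ### The node relation -/

private lemma ba_alg {σ al au av bl bu bv al' bl' : ℂ} (hσ : σ ≠ 0) (hl : al ≠ 0)
    (hu : au ≠ 0) (hv : av ≠ 0) (hw : al * bl' - al' * bl = 1)
    (h1 : σ * bu / au - σ * bl / al ≠ 0) (h2 : σ * bv / av - σ * bl / al ≠ 0)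
    (h : (σ * bu / au - σ * bl / al)⁻¹ + (σ * bv / av - σ * bl / al)⁻¹ = 2 * al * al' / σ) :
    (bl' * au - al' * bu) * (al * bv - bl * av) +
      (bl' * av - al' * bv) * (al * bu - bl * au) = 0 := by
  have e1 : σ * bu / au - σ * bl / al = σ * (al * bu - bl * au) / (au * al) := by
    field_simp
  have e2 : σ * bv / av - σ * bl / al = σ * (al * bv - bl * av) / (av * al) := by
    field_simp
  rw [e1] at h1
  rw [e2] at h2
  rw [e1, e2] at h
  have s1 : al * bu - bl * au ≠ 0 := by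
    intro h0
    apply h1
    rw [h0]
    simp
  have s2 : al * bv - bl * av ≠ 0 := by
    intro h0
    apply h2
    rw [h0]
    simp
  rw [inv_div, inv_div] at h
  have h3 : au * (al * bv - bl * av) + av * (al * bu - bl * au) =
      2 * al' * ((al * bu - bl * au) * (al * bv - bl * av)) := by
    have h4 : au * al / (σ * (al * bu - bl * au)) + av * al / (σ * (al * bv - bl * av)) =
        al * (au * (al * bv - bl * av) + av * (al * bu - bl * au)) /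
          (σ * ((al * bu - bl * au) * (al * bv - bl * av))) := by
      rw [div_add_div _ _ (mul_ne_zero hσ s1) (mul_ne_zero hσ s2),
        div_eq_div_iff (mul_ne_zero (mul_ne_zero hσ s1) (mul_ne_zero hσ s2))
          (mul_ne_zero hσ (mul_ne_zero s1 s2))]
      ring
    rw [h4, div_eq_div_iff (mul_ne_zero hσ (mul_ne_zero s1 s2)) hσ] at h
    have h5 : al * σ ≠ 0 := mul_ne_zero hl hσ
    apply mul_left_cancel₀ h5
    linear_combination h
  apply mul_left_cancel₀ hl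
  rw [mul_zero]
  linear_combination h3 + (au * (al * bv - bl * av) + av * (al * bu - bl * au)) * hw

private lemma ba_core {C : ℂ × ℂ → ℂ} {κ : ℂ → ℂ} {t₀ : ℂ} (hC : AnalyticAt ℂ C (t₀, 0))
    (hd : deriv (fun s => C (s, 0)) t₀ ≠ 0) (hk : AnalyticAt ℂ κ (C (t₀, 0)))
    (hfe : ∀ᶠ p in 𝓝 ((t₀, 0) : ℂ × ℂ), p.2 ≠ 0 →
      (C (p.1 + p.2, p.2) - C p)⁻¹ + (C (p.1 - p.2, p.2) - C p)⁻¹ = κ (C p))
    {a b a' b' : ℂ → ℂ} {σ : ℂ} (hσ : σ ≠ 0)
    (ha : ∀ᶠ z in 𝓝 t₀, a z ≠ 0 ∧ HasDerivAt a (a' z) z ∧ HasDerivAt b (b' z) z ∧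
      a z * b' z - a' z * b z = 1 ∧ C (z, 0) = σ * b z / a z)
    {L : ℂ × ℂ → ℂ} (hL : ContinuousAt L (t₀, 0)) (hL0 : L (t₀, 0) = t₀)
    (hCL : ∀ᶠ p in 𝓝 ((t₀, 0) : ℂ × ℂ), C (L p, 0) = C p) :
    ∀ᶠ p in 𝓝 ((t₀, 0) : ℂ × ℂ),
      (b' (L p) * a (L (p.1 + p.2, p.2)) - a' (L p) * b (L (p.1 + p.2, p.2))) *
        (a (L p) * b (L (p.1 - p.2, p.2)) - b (L p) * a (L (p.1 - p.2, p.2))) +
      (b' (L p) * a (L (p.1 - p.2, p.2)) - a' (L p) * b (L (p.1 - p.2, p.2))) *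
        (a (L p) * b (L (p.1 + p.2, p.2)) - b (L p) * a (L (p.1 + p.2, p.2))) = 0 := by
  -- the value of `κ`
  have hκ : ∀ᶠ z in 𝓝 t₀, κ (C (z, 0)) = 2 * a z * a' z / σ := by
    have e1 := (ba_tends0 t₀).eventually hC.eventually_analyticAt
    have e2 := (ba_an_slice hC).deriv.continuousAt.eventually_ne hd
    have e3 : ∀ᶠ s in 𝓝 t₀, AnalyticAt ℂ κ (C (s, 0)) :=
      (ba_an_slice hC).continuousAt.eventually hk.eventually_analyticAt
    have e4 := (ba_tends0 t₀).eventually hfe.eventually_nhds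
    have e5 : ∀ᶠ z in 𝓝 t₀, deriv (fun s => C (s, 0)) z = σ / a z ^ 2 := by
      filter_upwards [ha.eventually_nhds] with z hz
      obtain ⟨z1, z2, z3, z4, -⟩ := hz.self_of_nhds
      have h1 : (fun s => C (s, 0)) =ᶠ[𝓝 z] fun s => σ * b s / a s :=
        hz.mono fun s hs => hs.2.2.2.2
      rw [h1.deriv_eq, ((z3.const_mul σ).fun_div z2 z1).deriv]
      congr 1
      linear_combination σ * z4
    filter_upwards [e1, e2, e3, e4, e5.eventually_nhds, ha] with z z1 z2 z3 z4 z5 z6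
    obtain ⟨y1, y2, y3, y4, -⟩ := z6
    have h1 := ba_ode z1 z2 z3 z4
    have h2 : deriv (deriv fun s => C (s, 0)) z = -(2 * σ * a' z) / a z ^ 3 := by
      have h3 : (deriv fun s => C (s, 0)) =ᶠ[𝓝 z] fun s => σ / a s ^ 2 := z5
      rw [h3.deriv_eq]
      have h4 : HasDerivAt (fun s => σ / a s ^ 2)
          ((0 * a z ^ 2 - σ * (2 * a z * a' z)) / (a z ^ 2) ^ 2) z := by
        refine (hasDerivAt_const z σ).fun_div ?_ (pow_ne_zero 2 y1)
        simpa using y2.fun_pow 2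
      rw [h4.deriv]
      field_simp
      ring
    rw [h1, h2, z5.self_of_nhds]
    field_simp
  have c1 : Tendsto (fun p : ℂ × ℂ => ((p.1 + p.2, p.2) : ℂ × ℂ)) (𝓝 (t₀, 0))
      (𝓝 ((t₀, 0) : ℂ × ℂ)) := by
    have : Continuous (fun p : ℂ × ℂ => ((p.1 + p.2, p.2) : ℂ × ℂ)) := by fun_prop
    exact this.tendsto' _ _ (by simp)
  have c2 : Tendsto (fun p : ℂ × ℂ => ((p.1 - p.2, p.2) : ℂ × ℂ)) (𝓝 (t₀, 0))
      (𝓝 ((t₀, 0) : ℂ × ℂ)) := by
    have : Continuous (fun p : ℂ × ℂ => ((p.1 - p.2, p.2) : ℂ × ℂ)) := by fun_prop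
    exact this.tendsto' _ _ (by simp)
  have hLt : Tendsto L (𝓝 (t₀, 0)) (𝓝 t₀) := by
    have h1 := hL.tendsto
    rwa [hL0] at h1
  have g1 := hLt.eventually (ha.and hκ)
  filter_upwards [hfe, ba_sep hC hd, ba_sep' hC hd, hCL, c1.eventually hCL, c2.eventually hCL,
    g1, c1.eventually g1, c2.eventually g1] with p p1 p2 p3 p4 p5 p6 p7 p8 p9
  by_cases h0 : p.2 = 0
  · have e1 : ((p.1 + p.2, p.2) : ℂ × ℂ) = p := by
      ext <;> simp [h0]
    have e2 : ((p.1 - p.2, p.2) : ℂ × ℂ) = p := by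
      ext <;> simp [h0]
    rw [e1, e2]
    ring
  · have q1 := p1 h0
    have q2 := p2 h0
    have q3 := p3 h0
    obtain ⟨⟨l1, l2, l3, l4, l5⟩, l6⟩ := p7
    obtain ⟨⟨u1, -, -, -, u5⟩, -⟩ := p8
    obtain ⟨⟨v1, -, -, -, v5⟩, -⟩ := p9
    rw [← p4, ← p5] at q2
    rw [← p4, ← p6] at q3
    rw [← p4, ← p5, ← p6] at q1
    rw [l6, u5, v5, l5] at q1
    rw [u5, l5] at q2
    rw [v5, l5] at q3
    exact ba_alg hσ l1 u1 v1 l4 q2 q3 q1

theorem lab_germ (hE : ConE k F c h G) (hLU : LU (sl G 0) (St (-h) h))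
    (hY : SysOf (sl G 0) Y (St (-h) h)) {t₀ : ℂ} (ht₀ : t₀ ∈ St (-h) h) :
    ∃ L : ℂ × ℂ → ℂ, AnalyticAt ℂ L (t₀, 0) ∧ (∀ᶠ t in 𝓝 t₀, L (t, 0) = t) ∧
      (∀ᶠ p in 𝓝 ((t₀, 0) : ℂ × ℂ), L (p.1, -p.2) = L p ∧
        Y.node (L p) (L (p.1 + p.2, p.2)) (L (p.1 - p.2, p.2))) ∧
      EqM G (fun p => sl G 0 (L p)) (t₀, 0) := by
  have hth : |t₀.im| < h := abs_lt.2 ⟨ht₀.1, ht₀.2⟩
  have hfam : FamAt G t₀ := by
    refine fam_of_lu hE hth (f := sl G 0) ?_ (Eventually.of_forall fun _ => rfl)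
    intro z hz
    rw [mem_singleton_iff.1 hz]
    exact hLU t₀ ht₀
  obtain ⟨C, κ, hC, hd, hk, hfe, hGC⟩ := hfam
  have hC0 := ba_an_slice hC
  set C0 : ℂ → ℂ := fun s => C (s, 0) with hC0d
  -- the local inverse
  set ψ : ℂ → ℂ := hC0.hasStrictDerivAt.localInverse _ _ _ hd with hψd
  have hψa : AnalyticAt ℂ ψ (C (t₀, 0)) := hC0.analyticAt_localInverse hd
  have hψ1 : ∀ᶠ t in 𝓝 t₀, ψ (C (t, 0)) = t := hC0.hasStrictDerivAt.eventually_left_inverse hd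
  have hψ2 : ∀ᶠ z in 𝓝 (C (t₀, 0)), C (ψ z, 0) = z :=
    hC0.hasStrictDerivAt.eventually_right_inverse hd
  have hL : AnalyticAt ℂ (fun p => ψ (C p)) (t₀, 0) := AnalyticAt.fun_comp hψa hC
  have hL0 : ψ (C (t₀, 0)) = t₀ := hψ1.self_of_nhds
  have hCL : ∀ᶠ p in 𝓝 ((t₀, 0) : ℂ × ℂ), C (ψ (C p), 0) = C p :=
    hC.continuousAt.eventually hψ2
  have hLt : Tendsto (fun p => ψ (C p)) (𝓝 ((t₀, 0) : ℂ × ℂ)) (𝓝 t₀) := by
    have h1 := hL.continuousAt.tendsto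
    rwa [hL0] at h1
  -- evenness
  have heven : ∀ᶠ p in 𝓝 ((t₀, 0) : ℂ × ℂ), C (p.1, -p.2) = C p := by
    have hmem : ((t₀, 0) : ℂ × ℂ) ∈ DF F c (c / 4) :=
      (DK_shift hE.toCon (mem_DK_zero hE hth)).1
    have h1 := hE.evenG _ hmem
    let e : (ℂ × ℂ) ≃ₜ (ℂ × ℂ) := (Homeomorph.refl ℂ).prodCongr (Homeomorph.neg ℂ)
    have he : ∀ q : ℂ × ℂ, e q = (q.1, -q.2) := fun q => rfl
    have hea : AnalyticAt ℂ e (t₀, 0) := by
      change AnalyticAt ℂ (fun q : ℂ × ℂ => (q.1, -q.2)) (t₀, 0)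
      exact analyticAt_fst.prod analyticAt_snd.neg
    have he0 : e (t₀, 0) = (t₀, 0) := by
      rw [he]
      simp
    have hCe : AnalyticAt ℂ (fun q : ℂ × ℂ => C (q.1, -q.2)) (t₀, 0) := by
      refine AnalyticAt.fun_comp (g := C) (f := fun q : ℂ × ℂ => (q.1, -q.2)) ?_
        (analyticAt_fst.prod analyticAt_snd.neg)
      simpa using hC
    have h2 : EqM (fun q : ℂ × ℂ => C (q.1, -q.2)) C (t₀, 0) := by
      rcases hGC with h3 | h3
      · have h4 : EqM (fun q => G (e q)) (fun q => C (e q)) (t₀, 0) :=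
          EqM.comp e hea (by rw [he0]; exact h3)
        exact (h4.symm.trans h1).trans h3
      · have h4 : EqM (fun q => (G (e q))⁻¹) (fun q => C (e q)) (t₀, 0) :=
          EqM.comp (f := fun q => (G q)⁻¹) e hea (by rw [he0]; exact h3)
        exact (h4.symm.trans (h1.map fun x => x⁻¹)).trans h3
    exact EqM.eventuallyEq hCe hC h2
  refine ⟨fun p => ψ (C p), hL, hψ1, ?_, ?_⟩
  · -- the node relation
    have hS : ∀ᶠ z in 𝓝 t₀, z ∈ St (-h) h := (isOpen_St _ _).mem_nhds ht₀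
    have hnode : ∀ᶠ p in 𝓝 ((t₀, 0) : ℂ × ℂ),
        Y.node (ψ (C p)) (ψ (C (p.1 + p.2, p.2))) (ψ (C (p.1 - p.2, p.2))) := by
      rcases hGC with h3 | h3
      · have hsl := ba_slA hC h3
        have e1 := hsl.eventually_nhds
        have e2 := hC0.eventually_analyticAt
        have key : ∀ᶠ z in 𝓝 t₀, Y.y1 z ≠ 0 ∧ HasDerivAt Y.y1 (Y.y1' z) z ∧
            HasDerivAt Y.y2 (Y.y2' z) z ∧ Y.y1 z * Y.y2' z - Y.y1' z * Y.y2 z = 1 ∧
            C (z, 0) = 1 * Y.y2 z / Y.y1 z := by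
          filter_upwards [hS, e1, e2] with z z1 z2 z3
          have z4 : AnalyticAt ℂ (sl G 0) z := z3.congr (z2.mono fun s hs => hs.symm)
          rcases hY.val z z1 with ⟨w1, w2, w3⟩ | ⟨w1, w2, w3⟩
          · refine ⟨w1, hY.on.d1 z z1, hY.on.d2 z z1, hY.on.wr z z1, ?_⟩
            rw [one_mul, ← w3]
            exact z2.self_of_nhds.symm
          · exact (w2 z4).elim
        have h5 := ba_core hC hd hk hfe one_ne_zero key hL.continuousAt hL0 hCL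
        filter_upwards [h5] with p hp
        exact hp
      · have hsl := ba_slB hC hd h3
        have e1 := hsl.eventually_nhds
        have e2 := hC0.eventually_analyticAt
        have e3 := hC0.deriv.continuousAt.eventually_ne hd
        have key : ∀ᶠ z in 𝓝 t₀, Y.y2 z ≠ 0 ∧ HasDerivAt Y.y2 (Y.y2' z) z ∧
            HasDerivAt (fun z => -Y.y1 z) (-Y.y1' z) z ∧
            Y.y2 z * (-Y.y1' z) - Y.y2' z * (-Y.y1 z) = 1 ∧
            C (z, 0) = (-1) * (-Y.y1 z) / Y.y2 z := by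
          filter_upwards [hS, e1, e2, e3] with z z1 z2 z3 z4
          have z5 : C (z, 0) = (sl G 0 z)⁻¹ := by
            rw [z2.self_of_nhds, inv_inv]
          have w4 := hY.on.wr z z1
          have w5 : Y.y2 z ≠ 0 := by
            intro h0
            rcases hY.val z z1 with ⟨w1, w2, w3⟩ | ⟨w1, w2, w3⟩
            · rw [h0, zero_div] at w3
              -- `sl G 0` tends to zero, its inverse is `C0`
              have t1 : Tendsto (sl G 0) (𝓝[≠] z) (𝓝 0) := by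
                have := w2.continuousAt.tendsto.mono_left (nhdsWithin_le_nhds (s := {z}ᶜ))
                rwa [w3] at this
              have t2 : Tendsto C0 (𝓝[≠] z) (𝓝 (C0 z)) :=
                z3.continuousAt.tendsto.mono_left nhdsWithin_le_nhds
              have t3 : Tendsto (fun s => sl G 0 s * C0 s) (𝓝[≠] z) (𝓝 0) := by
                simpa using t1.mul t2
              have t4 : Tendsto (fun s => sl G 0 s * C0 s) (𝓝[≠] z) (𝓝 1) := by
                have t5 : ∀ᶠ s in 𝓝[≠] z, C0 s ≠ 0 :=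
                  z3.differentiableAt.hasDerivAt.eventually_ne (c := 0) z4
                refine tendsto_const_nhds.congr' ?_
                filter_upwards [t5, nhdsWithin_le_nhds z2] with s s1 s2
                rw [s2]
                exact (inv_mul_cancel₀ s1).symm
              exact zero_ne_one (tendsto_nhds_unique t3 t4)
            · rw [w1, h0] at w4
              simp at w4
          refine ⟨w5, hY.on.d2 z z1, (hY.on.d1 z z1).fun_neg, ?_, ?_⟩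
          · linear_combination w4
          · rw [z5]
            rcases hY.val z z1 with ⟨w1, w2, w3⟩ | ⟨w1, w2, w3⟩
            · rw [w3, inv_div]
              ring
            · rw [w3, w1]
              simp
        have h5 := ba_core hC hd hk hfe (neg_ne_zero.2 one_ne_zero) key hL.continuousAt hL0 hCL
        filter_upwards [h5] with p hp
        have hp' : _ = (0 : ℂ) := hp
        unfold Sys.node Sys.c Sys.s
        linear_combination hp'
    filter_upwards [heven, hnode] with p p1 p2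
    refine ⟨?_, p2⟩
    show ψ (C (p.1, -p.2)) = ψ (C p)
    rw [p1]
  · -- the values
    rcases hGC with h3 | h3
    · have hsl := ba_slA hC h3
      refine h3.trans (EqM.of_eventuallyEq ?_)
      filter_upwards [hLt.eventually hsl, hCL] with p p1 p2
      rw [p1, p2]
    · have hsl := ba_slB hC hd h3
      have h4 : EqM G (fun q => (C q)⁻¹) (t₀, 0) := by
        have h5 := h3.map fun x => x⁻¹
        simpa using h5
      refine h4.trans (EqM.of_eventuallyEq ?_)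
      filter_upwards [hLt.eventually hsl, hCL] with p p1 p2
      rw [p1, p2]

private lemma ba_uniq {g : ℂ → ℂ} {t₀ : ℂ} (hg : AnalyticAt ℂ g t₀) (hd : deriv g t₀ ≠ 0)
    {L₁ L₂ : ℂ × ℂ → ℂ} (h1 : AnalyticAt ℂ L₁ (t₀, 0)) (h2 : AnalyticAt ℂ L₂ (t₀, 0))
    (e1 : L₁ (t₀, 0) = t₀) (e2 : L₂ (t₀, 0) = t₀)
    (he : EqM (fun p => g (L₁ p)) (fun p => g (L₂ p)) (t₀, 0)) :
    ∀ᶠ p in 𝓝 ((t₀, 0) : ℂ × ℂ), L₁ p = L₂ p := by
  have a1 : AnalyticAt ℂ (fun p => g (L₁ p)) (t₀, 0) :=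
    AnalyticAt.fun_comp (by rw [e1]; exact hg) h1
  have a2 : AnalyticAt ℂ (fun p => g (L₂ p)) (t₀, 0) :=
    AnalyticAt.fun_comp (by rw [e2]; exact hg) h2
  have h3 := EqM.eventuallyEq a1 a2 he
  have hψ := hg.hasStrictDerivAt.eventually_left_inverse hd
  have t1 : Tendsto L₁ (𝓝 ((t₀, 0) : ℂ × ℂ)) (𝓝 t₀) := by
    have := h1.continuousAt.tendsto
    rwa [e1] at this
  have t2 : Tendsto L₂ (𝓝 ((t₀, 0) : ℂ × ℂ)) (𝓝 t₀) := by
    have := h2.continuousAt.tendsto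
    rwa [e2] at this
  filter_upwards [h3, t1.eventually hψ, t2.eventually hψ] with p p1 p2 p3
  have p1' : g (L₁ p) = g (L₂ p) := p1
  rw [← p2, p1', p3]

theorem lab_germ_unique {f : ℂ → ℂ} {S : Set ℂ} (hLU : LU f S) {t₀ : ℂ} (ht₀ : t₀ ∈ S)
    {L₁ L₂ : ℂ × ℂ → ℂ} (h1 : AnalyticAt ℂ L₁ (t₀, 0)) (h2 : AnalyticAt ℂ L₂ (t₀, 0))
    (e1 : L₁ (t₀, 0) = t₀) (e2 : L₂ (t₀, 0) = t₀)
    (he : EqM (fun p => f (L₁ p)) (fun p => f (L₂ p)) (t₀, 0)) :
    ∀ᶠ p in 𝓝 ((t₀, 0) : ℂ × ℂ), L₁ p = L₂ p := by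
  rcases hLU t₀ ht₀ with ⟨h3, h4⟩ | ⟨-, h3, h4⟩
  · exact ba_uniq h3 h4 h1 h2 e1 e2 he
  · exact ba_uniq (g := fun w => (f w)⁻¹) h3 h4 h1 h2 e1 e2 (he.map fun x => x⁻¹)

end Pool.Agent.MP_ae5b4e_an_SV
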