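import Pool.Agent.Lib.MP_ae5b4e_an_SV.BaseA
import Pool.Agent.Lib.MP_ae5b4e_an_NBT.LabelC

/-!
# MP_ae5b4e_an, project SV: the label near the line `ρ = 0`
-/

noncomputable section

namespace Pool.Agent.MP_ae5b4e_an_SV

open Complex Set Filter Topology Metric
open Pool.Agent.MP_ae5b4e_an_NBT
open Pool.Agent.MP_ae5b4e_an_NB2 (Sys Lab)

variable {k : ℂ → ℂ} {F G : ℂ × ℂ → ℂ} {c h : ℝ} {Y : Sys}

theorem exists_lab_lu (hE : ConE k F c h G) (hLU : LU (sl G 0) (St (-h) h))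
    (hY : SysOf (sl G 0) Y (St (-h) h)) :
    ∃ L : ℂ × ℂ → ℂ, Lab Y h L ∧ (∀ t ∈ St (-h) h, EqM G (fun p => sl G 0 (L p)) (t, 0)) ∧
      ∀ t ∈ St (-h) h, ∀ᶠ p in 𝓝 ((t, 0) : ℂ × ℂ), L (p.1 + 1, p.2) = L p + 1 := by
  classical
  have hS := isOpen_St (-h) h
  -- the germs
  have hex : ∀ t₀ : ℂ, ∃ (g : ℂ × ℂ → ℂ) (r : ℝ), t₀ ∈ St (-h) h → (0 < r ∧
      AnalyticOnNhd ℂ g (ball t₀ r ×ˢ ball 0 r) ∧ (∀ t ∈ ball t₀ r, t ∈ St (-h) h ∧ g (t, 0) = t) ∧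
      (∀ p ∈ ball t₀ r ×ˢ ball (0:ℂ) r, EqM G (fun q => sl G 0 (g q)) p) ∧
      ∀ᶠ p in 𝓝 ((t₀, 0) : ℂ × ℂ), g (p.1, -p.2) = g p ∧
        Y.node (g p) (g (p.1 + p.2, p.2)) (g (p.1 - p.2, p.2))) := by
    intro t₀
    by_cases ht₀ : t₀ ∈ St (-h) h
    · obtain ⟨g, h1, h2, h3, h4⟩ := lab_germ hE hLU hY ht₀
      obtain ⟨r₁, hr₁, hb₁⟩ := Metric.eventually_nhds_iff_ball.1
        (h1.eventually_analyticAt.and h4.eventually)
      obtain ⟨r₂, hr₂, hb₂⟩ := Metric.eventually_nhds_iff_ball.1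
        ((hS.eventually_mem ht₀).and h2)
      have hsub : ball t₀ (min r₁ r₂) ×ˢ ball (0:ℂ) (min r₁ r₂) ⊆ ball (t₀, (0:ℂ)) r₁ := by
        rw [← ball_prod_same]
        exact prod_mono (ball_subset_ball (min_le_left _ _)) (ball_subset_ball (min_le_left _ _))
      refine ⟨g, min r₁ r₂, fun _ => ⟨lt_min hr₁ hr₂, fun p hp => (hb₁ p (hsub hp)).1,
        fun t ht => hb₂ t (ball_subset_ball (min_le_right _ _) ht),
        fun p hp => (hb₁ p (hsub hp)).2, h3⟩⟩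
    · exact ⟨0, 0, fun h => absurd h ht₀⟩
  choose g r hg using hex
  obtain ⟨P, hP⟩ : ∃ P : ℂ → Set (ℂ × ℂ), P = fun t₀ => ball t₀ (r t₀) ×ˢ ball (0:ℂ) (r t₀) :=
    ⟨_, rfl⟩
  have hPt : ∀ t₀, P t₀ = ball t₀ (r t₀) ×ˢ ball (0:ℂ) (r t₀) := fun t₀ => by rw [hP]
  -- agreement on the overlaps
  have key : ∀ t₀ ∈ St (-h) h, ∀ t₁ ∈ St (-h) h, ∀ p ∈ P t₀, p ∈ P t₁ → g t₀ p = g t₁ p := by
    intro t₀ ht₀ t₁ ht₁ p hp0 hp1
    rw [hPt] at hp0 hp1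
    obtain ⟨a0, a1, a2, a3, -⟩ := hg t₀ ht₀
    obtain ⟨b0, b1, b2, b3, -⟩ := hg t₁ ht₁
    have m0 : ((p.1, 0) : ℂ × ℂ) ∈ ball t₀ (r t₀) ×ˢ ball (0:ℂ) (r t₀) :=
      ⟨hp0.1, mem_ball_self a0⟩
    have m1 : ((p.1, 0) : ℂ × ℂ) ∈ ball t₁ (r t₁) ×ˢ ball (0:ℂ) (r t₁) :=
      ⟨hp1.1, mem_ball_self b0⟩
    have e := lab_germ_unique hLU (a2 p.1 hp0.1).1 (a1 _ m0) (b1 _ m1) (a2 p.1 hp0.1).2
      (b2 p.1 hp1.1).2 ((a3 _ m0).symm.trans (b3 _ m1))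
    have hc : IsPreconnected ((ball t₀ (r t₀) ×ˢ ball (0:ℂ) (r t₀)) ∩
        (ball t₁ (r t₁) ×ˢ ball (0:ℂ) (r t₁))) :=
      (((convex_ball _ _).prod (convex_ball _ _)).inter
        ((convex_ball _ _).prod (convex_ball _ _))).isPreconnected
    exact (a1.mono inter_subset_left).eqOn_of_preconnected_of_eventuallyEq
      (b1.mono inter_subset_right) hc ⟨m0, m1⟩ e ⟨hp0, hp1⟩
  obtain ⟨L, hL⟩ : ∃ L : ℂ × ℂ → ℂ, L = fun p =>
    if hp : ∃ t₀, t₀ ∈ St (-h) h ∧ p ∈ P t₀ then g hp.choose p else 0 := ⟨_, rfl⟩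
  have hLg : ∀ t₀ ∈ St (-h) h, ∀ p ∈ P t₀, L p = g t₀ p := by
    intro t₀ ht₀ p hp
    have hex : ∃ t₀, t₀ ∈ St (-h) h ∧ p ∈ P t₀ := ⟨t₀, ht₀, hp⟩
    have e1 : L p = g hex.choose p := by
      rw [hL]
      exact dif_pos hex
    rw [e1]
    exact key _ hex.choose_spec.1 _ ht₀ p hex.choose_spec.2 hp
  have hPn : ∀ t ∈ St (-h) h, P t ∈ 𝓝 ((t, 0) : ℂ × ℂ) := by
    intro t ht
    rw [hPt]
    have h0 := (hg t ht).1
    exact (isOpen_ball.prod isOpen_ball).mem_nhds ⟨mem_ball_self h0, mem_ball_self h0⟩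
  have hLe : ∀ t ∈ St (-h) h, L =ᶠ[𝓝 ((t, 0) : ℂ × ℂ)] g t := by
    intro t ht
    filter_upwards [hPn t ht] with p hp
    exact hLg t ht p hp
  have hPm : ∀ t ∈ St (-h) h, ((t, 0) : ℂ × ℂ) ∈ ball t (r t) ×ˢ ball (0:ℂ) (r t) := fun t ht =>
    ⟨mem_ball_self (hg t ht).1, mem_ball_self (hg t ht).1⟩
  have han : ∀ t ∈ St (-h) h, AnalyticAt ℂ L (t, 0) := fun t ht =>
    ((hg t ht).2.1 _ (hPm t ht)).congr (hLe t ht).symm
  have hzero : ∀ t ∈ St (-h) h, L (t, 0) = t := fun t ht => by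
    rw [(hLe t ht).self_of_nhds]
    exact ((hg t ht).2.2.1 t (mem_ball_self (hg t ht).1)).2
  have hEq : ∀ t ∈ St (-h) h, EqM G (fun p => sl G 0 (L p)) (t, 0) := by
    intro t ht
    refine ((hg t ht).2.2.2.1 _ (hPm t ht)).trans (EqM.of_eventuallyEq ?_)
    filter_upwards [hLe t ht] with p hp
    rw [hp]
  refine ⟨L, ⟨hE.pos.trans hE.hc, hY.on, han, hzero, fun t ht => ?_, fun t ht => ?_⟩, hEq,
    fun t ht => ?_⟩
  · -- even
    have c1 : Tendsto (fun p : ℂ × ℂ => (p.1, -p.2)) (𝓝 (t, 0)) (𝓝 (t, 0)) := by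
      have : Continuous fun p : ℂ × ℂ => (p.1, -p.2) := by fun_prop
      simpa using this.tendsto (t, 0)
    filter_upwards [hLe t ht, c1.eventually (hLe t ht), (hg t ht).2.2.2.2] with p h1 h2 h3
    rw [h1, h2, h3.1]
  · -- node
    have c1 : Tendsto (fun p : ℂ × ℂ => (p.1 + p.2, p.2)) (𝓝 (t, 0)) (𝓝 (t, 0)) := by
      have : Continuous fun p : ℂ × ℂ => (p.1 + p.2, p.2) := by fun_prop
      simpa using this.tendsto (t, 0)
    have c2 : Tendsto (fun p : ℂ × ℂ => (p.1 - p.2, p.2)) (𝓝 (t, 0)) (𝓝 (t, 0)) := by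
      have : Continuous fun p : ℂ × ℂ => (p.1 - p.2, p.2) := by fun_prop
      simpa using this.tendsto (t, 0)
    filter_upwards [hLe t ht, c1.eventually (hLe t ht), c2.eventually (hLe t ht),
      (hg t ht).2.2.2.2] with p h1 h2 h3 h4
    rw [h1, h2, h3]
    exact h4.2
  · -- period
    have ht1 : t + 1 ∈ St (-h) h := by
      show -h < (t + 1).im ∧ (t + 1).im < h
      rw [add_im, one_im, add_zero]
      exact ht
    have c1 : Tendsto (fun p : ℂ × ℂ => (p.1 + 1, p.2)) (𝓝 (t, 0)) (𝓝 (t + 1, 0)) := by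
      have : Continuous fun p : ℂ × ℂ => (p.1 + 1, p.2) := by fun_prop
      exact this.tendsto (t, 0)
    have a1 : AnalyticAt ℂ (fun p : ℂ × ℂ => L (p.1 + 1, p.2)) (t, 0) :=
      AnalyticAt.fun_comp (g := L) (f := fun p : ℂ × ℂ => (p.1 + 1, p.2)) (han _ ht1)
        ((analyticAt_fst.add analyticAt_const).prod analyticAt_snd)
    have a2 : AnalyticAt ℂ (fun p : ℂ × ℂ => L (p.1 + 1, p.2) - 1) (t, 0) :=
      a1.fun_sub analyticAt_const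
    have a3 : L (t + 1, 0) - 1 = t := by
      rw [hzero _ ht1, add_sub_cancel_right]
    have e1 : EqM (fun p : ℂ × ℂ => sl G 0 (L (p.1 + 1, p.2) - 1))
        (fun p => sl G 0 (L (p.1 + 1, p.2))) (t, 0) := by
      apply EqM.of_eventuallyEq
      have hmem : ∀ᶠ p : ℂ × ℂ in 𝓝 (t, 0), L (p.1 + 1, p.2) - 1 ∈ St (-h) h := by
        have h1 : L (((t, 0) : ℂ × ℂ).1 + 1, ((t, 0) : ℂ × ℂ).2) - 1 ∈ St (-h) h := by
          show L (t + 1, 0) - 1 ∈ St (-h) h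
          rw [a3]
          exact ht
        exact a2.continuousAt.eventually (hS.mem_nhds h1)
      filter_upwards [hmem] with p hp
      have h2 := labelC_per hE (t := L (p.1 + 1, p.2) - 1) (abs_lt.2 hp)
      rw [sub_add_cancel] at h2
      exact h2.symm
    have e2 : EqM (fun p : ℂ × ℂ => G (p.1 + 1, p.2)) (fun p => sl G 0 (L (p.1 + 1, p.2)))
        (t, 0) :=
      EqM.shift (h := fun _ => 1) (differentiable_const _) (p := (t, 0)) (f := G)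
        (g := fun p => sl G 0 (L p)) (hEq _ ht1)
    have e3 : EqM (fun p : ℂ × ℂ => G (p.1 + 1, p.2)) G (t, 0) :=
      hE.perG (t, 0) (DK_shift hE.toCon (mem_DK_zero hE (abs_lt.2 ht))).1
    have e4 : EqM (fun p : ℂ × ℂ => sl G 0 (L (p.1 + 1, p.2) - 1)) (fun p => sl G 0 (L p))
        (t, 0) := e1.trans (e2.symm.trans (e3.trans (hEq t ht)))
    have h5 := lab_germ_unique hLU ht a2 (han t ht) a3 (hzero t ht) e4
    filter_upwards [h5] with p hp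
    rw [← hp, sub_add_cancel]

end Pool.Agent.MP_ae5b4e_an_SV
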