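import Pool.Agent.Lib.MP_ae5b4e_an_SV.Defs
import Pool.Agent.Lib.MP_ae5b4e_an_LU.DNode
import Pool.Agent.Lib.MP_ae5b4e_an_LU.DUniq

/-!
# MP_ae5b4e_an, project SV: one step of the climb, numbers

`p = (t, η)` is a point at the depth `s = sd h p ≥ 1.99` (in units of `Im η`), `l`, `v` are the
labels of `t` and `t - η`.
-/

noncomputable section

namespace Pool.Agent.MP_ae5b4e_an_SV

open Complex Set Filter Topology Metric
open Pool.Agent.MP_ae5b4e_an_NB2 (Sys Uni)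

variable {Y : Sys} {h d : ℝ} {p : ℂ × ℂ} {l v : ℂ}

/-- the geometry: positions in the disc which touches the line above `t` -/
theorem pt_geom (hd : 0 < d) (hη : 0 < p.2.im) (hη' : |p.2.re| ≤ 10⁻¹ ^ 4 * p.2.im)
    (hs : 1.99 ≤ sd h p) (hdep : h - p.1.im ≤ 2 * 10⁻¹ ^ 6 * d) {lam : ℝ}
    (hl : ‖l - p.1‖ ≤ lam * p.2.im) (hlam : lam ≤ 0.17) :
    ‖p.2 - I * p.2.im‖ ≤ 0.0001 * p.2.im ∧ l ∈ ball (bp h d p.1) d ∧
      (sd h p - lam) * p.2.im ≤ d - ‖l - bp h d p.1‖ ∧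
      d - ‖l - bp h d p.1‖ ≤ 0.0001 * d ∧ ‖l - bp h d p.1 - I * d‖ ≤ 0.001 * d := by
  obtain ⟨s, hsdef⟩ : ∃ s, s = sd h p := ⟨_, rfl⟩
  obtain ⟨r, hrdef⟩ : ∃ r, r = p.2.im := ⟨_, rfl⟩
  have hsr : s * r = h - p.1.im := by
    rw [hsdef, hrdef, sd, div_mul_cancel₀ _ hη.ne']
  rw [← hsdef] at hs ⊢
  rw [← hrdef] at hη hη' hl ⊢
  have hdep' : s * r ≤ 0.000002 * d := by
    rw [hsr]
    refine hdep.trans (le_of_eq ?_)
    norm_num
  have e1 : p.2 - I * r = ((p.2.re : ℝ) : ℂ) := by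
    apply Complex.ext
    · simp
    · simp [hrdef]
  have e2 : p.1 - bp h d p.1 = ((d - s * r : ℝ) : ℂ) * I := by
    rw [hsr]
    unfold bp
    apply Complex.ext
    · simp
    · simp
      ring
  have e3 : p.1 - bp h d p.1 - I * d = ((-(s * r) : ℝ) : ℂ) * I := by
    rw [e2]
    push_cast
    ring
  have hsr0 : 0 ≤ s * r := by nlinarith
  have hlr : lam * r ≤ s * r := by nlinarith
  have n2 : ‖p.1 - bp h d p.1‖ = d - s * r := by
    rw [e2, norm_mul, Complex.norm_I, mul_one, Complex.norm_real, Real.norm_eq_abs,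
      abs_of_nonneg (by linarith)]
  have n3 : ‖p.1 - bp h d p.1 - I * d‖ = s * r := by
    rw [e3, norm_mul, Complex.norm_I, mul_one, Complex.norm_real, Real.norm_eq_abs, abs_neg,
      abs_of_nonneg hsr0]
  have up : ‖l - bp h d p.1‖ ≤ lam * r + (d - s * r) := by
    have e : l - bp h d p.1 = (l - p.1) + (p.1 - bp h d p.1) := by ring
    rw [e]
    refine (norm_add_le _ _).trans ?_
    rw [n2]
    linarith
  have lo : d - s * r - lam * r ≤ ‖l - bp h d p.1‖ := by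
    have e : p.1 - bp h d p.1 = (l - bp h d p.1) - (l - p.1) := by ring
    have h1 : ‖p.1 - bp h d p.1‖ ≤ ‖l - bp h d p.1‖ + ‖l - p.1‖ := by
      rw [e]
      exact norm_sub_le _ _
    rw [n2] at h1
    linarith
  refine ⟨?_, ?_, ?_, ?_, ?_⟩
  · rw [e1, Complex.norm_real, Real.norm_eq_abs]
    refine hη'.trans (le_of_eq ?_)
    norm_num
  · rw [mem_ball, dist_eq_norm]
    have : lam * r < s * r := by nlinarith
    linarith
  · linarith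
  · linarith
  · have e : l - bp h d p.1 - I * d = (l - p.1) + (p.1 - bp h d p.1 - I * d) := by ring
    rw [e]
    refine (norm_add_le _ _).trans ?_
    rw [n3]
    linarith

/-- the next label -/
theorem pt_step (hU : Uni Y (bp h d p.1) d) (hη : 0 < p.2.im)
    (hη' : |p.2.re| ≤ 10⁻¹ ^ 4 * p.2.im) (hs : 1.99 ≤ sd h p)
    (hdep : h - p.1.im ≤ 2 * 10⁻¹ ^ 6 * d) (hm : ‖p.2 / (l - v) - 1‖ ≤ 0.05)
    (hl : ‖l - p.1‖ ≤ 0.17 * p.2.im) :
    l ∈ ball (bp h d p.1) d ∧ v ∈ ball (bp h d p.1) d ∧ v ≠ l ∧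
      ∃ u ∈ ball (bp h d p.1) d, Y.node l u v ∧
        (2.99 ≤ sd h p → ‖l - p.1‖ ≤ 0.13 * p.2.im →
          ‖p.2 / (u - l) - p.2 / (l - v)‖ ≤ 0.52 / (sd h p - 0.13) ^ 3) := by
  have hlv : l - v ≠ 0 := by
    intro h0
    rw [h0, div_zero, zero_sub, norm_neg, norm_one] at hm
    norm_num at hm
  have hp2 : p.2 ≠ 0 := by
    intro h0
    rw [h0] at hη
    simp at hη
  obtain ⟨m', hm'⟩ : ∃ m', m' = p.2 / (l - v) := ⟨_, rfl⟩
  rw [← hm'] at hm ⊢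
  have hm0 : m' ≠ 0 := by
    rw [hm']
    exact div_ne_zero hp2 hlv
  have hv : l - p.2 / m' = v := by
    rw [hm']
    field_simp
    ring
  have hm6 : ‖m' - 1‖ ≤ 0.06 := by linarith
  obtain ⟨g1, g2, g3, g4, g5⟩ := pt_geom hU.pos hη hη' hs hdep hl le_rfl
  obtain ⟨hvb, u, hu, hnode⟩ := Pool.Agent.MP_ae5b4e_an_NB2.disc_last hU hη g1 g2 g4 g5
    (by nlinarith) hm6
  rw [hv] at hvb hnode
  refine ⟨g2, hvb, fun h0 => hlv (by rw [h0, sub_self]), ?_⟩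
  by_cases hc : 2.99 ≤ sd h p ∧ ‖l - p.1‖ ≤ 0.13 * p.2.im
  · obtain ⟨k1, k2, k3, k4, k5⟩ := pt_geom hU.pos hη hη' hs hdep hc.2 (by norm_num)
    obtain ⟨_, m, hm1, hm2, hu2, hnode2⟩ := Pool.Agent.MP_ae5b4e_an_NB2.disc_node hU hη k1 k2 k4 k5
      (by nlinarith [hc.1]) hm6
    rw [hv] at hnode2
    refine ⟨l + p.2 / m, hu2, hnode2, fun _ _ => ?_⟩
    have e : p.2 / (l + p.2 / m - l) = m := by
      rw [add_sub_cancel_left]
      field_simp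
    rw [e]
    refine hm2.trans ?_
    have hpos : 0 < sd h p - 0.13 := by linarith [hc.1]
    have hb : 0 < (sd h p - 0.13) * p.2.im := mul_pos hpos hη
    have h1 : p.2.im / (d - ‖l - bp h d p.1‖) ≤ 1 / (sd h p - 0.13) := by
      rw [div_le_div_iff₀ (lt_of_lt_of_le hb k3) hpos]
      linarith
    have h0 : 0 ≤ p.2.im / (d - ‖l - bp h d p.1‖) :=
      div_nonneg hη.le (le_trans hb.le k3)
    have h2 := pow_le_pow_left₀ h0 h1 3
    calc 0.52 * (p.2.im / (d - ‖l - bp h d p.1‖)) ^ 3 ≤ 0.52 * (1 / (sd h p - 0.13)) ^ 3 :=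
          mul_le_mul_of_nonneg_left h2 (by norm_num)
      _ = 0.52 / (sd h p - 0.13) ^ 3 := by rw [div_pow, one_pow, mul_one_div]
  · exact ⟨u, hu, hnode, fun a1 a2 => absurd ⟨a1, a2⟩ hc⟩

/-- the closed form of the bounds -/
theorem pt_mu {s : ℝ} (hs : 2.99 ≤ s) :
    0.27 / (s + 0.37) ^ 2 + 0.52 / (s - 0.13) ^ 3 ≤ 0.27 / (s - 1 + 0.37) ^ 2 := by
  obtain ⟨x, hx⟩ : ∃ x, x = s - 0.13 := ⟨_, rfl⟩
  have hx2 : 2.86 ≤ x := by rw [hx]; linarith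
  have e1 : s + 0.37 = x + 1 / 2 := by rw [hx]; ring
  have e2 : s - 1 + 0.37 = x - 1 / 2 := by rw [hx]; ring
  rw [← hx, e1, e2]
  have hp1 : 0 < x - 1 / 2 := by linarith
  have hp2 : 0 < x + 1 / 2 := by linarith
  have hx0 : 0 < x := by linarith
  have hq : 0 < x ^ 2 - 1 / 4 := by nlinarith
  have h1 : 0.27 / (x - 1 / 2) ^ 2 - 0.27 / (x + 1 / 2) ^ 2 = 0.54 * x / (x ^ 2 - 1 / 4) ^ 2 := by
    have e : x ^ 2 - 1 / 4 = (x - 1 / 2) * (x + 1 / 2) := by ring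
    rw [e]
    have := hp1.ne'
    have := hp2.ne'
    rw [div_sub_div _ _ (by positivity) (by positivity), mul_pow]
    congr 1
    ring
  have h2 : 0.52 / x ^ 3 ≤ 0.54 * x / (x ^ 2 - 1 / 4) ^ 2 := by
    rw [div_le_div_iff₀ (by positivity) (by positivity)]
    have h3 : (x ^ 2 - 1 / 4) ^ 2 ≤ (x ^ 2) ^ 2 := pow_le_pow_left₀ hq.le (by linarith) 2
    have h4 : 0 ≤ (x ^ 2) ^ 2 := by positivity
    nlinarith
  linarith

theorem pt_lam {s : ℝ} (hs : 1.99 ≤ s) :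
    0.3 / (s + 1 - 0.13) + 1.07 * (0.27 / (s + 0.37) ^ 2) ≤ 0.3 / (s - 0.13) := by
  obtain ⟨y, hy⟩ : ∃ y, y = s + 0.37 := ⟨_, rfl⟩
  have hy2 : 2.36 ≤ y := by rw [hy]; linarith
  have e1 : s + 1 - 0.13 = y + 1 / 2 := by rw [hy]; ring
  have e2 : s - 0.13 = y - 1 / 2 := by rw [hy]; ring
  rw [← hy, e1, e2]
  have hp1 : 0 < y - 1 / 2 := by linarith
  have hp2 : 0 < y + 1 / 2 := by linarith
  have hy0 : 0 < y := by linarith
  have hq : 0 < y ^ 2 - 1 / 4 := by nlinarith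
  have h1 : 0.3 / (y - 1 / 2) - 0.3 / (y + 1 / 2) = 0.3 / (y ^ 2 - 1 / 4) := by
    have e : y ^ 2 - 1 / 4 = (y - 1 / 2) * (y + 1 / 2) := by ring
    rw [e, div_sub_div _ _ hp1.ne' hp2.ne']
    congr 1
    ring
  have h2 : 1.07 * (0.27 / y ^ 2) ≤ 0.3 / (y ^ 2 - 1 / 4) := by
    rw [← mul_div_assoc, div_le_div_iff₀ (by positivity) hq]
    nlinarith
  linarith

end Pool.Agent.MP_ae5b4e_an_SV
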